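import Pool.Agent.Lib.MP_43150e_al.BN.QuotA

/-! # The quotient by the centre: the datum -/

set_option autoImplicit false

namespace BN43

open Matrix

variable {G : Type} [Group G] (D : PreDatum G)

theorem PreDatum.q_up_iff (i : D.ι) (g : (D.P i).map (pj G)) :
    IsUp (D.lift i g) ↔ (g : G ⧸ Subgroup.center G) ∈ D.B.map (pj G) := by
  obtain ⟨_, a, ha, rfl⟩ := g
  have h1 : Val (D.lift i) (pj G a) (D.lift i ⟨pj G a, a, ha, rfl⟩) := ⟨⟨a, ha, rfl⟩, rfl⟩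
  obtain ⟨h2, h3⟩ := (D.val_lift i a _).1 h1
  rw [← h3, D.up_iff]
  exact (mem_map_pj D.B D.Z_B a).symm

theorem PreDatum.q_uni_of (i : D.ι) : ∀ u ∈ D.U.map (pj G), ∃ c, Val (D.lift i) u (uni c) := by
  rintro _ ⟨a, ha, rfl⟩
  obtain ⟨c, hc⟩ := D.uni_of i a ha
  exact ⟨c, (D.val_lift i a _).2 hc⟩

theorem PreDatum.q_uni_sur (i : D.ι) (c : D.F i) :
    ∃ u ∈ D.U.map (pj G), Val (D.lift i) u (uni c) := by
  obtain ⟨a, ha, hc⟩ := D.uni_sur i c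
  exact ⟨pj G a, ⟨a, ha, rfl⟩, (D.val_lift i a _).2 hc⟩

theorem PreDatum.q_sl_sur (i : D.ι) (s : SpecialLinearGroup (Fin 2) (D.F i)) :
    ∃ g, Val (D.lift i) g s.toPGL := by
  obtain ⟨g, hg⟩ := D.sl_sur i s
  exact ⟨pj G g, (D.val_lift i g _).2 hg⟩

theorem PreDatum.q_rad (i : D.ι) : ∀ x ∈ (D.P i).map (pj G), ∀ u ∈ D.U.map (pj G),
    Val (D.lift i) u 1 → x * u * x⁻¹ ∈ D.U.map (pj G) := by
  rintro _ ⟨a, ha, rfl⟩ _ ⟨b, hb, rfl⟩ h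
  refine ⟨a * b * a⁻¹, D.rad i a ha b hb ((D.val_lift i b _).1 h), ?_⟩
  rw [map_mul, map_mul, map_inv]

theorem PreDatum.q_frat : ∀ u ∈ D.U.map (pj G), (∀ i, Val (D.lift i) u 1) →
    u ∈ ⁅D.U.map (pj G), D.U.map (pj G)⁆ := by
  rintro _ ⟨a, ha, rfl⟩ h
  rw [← Subgroup.map_commutator]
  exact ⟨a, D.frat a ha fun i => (D.val_lift i a _).1 (h i), rfl⟩

theorem PreDatum.q_faith : ∀ b ∈ D.B.map (pj G), (∀ i, ∃ c, Val (D.lift i) b (uni c)) →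
    b ∈ D.U.map (pj G) := by
  rintro _ ⟨a, ha, rfl⟩ h
  refine (mem_map_pj' D.U a).2 (D.faith a ha fun i => ?_)
  obtain ⟨c, hc⟩ := h i
  exact ⟨c, (D.val_lift i a _).1 hc⟩

theorem PreDatum.q_cowt (i k : D.ι) (hik : k ≠ i) :
    ∃ h ∈ ⨆ l, D.B.map (pj G) ⊓ conjGen ((D.P l).map (pj G)) (D.U.map (pj G)),
    (¬ ∃ c, Val (D.lift i) h (uni c)) ∧ ∃ c, Val (D.lift k) h (uni c) := by
  obtain ⟨h, h1, h2, c, h3⟩ := D.cowt i k hik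
  refine ⟨pj G h, ?_, ?_, c, (D.val_lift k h _).2 h3⟩
  · have h4 : pj G h ∈ (⨆ l, D.B ⊓ conjGen (D.P l) D.U).map (pj G) := ⟨h, h1, rfl⟩
    rw [Subgroup.map_iSup] at h4
    have h5 : (⨆ l, (D.B ⊓ conjGen (D.P l) D.U).map (pj G)) ≤
        ⨆ l, D.B.map (pj G) ⊓ conjGen ((D.P l).map (pj G)) (D.U.map (pj G)) := by
      refine iSup_mono fun l => ?_
      rw [map_conjGen]
      exact Subgroup.map_inf_le _ _ _
    exact h5 h4
  · rintro ⟨c, hc⟩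
    exact h2 ⟨c, (D.val_lift i h _).1 hc⟩

theorem PreDatum.q_conn (A : Set D.ι) (h1 : A.Nonempty) (h2 : Aᶜ.Nonempty) :
    ∃ i ∈ A, ∃ k ∈ Aᶜ, ∃ b ∈ D.B.map (pj G) ⊓ conjGen ((D.P k).map (pj G)) (D.U.map (pj G)),
      ¬ ∃ c, Val (D.lift i) (b ^ 2) (uni c) := by
  obtain ⟨i, hi, k, hk, b, hb, h3⟩ := D.conn A h1 h2
  refine ⟨i, hi, k, hk, pj G b, ?_, ?_⟩
  · rw [map_conjGen]
    exact ⟨⟨b, hb.1, rfl⟩, ⟨b, hb.2, rfl⟩⟩
  · rintro ⟨c, hc⟩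
    rw [← map_pow] at hc
    exact h3 ⟨c, (D.val_lift i _ _).1 hc⟩

theorem PreDatum.q_opp (k : D.ι) : ∀ n ∈ D.N.map (pj G), ∃ i, ∀ c : D.F i,
    ∃ y ∈ D.U.map (pj G), n⁻¹ * y * n ∈ conjGen ((D.P k).map (pj G)) (D.U.map (pj G)) ∧
    Val (D.lift i) y (uni c) ∧ ∀ l, l ≠ i → Val (D.lift l) y 1 := by
  rintro _ ⟨n, hn, rfl⟩
  obtain ⟨i, hi⟩ := D.opp k n hn
  refine ⟨i, fun c => ?_⟩
  obtain ⟨y, hy, h1, h2, h3⟩ := hi c
  refine ⟨pj G y, ⟨y, hy, rfl⟩, ?_, (D.val_lift i y _).2 h2,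
    fun l hl => (D.val_lift l y _).2 (h3 l hl)⟩
  rw [map_conjGen]
  refine ⟨n⁻¹ * y * n, h1, ?_⟩
  rw [map_mul, map_mul, map_inv]

theorem PreDatum.q_rank : ∃ k, ∃ b ∈ D.B.map (pj G),
    b ^ (4 * (Fintype.card (D.F k) + 1)) ∉ conjGen ((D.P k).map (pj G)) (D.U.map (pj G)) := by
  obtain ⟨k, b, hb, h⟩ := D.rank
  refine ⟨k, pj G b, ⟨b, hb, rfl⟩, fun h1 => ?_⟩
  rw [map_conjGen, ← map_pow] at h1
  obtain ⟨z, hz, h2⟩ := (mem_map_pj' _ _).1 h1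
  exact h z hz h2

/-- The datum of the quotient. -/
noncomputable def PreDatum.quot [Finite G] : Datum (G ⧸ Subgroup.center G) where
  p := D.p
  prime := D.prime
  U := D.U.map (pj G)
  B := D.B.map (pj G)
  N := D.N.map (pj G)
  ι := D.ι
  finι := D.finι
  F := D.F
  field := D.field
  fint := D.fint
  char := D.char
  big := D.big
  P := fun i => (D.P i).map (pj G)
  π := D.lift
  pgroup := D.q_pgroup
  U_le := Subgroup.map_mono D.U_le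
  norm := D.q_norm
  cop := D.q_cop
  comm := D.q_comm
  split := D.q_split
  torus := D.q_torus
  bruhat := D.q_bruhat
  B_le := fun i => Subgroup.map_mono (D.B_le i)
  up_iff := D.q_up_iff
  uni_of := D.q_uni_of
  uni_sur := D.q_uni_sur
  sl_sur := D.q_sl_sur
  rad := D.q_rad
  frat := D.q_frat
  faith := D.q_faith
  cowt := D.q_cowt
  conn := D.q_conn
  opp := D.q_opp
  rank := D.q_rank
  minp := D.q_minp

end BN43
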