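import Pool.Agent.Lib.MP_43150e_al.BN.AutX
import Pool.Agent.Lib.MP_43150e_al.BN.QuotB

/-! # Admissible automorphisms, formulated in the group `G` -/

set_option autoImplicit false

namespace BN43

open Spr43

variable {G : Type} [Group G] (D : PreDatum G)

/-- The stabiliser of `x` in `G`. -/
def stG {Γ Ω : Type*} [Group Γ] [MulAction Γ Ω] (j : G ⧸ Subgroup.center G →* Γ) (x : Ω) :
    Subgroup G :=
  (stab j x).comap (pj G)

theorem mem_stG {Γ Ω : Type*} [Group Γ] [MulAction Γ Ω] (j : G ⧸ Subgroup.center G →* Γ) (x : Ω)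
    (g : G) : g ∈ stG j x ↔ j (pj G g) • x = x := mem_stab j x (pj G g)

/-- The automorphism `β` acts on the parabolic subgroups as `t` and the permutation `σ` of the
nodes, which preserves the type of the point stabiliser. -/
structure PreDatum.Adm {Γ Ω : Type*} [Group Γ] [MulAction Γ Ω]
    (j : G ⧸ Subgroup.center G →* Γ) (x : Ω)
    (β : (G ⧸ Subgroup.center G) ≃* (G ⧸ Subgroup.center G)) (t : G) (σ : Equiv.Perm D.ι) :
    Prop where
  hB : ∀ y : G, β (pj G y) ∈ D.B.map (pj G) ↔ t⁻¹ * y * t ∈ D.B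
  hP : ∀ k (y : G), β (pj G y) ∈ (D.P k).map (pj G) ↔ t⁻¹ * y * t ∈ D.P (σ k)
  hL : ∀ k, D.P k ≤ stG j x ↔ D.P (σ k) ≤ stG j x

theorem adm_conj (K : Subgroup G) (hK : Subgroup.center G ≤ K) (t y : G) :
    (pj G t)⁻¹ * pj G y * pj G t ∈ K.map (pj G) ↔ t⁻¹ * y * t ∈ K := by
  rw [← mem_map_pj K hK, map_mul, map_mul, map_inv]

theorem PreDatum.exists_adm [Finite G] {Γ Ω : Type*} [Group Γ] [MulAction Γ Ω]
    (j : G ⧸ Subgroup.center G →* Γ) (htr : ∀ x y : Ω, ∃ t, j t • x = y) (x : Ω)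
    (hB : ∀ b ∈ D.B, j (pj G b) • x = x) (g : Γ)
    (β : (G ⧸ Subgroup.center G) ≃* (G ⧸ Subgroup.center G))
    (hβ : ∀ t, j (β t) = g * j t * g⁻¹) :
    ∃ (t : G) (σ : Equiv.Perm D.ι), D.Adm j x β t σ ∧ g⁻¹ • x = j (pj G t) • x := by
  obtain ⟨t', σ, h1, h2, h3, h4⟩ := D.quot.aut_x j htr x (by
    rintro _ ⟨b, hb, rfl⟩
    exact hB b hb) g β hβ
  obtain ⟨t, rfl⟩ := QuotientGroup.mk'_surjective (Subgroup.center G) t'
  refine ⟨t, σ, ⟨fun y => ?_, fun k y => ?_, fun k => ?_⟩, h3⟩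
  · exact (h1 (pj G y)).trans (adm_conj D.B D.Z_B t y)
  · exact (h2 k (pj G y)).trans (adm_conj (D.P (σ k)) (D.Z_B.trans (D.B_le (σ k))) t y)
  · have h5 : ∀ i, D.P i ≤ stG j x ↔ (D.P i).map (pj G) ≤ stab j x := fun i =>
      Subgroup.map_le_iff_le_comap.symm
    rw [h5, h5]
    exact h4 k

/-- The maximal parabolic subgroups are permuted in the same way. -/
theorem PreDatum.Adm.max [Finite G] {D : PreDatum G} {Γ Ω : Type*} [Group Γ] [MulAction Γ Ω]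
    {j : G ⧸ Subgroup.center G →* Γ} {x : Ω}
    {β : (G ⧸ Subgroup.center G) ≃* (G ⧸ Subgroup.center G)} {t : G} {σ : Equiv.Perm D.ι}
    (h : D.Adm j x β t σ) (M : D.ι → Subgroup G) (hMB : ∀ c, D.B ≤ M c)
    (hM : ∀ c (K : Subgroup G), D.B ≤ K → (K ≤ M c ↔ ¬ D.P c ≤ K)) (c : D.ι) (y : G) :
    β (pj G y) ∈ (M c).map (pj G) ↔ t⁻¹ * y * t ∈ M (σ c) := by
  have hsur := QuotientGroup.mk'_surjective (Subgroup.center G)
  have hZM : ∀ c, Subgroup.center G ≤ M c := fun c => D.Z_B.trans (hMB c)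
  have h1 := D.quot.aut_max β (pj G t) σ
    (by
      intro g
      obtain ⟨y, rfl⟩ := hsur g
      exact (h.hB y).trans (adm_conj D.B D.Z_B t y).symm)
    (by
      intro k g
      obtain ⟨y, rfl⟩ := hsur g
      exact (h.hP k y).trans (adm_conj (D.P (σ k)) (D.Z_B.trans (D.B_le (σ k))) t y).symm)
    (fun c => (M c).map (pj G)) (fun c => Subgroup.map_mono (hMB c))
    (by
      intro c K hK
      have h2 : D.B ≤ K.comap (pj G) := Subgroup.map_le_iff_le_comap.1 hK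
      have h3 := hM c (K.comap (pj G)) h2
      have h4 : K ≤ (M c).map (pj G) ↔ K.comap (pj G) ≤ M c := by
        constructor
        · intro h5 y hy
          exact (mem_map_pj (M c) (hZM c) y).1 (h5 hy)
        · intro h5 z hz
          obtain ⟨y, rfl⟩ := hsur z
          exact ⟨y, h5 hz, rfl⟩
      have h5 : (D.P c).map (pj G) ≤ K ↔ D.P c ≤ K.comap (pj G) :=
        Subgroup.map_le_iff_le_comap
      exact h4.trans (h3.trans (not_congr h5.symm)))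
    c (pj G y)
  exact h1.trans (adm_conj (M (σ c)) (hZM (σ c)) t y)

/-- The relation `P a P b = P b P a` in the quotient. -/
theorem adm_comm_iff (A A' : Subgroup G) (hA : Subgroup.center G ≤ A) :
    (∀ x ∈ A, ∀ y ∈ A', ∃ y' ∈ A', ∃ x' ∈ A, x * y = y' * x') ↔
    (∀ x ∈ A.map (pj G), ∀ y ∈ A'.map (pj G), ∃ y' ∈ A'.map (pj G), ∃ x' ∈ A.map (pj G),
      x * y = y' * x') := by
  constructor
  · rintro h _ ⟨x, hx, rfl⟩ _ ⟨y, hy, rfl⟩
    obtain ⟨y', hy', x', hx', h1⟩ := h x hx y hy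
    exact ⟨pj G y', ⟨y', hy', rfl⟩, pj G x', ⟨x', hx', rfl⟩, by rw [← map_mul, h1, map_mul]⟩
  · intro h x hx y hy
    obtain ⟨_, ⟨y', hy', rfl⟩, _, ⟨x', hx', rfl⟩, h1⟩ :=
      h (pj G x) ⟨x, hx, rfl⟩ (pj G y) ⟨y, hy, rfl⟩
    rw [← map_mul, ← map_mul] at h1
    have h2 : (y' * x')⁻¹ * (x * y) ∈ Subgroup.center G := QuotientGroup.eq.1 h1.symm
    refine ⟨y', hy', x' * ((y' * x')⁻¹ * (x * y)), A.mul_mem hx' (hA h2), ?_⟩
    group

/-- The relation `P a P b = P b P a` is preserved. -/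
theorem PreDatum.Adm.comm [Finite G] {D : PreDatum G} {Γ Ω : Type*} [Group Γ] [MulAction Γ Ω]
    {j : G ⧸ Subgroup.center G →* Γ} {x : Ω}
    {β : (G ⧸ Subgroup.center G) ≃* (G ⧸ Subgroup.center G)} {t : G} {σ : Equiv.Perm D.ι}
    (h : D.Adm j x β t σ) (a b : D.ι) :
    (∀ x ∈ D.P a, ∀ y ∈ D.P b, ∃ y' ∈ D.P b, ∃ x' ∈ D.P a, x * y = y' * x') ↔
    (∀ x ∈ D.P (σ a), ∀ y ∈ D.P (σ b), ∃ y' ∈ D.P (σ b), ∃ x' ∈ D.P (σ a), x * y = y' * x') := by
  have hZP : ∀ c, Subgroup.center G ≤ D.P c := fun c => D.Z_B.trans (D.B_le c)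
  rw [adm_comm_iff (D.P a) (D.P b) (hZP a), adm_comm_iff (D.P (σ a)) (D.P (σ b)) (hZP (σ a))]
  refine D.quot.aut_comm β (pj G t) σ ?_ a b
  intro k g
  obtain ⟨y, rfl⟩ := QuotientGroup.mk'_surjective (Subgroup.center G) g
  exact (h.hP k y).trans (adm_conj (D.P (σ k)) (hZP (σ k)) t y).symm

end BN43
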