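import Pool.Agent.Lib.MP_43150e_al.BN.BasicP

/-! # Automorphisms -/

set_option autoImplicit false

namespace BN43

variable {T : Type} [Group T] (D : Datum T)

/-- An automorphism of a finite group whose inverse maps `U` into `U`. -/
private theorem aut_of_le {T : Type} [Group T] [Finite T] (U : Subgroup T) (γ : T ≃* T)
    (h : ∀ x, γ x ∈ U → x ∈ U) (x : T) (hx : x ∈ U) : γ x ∈ U := by
  have h1 : U.comap γ.toMonoidHom ≤ U := fun y hy => h y hy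
  have h2 : Nat.card (U.comap γ.toMonoidHom) = Nat.card U := by
    refine Nat.card_congr ⟨fun y => ⟨γ y, y.2⟩, fun y => ⟨γ.symm y, ?_⟩, ?_, ?_⟩
    · change γ (γ.symm y) ∈ U
      rw [MulEquiv.apply_symm_apply]
      exact y.2
    · intro y
      apply Subtype.ext
      exact γ.symm_apply_apply _
    · intro y
      apply Subtype.ext
      exact γ.apply_symm_apply _
  have h3 : U.comap γ.toMonoidHom = U := Subgroup.eq_of_le_of_card_ge h1 h2.ge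
  have h4 : x ∈ U.comap γ.toMonoidHom := by rw [h3]; exact hx
  exact h4

/-- `β⁻¹(U) = m U m⁻¹` and `β⁻¹(B) = m B m⁻¹`. -/
theorem Datum.aut_B [Finite T] (β : T ≃* T) : ∃ m : T,
    (∀ g, β g ∈ D.U ↔ m⁻¹ * g * m ∈ D.U) ∧ ∀ g, β g ∈ D.B ↔ m⁻¹ * g * m ∈ D.B := by
  have hQ : IsPGroup D.p (D.U.comap β.toMonoidHom) := by
    rintro ⟨x, hx⟩
    obtain ⟨k, hk⟩ := D.pgroup ⟨β x, hx⟩
    refine ⟨k, ?_⟩
    apply Subtype.ext
    have h1 : (β x) ^ D.p ^ k = 1 := congrArg Subtype.val hk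
    rw [← map_pow] at h1
    exact (MulEquiv.map_eq_one_iff β).1 h1
  obtain ⟨m, hm⟩ := D.sylow _ hQ
  have hU : ∀ g, β g ∈ D.U ↔ m⁻¹ * g * m ∈ D.U := by
    intro g
    refine ⟨fun h => hm g h, fun h => ?_⟩
    have h1 := aut_of_le D.U ((MulAut.conj m).trans β) (fun x hx => by
      have h2 : β (m * x * m⁻¹) ∈ D.U := hx
      have h3 := hm _ h2
      have h4 : m⁻¹ * (m * x * m⁻¹) * m = x := by group
      rwa [h4] at h3) _ h
    have h5 : β (m * (m⁻¹ * g * m) * m⁻¹) ∈ D.U := h1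
    have h6 : m * (m⁻¹ * g * m) * m⁻¹ = g := by group
    rwa [h6] at h5
  refine ⟨m, hU, fun g => ?_⟩
  rw [← D.norm, ← D.norm]
  constructor
  · intro h w hw
    have h1 : β (m * w * m⁻¹) ∈ D.U := by
      rw [hU]
      have h2 : m⁻¹ * (m * w * m⁻¹) * m = w := by group
      rwa [h2]
    have h2 := h _ h1
    rw [← map_inv, ← map_mul, ← map_mul, hU] at h2
    have h3 : m⁻¹ * (g * (m * w * m⁻¹) * g⁻¹) * m = m⁻¹ * g * m * w * (m⁻¹ * g * m)⁻¹ := by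
      group
    rwa [h3] at h2
  · intro h u hu
    obtain ⟨v, rfl⟩ := β.surjective u
    have h1 := h _ ((hU v).1 hu)
    rw [← map_inv, ← map_mul, ← map_mul, hU]
    have h3 : m⁻¹ * (g * v * g⁻¹) * m =
        m⁻¹ * g * m * (m⁻¹ * v * m) * (m⁻¹ * g * m)⁻¹ := by group
    rwa [h3]

private theorem aut_S_aux {T : Type} [Group T] (D : Datum T) (φ : T ≃* T) (a b : D.ι)
    (hP : ∀ x ∈ D.P a, φ x ∈ D.P b) (hU : ∀ u ∈ D.U, φ u ∈ D.U) (y : T) (hy : y ∈ D.S a) :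
    φ y ∈ D.S b := by
  refine Subgroup.closure_induction (p := fun z _ => φ z ∈ D.S b) ?_ ?_ ?_ ?_ hy
  · rintro z ⟨w, hw, u, hu, rfl⟩
    apply Subgroup.subset_closure
    exact ⟨φ w, hP w hw, φ u, hU u hu, by rw [map_mul, map_mul, map_inv]⟩
  · rw [map_one]
    exact (D.S b).one_mem
  · intro x z _ _ hx hz
    rw [map_mul]
    exact (D.S b).mul_mem hx hz
  · intro x _ hx
    rw [map_inv]
    exact (D.S b).inv_mem hx

/-- `β⁻¹(P k) = m (P k') m⁻¹` and `β⁻¹(S k) = m (S k') m⁻¹`. -/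
theorem Datum.aut_S [Finite T] (β : T ≃* T) (k : D.ι) : ∃ (m : T) (k' : D.ι),
    (∀ g, β g ∈ D.P k ↔ m⁻¹ * g * m ∈ D.P k') ∧ ∀ g, β g ∈ D.S k ↔ m⁻¹ * g * m ∈ D.S k' := by
  obtain ⟨m, hU, hB⟩ := D.aut_B β
  obtain ⟨γ, hγ⟩ : ∃ γ : T ≃* T, ∀ h, γ h = β (m * h * m⁻¹) :=
    ⟨(MulAut.conj m).trans β, fun _ => rfl⟩
  have hγβ : ∀ g, β g = γ (m⁻¹ * g * m) := by
    intro g
    rw [hγ]
    congr 1
    group
  have hγU : ∀ h, γ h ∈ D.U ↔ h ∈ D.U := by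
    intro h
    rw [hγ, hU]
    have h1 : m⁻¹ * (m * h * m⁻¹) * m = h := by group
    rw [h1]
  have hγB : ∀ h, γ h ∈ D.B ↔ h ∈ D.B := by
    intro h
    rw [hγ, hB]
    have h1 : m⁻¹ * (m * h * m⁻¹) * m = h := by group
    rw [h1]
  have hsymU : ∀ h ∈ D.U, γ.symm h ∈ D.U := by
    intro h hh
    rw [← hγU, MulEquiv.apply_symm_apply]
    exact hh
  obtain ⟨x, hxP, hxB⟩ := D.exists_not_mem_B k
  have hlt : D.B < (D.P k).comap γ.toMonoidHom := by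
    refine lt_of_le_of_ne (fun h hh => D.B_le k ((hγB h).2 hh)) fun heq => ?_
    have h1 : γ.symm x ∈ (D.P k).comap γ.toMonoidHom := by
      change γ (γ.symm x) ∈ D.P k
      rw [MulEquiv.apply_symm_apply]
      exact hxP
    rw [← heq, ← hγB, MulEquiv.apply_symm_apply] at h1
    exact hxB h1
  obtain ⟨k', hk'⟩ := D.minp _ hlt
  have hP1 : ∀ h ∈ D.P k', γ h ∈ D.P k := fun h hh => hk' hh
  obtain ⟨y, hyP, hyB⟩ := D.exists_not_mem_B k'
  have hP2 : ∀ h ∈ D.P k, γ.symm h ∈ D.P k' := by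
    have h1 := D.max_B k ((D.P k').comap γ.symm.toMonoidHom) (fun h hh => by
      refine D.B_le k' ?_
      change γ.symm h ∈ D.B
      rw [← hγB, MulEquiv.apply_symm_apply]
      exact hh) (γ y) (by
        change γ.symm (γ y) ∈ D.P k'
        rw [MulEquiv.symm_apply_apply]
        exact hyP) (hP1 y hyP) (fun h => hyB ((hγB y).1 h))
    exact fun h hh => h1 hh
  refine ⟨m, k', fun g => ?_, fun g => ?_⟩
  · rw [hγβ]
    refine ⟨fun h => ?_, fun h => hP1 _ h⟩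
    have h1 := hP2 _ h
    rwa [MulEquiv.symm_apply_apply] at h1
  · rw [hγβ]
    refine ⟨fun h => ?_, fun h => ?_⟩
    · have h1 := aut_S_aux D γ.symm k k' hP2 hsymU _ h
      rwa [MulEquiv.symm_apply_apply] at h1
    · exact aut_S_aux D γ k' k hP1 (fun u hu => (hγU u).2 hu) _ h

/-- For every `m` the torus of `B` is covered by `B ∩ m B m⁻¹`. -/
theorem Datum.covers (m b : T) (hb : b ∈ D.B) :
    ∃ h ∈ D.B, m⁻¹ * h * m ∈ D.B ∧ b⁻¹ * h ∈ D.U := by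
  obtain ⟨b₁, hb₁, n, hn, b₂, hb₂, rfl⟩ := D.bruhat m
  obtain ⟨u, hu, h, hh, rfl⟩ := D.split b hb
  refine ⟨b₁ * h * b₁⁻¹, D.B.mul_mem (D.B.mul_mem hb₁ hh.1) (D.B.inv_mem hb₁), ?_, ?_⟩
  · have h1 := D.torus n⁻¹ (D.N.inv_mem hn) h hh
    have h2 : (b₁ * n * b₂)⁻¹ * (b₁ * h * b₁⁻¹) * (b₁ * n * b₂) =
        b₂⁻¹ * (n⁻¹ * h * n⁻¹⁻¹) * b₂ := by group
    rw [h2]
    exact D.B.mul_mem (D.B.mul_mem (D.B.inv_mem hb₂) h1) hb₂
  · have h1 := D.comm_mod hb₁ hh.1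
    have h2 : (u * h)⁻¹ * (b₁ * h * b₁⁻¹) =
        h⁻¹ * (u⁻¹ * (b₁ * h * b₁⁻¹ * h⁻¹)) * h⁻¹⁻¹ := by group
    rw [h2]
    exact D.conj_U (D.B.inv_mem hh.1) (D.U.mul_mem (D.U.inv_mem hu) h1)

/-- `m B m⁻¹ B ≠ T`. -/
theorem Datum.not_prod (m : T) (hT : ∃ a b : T, a * b ≠ b * a) [IsSimpleGroup T] [Finite T] :
    ∃ t : T, ∀ b ∈ D.B, ∀ b' ∈ D.B, t ≠ m * b * m⁻¹ * b' := by
  by_contra hcon
  push Not at hcon
  have hm : m ∈ D.B := by
    obtain ⟨b, hb, b', hb', h⟩ := hcon m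
    have h1 : m = b' * b := by
      have h2 : m * (b * m⁻¹ * b') = m * 1 := by
        rw [mul_one]
        nth_rewrite 3 [h]
        group
      have h3 : b * m⁻¹ * b' = 1 := mul_left_cancel h2
      have h4 : m⁻¹ = b⁻¹ * b'⁻¹ := by
        calc m⁻¹ = b⁻¹ * (b * m⁻¹ * b') * b'⁻¹ := by group
          _ = b⁻¹ * b'⁻¹ := by rw [h3]; group
      calc m = (m⁻¹)⁻¹ := (inv_inv m).symm
        _ = b' * b := by rw [h4]; group
    rw [h1]
    exact D.B.mul_mem hb' hb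
  obtain ⟨k, -⟩ := D.rank
  obtain ⟨x, -, hx⟩ := D.exists_not_mem_B k
  obtain ⟨b, hb, b', hb', h⟩ := hcon x
  apply hx
  rw [h]
  exact D.B.mul_mem (D.B.mul_mem (D.B.mul_mem hm hb) (D.B.inv_mem hm)) hb'

end BN43
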