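import Pool.Agent.Lib.MP_43150e_al.BN.Pgl

/-! # Subgroups of `PGL_2(F)` normalised by `PSL_2(F)` -/

set_option autoImplicit false

namespace BN43

open Matrix

/-- In a field with more than `59` elements there is `v ≠ 0` with `v ^ 4 ≠ 1`. -/
theorem pgln_exists (F : Type*) [Field F] [Fintype F] (hq : 59 < Fintype.card F) :
    ∃ v : F, v ≠ 0 ∧ v ^ 4 ≠ 1 := by
  classical
  by_contra hcon
  push Not at hcon
  have h0 : (Polynomial.X ^ 5 - Polynomial.X : Polynomial F) = 0 := by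
    refine Polynomial.eq_zero_of_natDegree_lt_card_of_eval_eq_zero' _ (Finset.univ : Finset F)
      (fun v _ => ?_) ?_
    · rw [Polynomial.eval_sub, Polynomial.eval_pow, Polynomial.eval_X]
      rcases eq_or_ne v 0 with h | h
      · rw [h]; ring
      · have h4 := hcon v h
        have h5 : v ^ 5 = v ^ 4 * v := by ring
        rw [h5, h4, one_mul, sub_self]
    · rw [Finset.card_univ]
      refine lt_of_le_of_lt ?_ hq
      refine le_trans (Polynomial.natDegree_sub_le _ _) ?_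
      rw [Polynomial.natDegree_X_pow, Polynomial.natDegree_X]
      norm_num
  have h1 : (Polynomial.X ^ 5 - Polynomial.X : Polynomial F).coeff 5 = 0 := by
    rw [h0, Polynomial.coeff_zero]
  rw [Polynomial.coeff_sub, Polynomial.coeff_X_pow, Polynomial.coeff_X] at h1
  simp at h1

/-- the class of a special linear matrix with given entries -/
theorem pgln_toPGL {F : Type*} [Field F] (s : SpecialLinearGroup (Fin 2) F) :
    s.toPGL = ProjGenLinGroup.mk (SpecialLinearGroup.toGL s) := rfl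

/-- the lower left entry decides whether a class is upper triangular -/
theorem pgln_isUp {F : Type*} [Field F] (g : GeneralLinearGroup (Fin 2) F)
    (h : IsUp (ProjGenLinGroup.mk g)) : (g : Matrix (Fin 2) (Fin 2) F) 1 0 = 0 := by
  obtain ⟨g', hg', hx⟩ := h
  obtain ⟨u, hu, hu'⟩ := pgl_mk_eq hx
  have h1 := hu' 1 0
  rw [hg'] at h1
  exact (mul_eq_zero.mp h1).resolve_right hu

/-- an upper triangular class is one of the form `Ratio` -/
theorem pgln_step3 {F : Type*} [Field F]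
    (L : Subgroup (ProjGenLinGroup (Fin 2) F))
    (hn : ∀ (s : SpecialLinearGroup (Fin 2) F), ∀ x ∈ L, s.toPGL * x * s.toPGL⁻¹ ∈ L)
    (z : ProjGenLinGroup (Fin 2) F) (hz : z ∈ L) (r : F) (hr : Ratio z r) (hr1 : r ≠ 1)
    (c : F) : uni c ∈ L := by
  have hr0 : r - 1 ≠ 0 := sub_ne_zero.mpr hr1
  have hs : ∃ s : SpecialLinearGroup (Fin 2) F, s.toPGL = uni (c / (r - 1)) := by
    refine ⟨⟨!![1, c / (r - 1); 0, 1], ?_⟩, ?_⟩
    · rw [Matrix.det_fin_two_of]
      ring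
    · change ProjGenLinGroup.mk (SpecialLinearGroup.toGL
        (⟨!![1, c / (r - 1); 0, 1], _⟩ : SpecialLinearGroup (Fin 2) F)) = uni (c / (r - 1))
      unfold uni
      congr 1
      apply Units.ext
      rfl
  obtain ⟨s, hs⟩ := hs
  have h1 := hn s z⁻¹ (L.inv_mem hz)
  rw [hs] at h1
  have h2 := L.mul_mem hz h1
  have h3 : z * (uni (c / (r - 1)) * z⁻¹ * (uni (c / (r - 1)))⁻¹) = uni c := by
    have h4 : z * (uni (c / (r - 1)) * z⁻¹ * (uni (c / (r - 1)))⁻¹) =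
        (z * uni (c / (r - 1)) * z⁻¹) * (uni (c / (r - 1)))⁻¹ := by group
    rw [h4, hr.conj, uni_inv, uni_mul]
    congr 1
    field_simp
    ring
  rw [h3] at h2
  exact h2

/-- the commutator with a diagonal matrix -/
theorem pgln_step2 {F : Type*} [Field F]
    (L : Subgroup (ProjGenLinGroup (Fin 2) F))
    (hn : ∀ (s : SpecialLinearGroup (Fin 2) F), ∀ x ∈ L, s.toPGL * x * s.toPGL⁻¹ ∈ L)
    (g : GeneralLinearGroup (Fin 2) F) (b c d : F)
    (hg : (g : Matrix (Fin 2) (Fin 2) F) = !![0, b; c, d]) (hb : b ≠ 0)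
    (hgL : ProjGenLinGroup.mk g ∈ L) (v : F) (hv : v ≠ 0) :
    ∃ z ∈ L, Ratio z (v ^ 4) := by
  have hH : (!![v⁻¹, 0; 0, v] : Matrix (Fin 2) (Fin 2) F).det = 1 := by
    rw [Matrix.det_fin_two_of, mul_zero, sub_zero, inv_mul_cancel₀ hv]
  have hW : (!![0, -1; 1, 0] : Matrix (Fin 2) (Fin 2) F).det = 1 := by
    rw [Matrix.det_fin_two_of]
    ring
  have hZ : (!![v ^ 4, d * (v ^ 4 - v ^ 2) / b; 0, 1] : Matrix (Fin 2) (Fin 2) F).det ≠ 0 := by
    rw [Matrix.det_fin_two_of, mul_one, mul_zero, sub_zero]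
    exact pow_ne_zero 4 hv
  set H : SpecialLinearGroup (Fin 2) F := ⟨!![v⁻¹, 0; 0, v], hH⟩ with hHdef
  set W : SpecialLinearGroup (Fin 2) F := ⟨!![0, -1; 1, 0], hW⟩ with hWdef
  set Z : GeneralLinearGroup (Fin 2) F := GeneralLinearGroup.mkOfDetNeZero
    !![v ^ 4, d * (v ^ 4 - v ^ 2) / b; 0, 1] hZ with hZdef
  have h1 := hn H _ hgL
  have h2 := L.mul_mem h1 (L.inv_mem hgL)
  have h3 := hn W _ h2
  refine ⟨_, h3, pow_ne_zero 4 hv, d * (v ^ 4 - v ^ 2) / b, Z, rfl, ?_⟩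
  have key : W.toPGL * H.toPGL * ProjGenLinGroup.mk g =
      ProjGenLinGroup.mk Z * W.toPGL * ProjGenLinGroup.mk g * H.toPGL := by
    have e1 : W.toPGL * H.toPGL * ProjGenLinGroup.mk g = ProjGenLinGroup.mk
        (SpecialLinearGroup.toGL W * SpecialLinearGroup.toGL H * g) := by
      rw [map_mul ProjGenLinGroup.mk, map_mul ProjGenLinGroup.mk]
      rfl
    have e2 : ProjGenLinGroup.mk Z * W.toPGL * ProjGenLinGroup.mk g * H.toPGL =
        ProjGenLinGroup.mk
          (Z * SpecialLinearGroup.toGL W * g * SpecialLinearGroup.toGL H) := by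
      rw [map_mul ProjGenLinGroup.mk, map_mul ProjGenLinGroup.mk, map_mul ProjGenLinGroup.mk]
      rfl
    rw [e1, e2]
    refine pgl_mk_eq_of (v ^ 2) (pow_ne_zero 2 hv) fun i j => ?_
    rw [Units.val_mul, Units.val_mul, Units.val_mul, Units.val_mul, Units.val_mul, hg]
    change ((!![0, -1; 1, 0] * !![v⁻¹, 0; 0, v] * !![0, b; c, d] :
        Matrix (Fin 2) (Fin 2) F) i j) * v ^ 2 =
      ((!![v ^ 4, d * (v ^ 4 - v ^ 2) / b; 0, 1] * !![0, -1; 1, 0] * !![0, b; c, d] *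
        !![v⁻¹, 0; 0, v] : Matrix (Fin 2) (Fin 2) F) i j)
    rw [Matrix.mul_fin_two, Matrix.mul_fin_two, Matrix.mul_fin_two, Matrix.mul_fin_two,
      Matrix.mul_fin_two]
    fin_cases i <;> fin_cases j <;> simp <;> field_simp <;> ring
  have h4 : W.toPGL * (H.toPGL * ProjGenLinGroup.mk g * H.toPGL⁻¹ *
      (ProjGenLinGroup.mk g)⁻¹) * W.toPGL⁻¹ =
      (W.toPGL * H.toPGL * ProjGenLinGroup.mk g) * H.toPGL⁻¹ * (ProjGenLinGroup.mk g)⁻¹ *
        W.toPGL⁻¹ := by group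
  rw [h4, key]
  group

/-- A subgroup of `PGL_2(F)`, `|F| > 59`, normalised by `PSL_2(F)` and not contained in the group
of upper triangular classes contains all `uni c`. -/
theorem pgl_normal {F : Type*} [Field F] [Fintype F] (hq : 59 < Fintype.card F)
    (L : Subgroup (ProjGenLinGroup (Fin 2) F))
    (hn : ∀ (s : SpecialLinearGroup (Fin 2) F), ∀ x ∈ L, s.toPGL * x * s.toPGL⁻¹ ∈ L)
    (hx : ∃ x ∈ L, ¬ IsUp x) : ∀ c : F, uni c ∈ L := by
  obtain ⟨x, hxL, hxn⟩ := hx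
  obtain ⟨g, rfl⟩ := ProjGenLinGroup.mk_surjective x
  obtain ⟨v, hv0, hv4⟩ := pgln_exists F hq
  have hc : (g : Matrix (Fin 2) (Fin 2) F) 1 0 ≠ 0 := fun h => hxn ⟨g, h, rfl⟩
  have hdet : (g : Matrix (Fin 2) (Fin 2) F).det ≠ 0 := by
    have h1 : IsUnit (g : Matrix (Fin 2) (Fin 2) F).det :=
      (Matrix.isUnit_iff_isUnit_det _).mp g.isUnit
    exact h1.ne_zero
  rw [Matrix.det_fin_two] at hdet
  obtain ⟨a, ha⟩ : ∃ a, a = (g : Matrix (Fin 2) (Fin 2) F) 0 0 := ⟨_, rfl⟩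
  obtain ⟨b, hb⟩ : ∃ b, b = (g : Matrix (Fin 2) (Fin 2) F) 0 1 := ⟨_, rfl⟩
  obtain ⟨c, hcc⟩ : ∃ c, c = (g : Matrix (Fin 2) (Fin 2) F) 1 0 := ⟨_, rfl⟩
  obtain ⟨d, hd⟩ : ∃ d, d = (g : Matrix (Fin 2) (Fin 2) F) 1 1 := ⟨_, rfl⟩
  have hg : (g : Matrix (Fin 2) (Fin 2) F) = !![a, b; c, d] := by
    ext i j
    fin_cases i <;> fin_cases j <;> simp [ha, hb, hcc, hd]
  rw [← ha, ← hb, ← hcc, ← hd] at hdet
  rw [← hcc] at hc
  have hS : (!![1, -(a / c); 0, 1] : Matrix (Fin 2) (Fin 2) F).det = 1 := by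
    rw [Matrix.det_fin_two_of]
    ring
  have hb' : b - a * d / c ≠ 0 := by
    intro h
    apply hdet
    field_simp at h
    linear_combination -h
  have hY : (!![0, b - a * d / c; c, d + a] : Matrix (Fin 2) (Fin 2) F).det ≠ 0 := by
    rw [Matrix.det_fin_two_of, zero_mul, zero_sub]
    exact neg_ne_zero.mpr (mul_ne_zero hb' hc)
  set S : SpecialLinearGroup (Fin 2) F := ⟨!![1, -(a / c); 0, 1], hS⟩ with hSdef
  set Y : GeneralLinearGroup (Fin 2) F := GeneralLinearGroup.mkOfDetNeZero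
    !![0, b - a * d / c; c, d + a] hY with hYdef
  have h1 := hn S _ hxL
  have h2 : S.toPGL * ProjGenLinGroup.mk g * S.toPGL⁻¹ = ProjGenLinGroup.mk Y := by
    rw [mul_inv_eq_iff_eq_mul, pgln_toPGL, ← map_mul, ← map_mul]
    congr 1
    apply Units.ext
    rw [Units.val_mul, Units.val_mul, hg]
    change (!![1, -(a / c); 0, 1] * !![a, b; c, d] : Matrix (Fin 2) (Fin 2) F) =
      !![0, b - a * d / c; c, d + a] * !![1, -(a / c); 0, 1]
    rw [Matrix.mul_fin_two, Matrix.mul_fin_two]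
    ext i j
    fin_cases i <;> fin_cases j <;> simp <;> field_simp <;> ring
  rw [h2] at h1
  obtain ⟨z, hz, hzr⟩ := pgln_step2 L hn Y (b - a * d / c) c (d + a) rfl hb' h1 v hv0
  exact pgln_step3 L hn z hz (v ^ 4) hzr hv4

/-- The intersection of all conjugates of the group of upper triangular classes is trivial. -/
theorem pgl_core {F : Type*} [Field F] (x : ProjGenLinGroup (Fin 2) F)
    (hx : ∀ s : SpecialLinearGroup (Fin 2) F, IsUp (s.toPGL * x * s.toPGL⁻¹)) : x = 1 := by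
  obtain ⟨g, rfl⟩ := ProjGenLinGroup.mk_surjective x
  have key : ∀ s : SpecialLinearGroup (Fin 2) F,
      (((s : Matrix (Fin 2) (Fin 2) F) * (g : Matrix (Fin 2) (Fin 2) F)) *
        Matrix.adjugate (s : Matrix (Fin 2) (Fin 2) F)) 1 0 = 0 := by
    intro s
    have h1 := hx s
    have h2 : s.toPGL * ProjGenLinGroup.mk g * s.toPGL⁻¹ =
        ProjGenLinGroup.mk (SpecialLinearGroup.toGL s * g * SpecialLinearGroup.toGL s⁻¹) := by
      rw [map_mul ProjGenLinGroup.mk, map_mul ProjGenLinGroup.mk,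
        map_inv SpecialLinearGroup.toGL, map_inv ProjGenLinGroup.mk]
      rfl
    rw [h2] at h1
    have h3 := pgln_isUp _ h1
    have h4 : ((SpecialLinearGroup.toGL s⁻¹ : GeneralLinearGroup (Fin 2) F) :
        Matrix (Fin 2) (Fin 2) F) = Matrix.adjugate (s : Matrix (Fin 2) (Fin 2) F) :=
      Matrix.SpecialLinearGroup.coe_inv s
    rw [Units.val_mul, Units.val_mul, h4] at h3
    exact h3
  obtain ⟨a, ha⟩ : ∃ a, a = (g : Matrix (Fin 2) (Fin 2) F) 0 0 := ⟨_, rfl⟩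
  obtain ⟨b, hb⟩ : ∃ b, b = (g : Matrix (Fin 2) (Fin 2) F) 0 1 := ⟨_, rfl⟩
  obtain ⟨c, hcc⟩ : ∃ c, c = (g : Matrix (Fin 2) (Fin 2) F) 1 0 := ⟨_, rfl⟩
  obtain ⟨d, hd⟩ : ∃ d, d = (g : Matrix (Fin 2) (Fin 2) F) 1 1 := ⟨_, rfl⟩
  have hg : (g : Matrix (Fin 2) (Fin 2) F) = !![a, b; c, d] := by
    ext i j
    fin_cases i <;> fin_cases j <;> simp [ha, hb, hcc, hd]
  have key2 : ∀ p q r t : F, p * t - q * r = 1 →
      (r * a + t * c) * t - (r * b + t * d) * r = 0 := by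
    intro p q r t hpt
    have h1 := key ⟨!![p, q; r, t], by rw [Matrix.det_fin_two_of]; exact hpt⟩
    rw [hg] at h1
    change ((!![p, q; r, t] * !![a, b; c, d]) *
      Matrix.adjugate (!![p, q; r, t] : Matrix (Fin 2) (Fin 2) F)) 1 0 = 0 at h1
    rw [Matrix.adjugate_fin_two_of, Matrix.mul_fin_two, Matrix.mul_fin_two] at h1
    simp at h1
    linear_combination h1
  have h1 := key2 1 0 0 1 (by ring)
  have h2 := key2 0 (-1) 1 0 (by ring)
  have h3 := key2 1 0 1 1 (by ring)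
  have hc0 : c = 0 := by linear_combination h1
  have hb0 : b = 0 := by linear_combination -h2
  have had : a = d := by linear_combination h3 - hc0 + hb0
  have hdet : (g : Matrix (Fin 2) (Fin 2) F).det ≠ 0 := by
    have h1 : IsUnit (g : Matrix (Fin 2) (Fin 2) F).det :=
      (Matrix.isUnit_iff_isUnit_det _).mp g.isUnit
    exact h1.ne_zero
  rw [hg, Matrix.det_fin_two_of, hc0, mul_zero, sub_zero, had] at hdet
  have hd0 : d ≠ 0 := left_ne_zero_of_mul hdet
  rw [← ProjGenLinGroup.mk_one]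
  refine pgl_mk_eq_of d⁻¹ (inv_ne_zero hd0) fun i j => ?_
  rw [hg, hc0, hb0, had, Units.val_one]
  fin_cases i <;> fin_cases j <;> simp [hd0]

end BN43
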