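import Pool.Agent.Lib.MP_43150e_al.BN.Aut
import Pool.Agent.Lib.MP_43150e_al.BN.PglN

/-! # Automorphisms permute the parabolic subgroups, up to one inner automorphism -/

set_option autoImplicit false

namespace BN43

variable {T : Type} [Group T] (D : Datum T)

/-- The kernel of `π i` is the intersection of the conjugates of `B`. -/
private theorem autP_ker (i : D.ι) (x : T) (hx : x ∈ D.P i) :
    Val (D.π i) x 1 ↔ ∀ y ∈ D.P i, y * x * y⁻¹ ∈ D.B := by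
  constructor
  · intro h y hy
    obtain ⟨Y, hY⟩ := exists_val (f := D.π i) hy
    have h1 := (hY.mul h).mul hY.inv
    rw [mul_one, mul_inv_cancel] at h1
    have h2 : IsUp (1 : Matrix.ProjGenLinGroup (Fin 2) (D.F i)) := by
      rw [isUp_iff]
      refine ⟨1, ?_⟩
      rw [← uni_zero]
      exact ratio_uni 0
    exact (D.val_mem_B h1).1 h2
  · intro h
    obtain ⟨X, hX⟩ := exists_val (f := D.π i) hx
    have h1 : X = 1 := by
      apply pgl_core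
      intro s
      obtain ⟨y, hy⟩ := D.sl_sur i s
      exact (D.val_mem_B ((hy.mul hX).mul hy.inv)).2 (h y hy.mem)
    rwa [h1] at hX

/-- The `P i` are different. -/
private theorem autP_inj {i k : D.ι} (h : D.P i = D.P k) : i = k := by
  by_contra hne
  obtain ⟨x, hx, hni, c, hc⟩ := D.cowt i k (Ne.symm hne)
  have hle : (⨆ k, D.B ⊓ conjGen (D.P k) D.U) ≤ D.B := iSup_le fun k => inf_le_left
  have hxB : x ∈ D.B := hle hx
  obtain ⟨u, hu, huc⟩ := D.uni_sur k c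
  have h1 := huc.inv.mul hc
  rw [inv_mul_cancel] at h1
  have hmem : u⁻¹ * x ∈ D.B := D.B.mul_mem (D.B.inv_mem (D.U_le hu)) hxB
  have h2 : Val (D.π i) (u⁻¹ * x) 1 := by
    rw [autP_ker D i _ (D.B_le i hmem)]
    intro y hy
    rw [h] at hy
    exact (autP_ker D k _ (D.B_le k hmem)).1 h1 y hy
  obtain ⟨c', hc'⟩ := D.uni_of i u hu
  have h3 := hc'.mul h2
  rw [mul_one, mul_inv_cancel_left] at h3
  exact hni ⟨c', h3⟩

/-- `β` up to conjugation. -/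
private theorem autP_conj {T : Type} [Group T] (β : T ≃* T) (m : T) : ∃ γ : T ≃* T,
    (∀ h, γ h = β (m * h * m⁻¹)) ∧ ∀ g, β g = γ (m⁻¹ * g * m) := by
  refine ⟨(MulAut.conj m).trans β, fun _ => rfl, fun g => ?_⟩
  have h1 : ((MulAut.conj m).trans β) (m⁻¹ * g * m) = β (m * (m⁻¹ * g * m) * m⁻¹) := rfl
  rw [h1]
  congr 1
  group

private theorem autP_conj_iff {T : Type} [Group T] {β γ : T ≃* T} {m : T}
    (hγ : ∀ g, β g = γ (m⁻¹ * g * m)) {A B : Subgroup T}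
    (h : ∀ g, β g ∈ A ↔ m⁻¹ * g * m ∈ B) (y : T) : γ y ∈ A ↔ y ∈ B := by
  have h1 := h (m * y * m⁻¹)
  rw [hγ] at h1
  have h2 : m⁻¹ * (m * y * m⁻¹) * m = y := by group
  rwa [h2] at h1

/-- One element `m` works for `B` and for all the `P k`. -/
theorem Datum.aut_P [Finite T] (β : T ≃* T) : ∃ (m : T) (σ : Equiv.Perm D.ι),
    (∀ g, β g ∈ D.B ↔ m⁻¹ * g * m ∈ D.B) ∧
    ∀ k g, β g ∈ D.P k ↔ m⁻¹ * g * m ∈ D.P (σ k) := by
  obtain ⟨m, -, hB⟩ := D.aut_B β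
  obtain ⟨γ, hγ, hγβ⟩ := autP_conj β m
  have hγB : ∀ h, γ h ∈ D.B ↔ h ∈ D.B := autP_conj_iff hγβ hB
  have hex : ∀ k, ∃ k', ∀ h, γ h ∈ D.P k ↔ h ∈ D.P k' := by
    intro k
    obtain ⟨x, hxP, hxB⟩ := D.exists_not_mem_B k
    have hlt : D.B < (D.P k).comap γ.toMonoidHom := by
      refine lt_of_le_of_ne (fun h hh => D.B_le k ((hγB h).2 hh)) fun heq => ?_
      have h1 : γ.symm x ∈ (D.P k).comap γ.toMonoidHom := by
        change γ (γ.symm x) ∈ D.P k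
        rw [MulEquiv.apply_symm_apply]
        exact hxP
      rw [← heq, ← hγB, MulEquiv.apply_symm_apply] at h1
      exact hxB h1
    obtain ⟨k', hk'⟩ := D.minp _ hlt
    have hP1 : ∀ h ∈ D.P k', γ h ∈ D.P k := fun h hh => hk' hh
    obtain ⟨y, hyP, hyB⟩ := D.exists_not_mem_B k'
    have hP2 : ∀ h ∈ D.P k, γ.symm h ∈ D.P k' := by
      have h1 := D.max_B k ((D.P k').comap γ.symm.toMonoidHom) (fun h hh => by
        refine D.B_le k' ?_
        change γ.symm h ∈ D.B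
        rw [← hγB, MulEquiv.apply_symm_apply]
        exact hh) (γ y) (by
          change γ.symm (γ y) ∈ D.P k'
          rw [MulEquiv.symm_apply_apply]
          exact hyP) (hP1 y hyP) (fun h => hyB ((hγB y).1 h))
      exact fun h hh => h1 hh
    refine ⟨k', fun h => ⟨fun hh => ?_, hP1 h⟩⟩
    have h1 := hP2 _ hh
    rwa [MulEquiv.symm_apply_apply] at h1
  choose σ hσ using hex
  have hinj : Function.Injective σ := by
    intro a b hab
    apply autP_inj D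
    ext x
    have h1 := hσ a (γ.symm x)
    have h2 := hσ b (γ.symm x)
    rw [MulEquiv.apply_symm_apply] at h1 h2
    rw [h1, h2, hab]
  refine ⟨m, Equiv.ofBijective σ (Finite.injective_iff_bijective.1 hinj), hB, fun k g => ?_⟩
  rw [hγβ, hσ]
  rfl

/-- An overgroup of `B` contains every element which conjugates `B` into it. -/
theorem Datum.mem_of_conj [Finite T] (K : Subgroup T) (hK : D.B ≤ K) (g : T)
    (h : ∀ b ∈ D.B, g⁻¹ * b * g ∈ K) : g ∈ K := by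
  have hp : Fact D.p.Prime := ⟨D.prime⟩
  have hUK : D.U ≤ K := D.U_le.trans hK
  -- the Sylow subgroup `U` of `K`
  have hmax : ∀ {Q : Subgroup K}, IsPGroup D.p Q → D.U.subgroupOf K ≤ Q →
      Q = D.U.subgroupOf K := by
    intro Q hQ hle
    have h1 : IsPGroup D.p (Q.map K.subtype) := hQ.map _
    obtain ⟨t, ht⟩ := D.sylow _ h1
    have hle' : D.U ≤ Q.map K.subtype := by
      intro u hu
      exact ⟨⟨u, hUK hu⟩, hle (Subgroup.mem_subgroupOf.2 hu), rfl⟩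
    have hcard : Nat.card (Q.map K.subtype) ≤ Nat.card D.U := by
      refine Nat.card_le_card_of_injective
        (fun x : Q.map K.subtype => (⟨t⁻¹ * x * t, ht x x.2⟩ : D.U)) ?_
      intro x y hxy
      have h2 : t⁻¹ * (x : T) * t = t⁻¹ * y * t := congrArg Subtype.val hxy
      exact Subtype.ext (mul_left_cancel (mul_right_cancel h2))
    have heq : D.U = Q.map K.subtype := Subgroup.eq_of_le_of_card_ge hle' hcard
    refine le_antisymm ?_ hle
    intro x hx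
    rw [Subgroup.mem_subgroupOf, heq]
    exact ⟨x, hx, rfl⟩
  have hPG : IsPGroup D.p (D.U.subgroupOf K) := by
    rintro ⟨x, hx⟩
    obtain ⟨j, hj⟩ := D.pgroup ⟨x, Subgroup.mem_subgroupOf.1 hx⟩
    refine ⟨j, Subtype.ext (Subtype.ext ?_)⟩
    have h1 : ((x : K) : T) ^ D.p ^ j = 1 := congrArg Subtype.val hj
    exact h1
  let P₀ : Sylow D.p K := ⟨D.U.subgroupOf K, hPG, hmax⟩
  -- the conjugate
  have hVK : ∀ u ∈ D.U, g⁻¹ * u * g ∈ K := fun u hu => h u (D.U_le hu)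
  have hV : IsPGroup D.p ((D.U.map (MulAut.conj g⁻¹).toMonoidHom).subgroupOf K) := by
    rintro ⟨x, hx⟩
    obtain ⟨u, hu, hux⟩ := Subgroup.mem_subgroupOf.1 hx
    obtain ⟨j, hj⟩ := D.pgroup ⟨u, hu⟩
    refine ⟨j, Subtype.ext (Subtype.ext ?_)⟩
    have h1 : (u : T) ^ D.p ^ j = 1 := congrArg Subtype.val hj
    change ((x : K) : T) ^ D.p ^ j = 1
    rw [← hux]
    change ((MulAut.conj g⁻¹) u) ^ D.p ^ j = 1
    rw [← map_pow, h1, map_one]
  obtain ⟨Q, hQ⟩ := hV.exists_le_sylow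
  obtain ⟨x, hx⟩ := MulAction.exists_smul_eq K P₀ Q
  have hconj : ∀ u ∈ D.U, (x : T)⁻¹ * (g⁻¹ * u * g) * x ∈ D.U := by
    intro u hu
    have h1 : (⟨g⁻¹ * u * g, hVK u hu⟩ : K) ∈ (D.U.map (MulAut.conj g⁻¹).toMonoidHom).subgroupOf K := by
      rw [Subgroup.mem_subgroupOf]
      refine ⟨u, hu, ?_⟩
      change g⁻¹ * u * g⁻¹⁻¹ = g⁻¹ * u * g
      rw [inv_inv]
    have h2 : (⟨g⁻¹ * u * g, hVK u hu⟩ : K) ∈ (Q : Subgroup K) := hQ h1
    rw [← hx] at h2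
    obtain ⟨y, hy, hyx⟩ := h2
    have h3 : (x : T) * (y : T) * (x : T)⁻¹ = g⁻¹ * u * g := congrArg Subtype.val hyx
    have hy' : (y : T) ∈ D.U := Subgroup.mem_subgroupOf.1 hy
    rw [← h3]
    have h4 : (x : T)⁻¹ * ((x : T) * (y : T) * (x : T)⁻¹) * x = y := by group
    rw [h4]
    exact hy'
  have hB : (g * x)⁻¹ ∈ D.B := by
    rw [← D.norm]
    intro u hu
    have h1 := hconj u hu
    have h2 : (g * (x : T))⁻¹ * u * (g * (x : T))⁻¹⁻¹ = (x : T)⁻¹ * (g⁻¹ * u * g) * x := by group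
    rwa [h2]
  have h1 : g * x ∈ K := by
    have h2 := K.inv_mem (hK hB)
    rwa [inv_inv] at h2
  have h2 := K.mul_mem h1 (K.inv_mem x.2)
  rwa [mul_inv_cancel_right] at h2

/-- The type of an overgroup of `B`, invariant up to conjugation, is invariant. -/
theorem Datum.aut_type [Finite T] (β : T ≃* T) (m : T) (σ : Equiv.Perm D.ι)
    (hB : ∀ g, β g ∈ D.B ↔ m⁻¹ * g * m ∈ D.B)
    (hP : ∀ k g, β g ∈ D.P k ↔ m⁻¹ * g * m ∈ D.P (σ k))
    (K : Subgroup T) (hK : D.B ≤ K) (s : T) (hs : ∀ g, β g ∈ K ↔ s⁻¹ * g * s ∈ K) :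
    s⁻¹ * m ∈ K ∧ ∀ k, D.P k ≤ K ↔ D.P (σ k) ≤ K := by
  have hr : s⁻¹ * m ∈ K := by
    have h1 : (s⁻¹ * m)⁻¹ ∈ K := by
      refine D.mem_of_conj K hK _ fun b hb => ?_
      have h2 : β (m * b * m⁻¹) ∈ D.B := by
        rw [hB]
        have h3 : m⁻¹ * (m * b * m⁻¹) * m = b := by group
        rwa [h3]
      have h3 := (hs _).1 (hK h2)
      have h4 : (s⁻¹ * m)⁻¹⁻¹ * b * (s⁻¹ * m)⁻¹ = s⁻¹ * (m * b * m⁻¹) * s := by group
      rwa [h4]
    have h2 := K.inv_mem h1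
    rwa [inv_inv] at h2
  refine ⟨hr, ?_⟩
  have hK' : ∀ g, β g ∈ K ↔ m⁻¹ * g * m ∈ K := by
    intro g
    rw [hs]
    have h1 : m⁻¹ * g * m = (s⁻¹ * m)⁻¹ * (s⁻¹ * g * s) * (s⁻¹ * m) := by group
    rw [h1]
    constructor
    · intro h2
      exact K.mul_mem (K.mul_mem (K.inv_mem hr) h2) hr
    · intro h2
      have h3 := K.mul_mem (K.mul_mem hr h2) (K.inv_mem hr)
      have h4 : s⁻¹ * m * ((s⁻¹ * m)⁻¹ * (s⁻¹ * g * s) * (s⁻¹ * m)) * (s⁻¹ * m)⁻¹ =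
          s⁻¹ * g * s := by group
      rwa [h4] at h3
  intro k
  constructor
  · intro hk y hy
    have h1 : β (m * y * m⁻¹) ∈ D.P k := by
      rw [hP]
      have h3 : m⁻¹ * (m * y * m⁻¹) * m = y := by group
      rwa [h3]
    have h2 := (hK' _).1 (hk h1)
    have h3 : m⁻¹ * (m * y * m⁻¹) * m = y := by group
    rwa [h3] at h2
  · intro hk x hx
    obtain ⟨g, rfl⟩ := β.surjective x
    exact (hK' g).2 (hk ((hP k g).1 hx))

/-- The maximal parabolic subgroups `M c`, characterised by: an overgroup of `B` lies in `M c` iff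
it does not contain `P c`. -/
theorem Datum.aut_max [Finite T] (β : T ≃* T) (m : T) (σ : Equiv.Perm D.ι)
    (hB : ∀ g, β g ∈ D.B ↔ m⁻¹ * g * m ∈ D.B)
    (hP : ∀ k g, β g ∈ D.P k ↔ m⁻¹ * g * m ∈ D.P (σ k))
    (M : D.ι → Subgroup T) (hMB : ∀ c, D.B ≤ M c)
    (hM : ∀ c (K : Subgroup T), D.B ≤ K → (K ≤ M c ↔ ¬ D.P c ≤ K)) :
    ∀ c g, β g ∈ M c ↔ m⁻¹ * g * m ∈ M (σ c) := by
  obtain ⟨γ, hγ, hγβ⟩ := autP_conj β m
  have hγB : ∀ h, γ h ∈ D.B ↔ h ∈ D.B := autP_conj_iff hγβ hB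
  have hγP : ∀ k h, γ h ∈ D.P k ↔ h ∈ D.P (σ k) := fun k => autP_conj_iff hγβ (hP k)
  have hnot : ∀ c, ¬ D.P c ≤ M c := fun c => (hM c (M c) (hMB c)).1 le_rfl
  intro c g
  have h1 : (M c).comap γ.toMonoidHom ≤ M (σ c) := by
    refine (hM (σ c) ((M c).comap γ.toMonoidHom) fun b hb => hMB c ((hγB b).2 hb)).2 ?_
    intro hle
    apply hnot c
    intro x hx
    obtain ⟨y, rfl⟩ := γ.surjective x
    exact hle ((hγP c y).1 hx)
  have h2 : (M (σ c)).comap γ.symm.toMonoidHom ≤ M c := by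
    refine (hM c ((M (σ c)).comap γ.symm.toMonoidHom) fun b hb => hMB (σ c) (by
      change γ.symm b ∈ D.B
      rw [← hγB, MulEquiv.apply_symm_apply]
      exact hb)).2 ?_
    intro hle
    apply hnot (σ c)
    intro y hy
    have h3 : γ.symm (γ y) ∈ M (σ c) := hle ((hγP c y).2 hy)
    rwa [MulEquiv.symm_apply_apply] at h3
  rw [hγβ]
  refine ⟨fun h => h1 h, fun h => h2 ?_⟩
  change γ.symm (γ (m⁻¹ * g * m)) ∈ M (σ c)
  rwa [MulEquiv.symm_apply_apply]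

/-- The relation `P a P b = P b P a` is invariant. -/
theorem Datum.aut_comm [Finite T] (β : T ≃* T) (m : T) (σ : Equiv.Perm D.ι)
    (hP : ∀ k g, β g ∈ D.P k ↔ m⁻¹ * g * m ∈ D.P (σ k)) (a b : D.ι) :
    (∀ x ∈ D.P a, ∀ y ∈ D.P b, ∃ y' ∈ D.P b, ∃ x' ∈ D.P a, x * y = y' * x') ↔
    (∀ x ∈ D.P (σ a), ∀ y ∈ D.P (σ b), ∃ y' ∈ D.P (σ b), ∃ x' ∈ D.P (σ a), x * y = y' * x') := by
  obtain ⟨γ, hγ, hγβ⟩ := autP_conj β m
  have hγP : ∀ k h, γ h ∈ D.P k ↔ h ∈ D.P (σ k) := fun k => autP_conj_iff hγβ (hP k)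
  constructor
  · intro h x hx y hy
    obtain ⟨y', hy', x', hx', h1⟩ := h (γ x) ((hγP a x).2 hx) (γ y) ((hγP b y).2 hy)
    refine ⟨γ.symm y', ?_, γ.symm x', ?_, ?_⟩
    · rw [← hγP, MulEquiv.apply_symm_apply]
      exact hy'
    · rw [← hγP, MulEquiv.apply_symm_apply]
      exact hx'
    · rw [← map_mul, ← h1, ← map_mul, MulEquiv.symm_apply_apply]
  · intro h x hx y hy
    obtain ⟨x, rfl⟩ := γ.surjective x
    obtain ⟨y, rfl⟩ := γ.surjective y
    obtain ⟨y', hy', x', hx', h1⟩ := h x ((hγP a x).1 hx) y ((hγP b y).1 hy)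
    refine ⟨γ y', (hγP b y').2 hy', γ x', (hγP a x').2 hx', ?_⟩
    rw [← map_mul, ← map_mul, h1]

end BN43
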