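import Pool.Agent.Lib.MP_43150e_al.BN.Basic
import Pool.Agent.Lib.MP_43150e_al.Lin.CharEx

/-! # Characters of `B / U` -/

set_option autoImplicit false

namespace BN43

variable {T : Type} [Group T] (D : Datum T)

/-- If `(E ∩ B) U ≠ B` there is a nontrivial character of prime order of `B`, trivial on `U` and
on `E ∩ B`. -/
theorem Datum.exists_char [Finite T] (E : Subgroup T)
    (hE : ∃ b ∈ D.B, ∀ e ∈ E, e ∈ D.B → b⁻¹ * e ∉ D.U) :
    ∃ (l : ℕ) (_ : Fact l.Prime) (ψ : D.B →* Multiplicative (ZMod l)),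
      (∀ u : D.B, (u : T) ∈ D.U → ψ u = 1) ∧ (∀ e : D.B, (e : T) ∈ E → ψ e = 1) ∧
      ∃ b, ψ b ≠ 1 := by
  have hn : (D.U.subgroupOf D.B).Normal := by
    refine ⟨fun u hu b => ?_⟩
    rw [Subgroup.mem_subgroupOf] at hu ⊢
    exact D.conj_U b.2 hu
  have hc : ∀ x y : D.B ⧸ D.U.subgroupOf D.B, x * y = y * x := by
    intro x y
    obtain ⟨a, rfl⟩ := QuotientGroup.mk'_surjective _ x
    obtain ⟨b, rfl⟩ := QuotientGroup.mk'_surjective _ y
    rw [← map_mul, ← map_mul, QuotientGroup.mk'_apply, QuotientGroup.mk'_apply, QuotientGroup.eq,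
      Subgroup.mem_subgroupOf]
    have h1 := D.comm_mod (D.B.inv_mem b.2) (D.B.inv_mem a.2)
    have h2 : (((a * b)⁻¹ * (b * a) : D.B) : T) = (b : T)⁻¹ * (a : T)⁻¹ * (b : T)⁻¹⁻¹ * (a : T)⁻¹⁻¹ := by
      push_cast
      group
    rw [h2]
    exact h1
  let _ : CommGroup (D.B ⧸ D.U.subgroupOf D.B) :=
    { (inferInstance : Group (D.B ⧸ D.U.subgroupOf D.B)) with mul_comm := hc }
  obtain ⟨b, hb, hbE⟩ := hE
  have hD : (E.subgroupOf D.B).map (QuotientGroup.mk' (D.U.subgroupOf D.B)) ≠ ⊤ := by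
    intro h
    have h1 : QuotientGroup.mk' (D.U.subgroupOf D.B) ⟨b, hb⟩ ∈
        (E.subgroupOf D.B).map (QuotientGroup.mk' (D.U.subgroupOf D.B)) := by
      rw [h]
      exact Subgroup.mem_top _
    obtain ⟨e, he, hbe⟩ := Subgroup.mem_map.1 h1
    rw [Subgroup.mem_subgroupOf] at he
    rw [QuotientGroup.mk'_apply, QuotientGroup.mk'_apply, eq_comm, QuotientGroup.eq,
      Subgroup.mem_subgroupOf] at hbe
    exact hbE e he e.2 hbe
  obtain ⟨l, hl, χ, hχ, a, ha⟩ := Lin43.exists_char _ hD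
  refine ⟨l, hl, χ.comp (QuotientGroup.mk' (D.U.subgroupOf D.B)), ?_, ?_, ?_⟩
  · intro u hu
    rw [MonoidHom.comp_apply, QuotientGroup.mk'_apply,
      (QuotientGroup.eq_one_iff u).2 (Subgroup.mem_subgroupOf.2 hu)]
    exact map_one χ
  · intro e he
    rw [MonoidHom.comp_apply]
    exact hχ _ (Subgroup.mem_map.2 ⟨e, Subgroup.mem_subgroupOf.2 he, rfl⟩)
  · obtain ⟨c, rfl⟩ := QuotientGroup.mk'_surjective _ a
    exact ⟨c, ha⟩

/-- `B ≠ U`: some element of `B` has a nontrivial ratio. -/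
theorem Datum.exists_tor : ∃ b ∈ D.B, b ∉ D.U := by
  obtain ⟨k, b, hb, hbk⟩ := D.rank
  refine ⟨b, hb, fun hU => hbk ?_⟩
  have h : b ∈ conjGen (D.P k) D.U :=
    Subgroup.subset_closure ⟨1, (D.P k).one_mem, b, hU, by simp⟩
  exact Subgroup.pow_mem _ h _

end BN43
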