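import Pool.Agent.Lib.MP_43150e_al.Crit
import Pool.Agent.Lib.MP_43150e_al.BN.Aut
import Pool.Agent.Lib.MP_43150e_al.BN.Char

/-! # The first alternative -/

set_option autoImplicit false

namespace BN43

open Spr43

variable {T : Type} [Group T] (D : Datum T)

/-- The point stabiliser in `T`. -/
def stab {Γ Ω : Type*} [Group Γ] [MulAction Γ Ω] (j : T →* Γ) (x : Ω) : Subgroup T :=
  (MulAction.stabilizer Γ x).comap j

theorem mem_stab {Γ Ω : Type*} [Group Γ] [MulAction Γ Ω] (j : T →* Γ) (x : Ω) (t : T) :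
    t ∈ stab j x ↔ j t • x = x := by
  rw [stab, Subgroup.mem_comap, MulAction.mem_stabilizer_iff]

/-- Part B1. -/
theorem Datum.e1 [Finite T] {Γ Ω : Type*} [Group Γ] [MulAction Γ Ω] [Fintype Ω] [DecidableEq Ω]
    (j : T →* Γ) (hj : ∀ g : Γ, ∃ β : T ≃* T, ∀ m, j (β m) = g * j m * g⁻¹)
    (htr : ∀ x y : Ω, ∃ t, j t • x = y) (hsp : IsSpreading Γ Ω) (x : Ω) :
    D.FTrans (stab j x) ∨ D.TFull (stab j x) := by
  by_contra hcon
  rw [not_or] at hcon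
  obtain ⟨hFT, hTF⟩ := hcon
  unfold Datum.TFull at hTF
  push Not at hTF
  obtain ⟨g, b, hb, hk⟩ := hTF
  have hE : ∃ b ∈ D.B, ∀ e ∈ stab j (j g⁻¹ • x), e ∈ D.B → b⁻¹ * e ∉ D.U := by
    refine ⟨b, hb, fun e he heB => ?_⟩
    rw [mem_stab] at he
    have h1 : g * e * g⁻¹ ∈ stab j x := by
      rw [mem_stab, map_mul, map_mul, mul_smul, mul_smul, he, ← mul_smul, ← map_mul,
        mul_inv_cancel, map_one, one_smul]
    have h2 : g⁻¹ * (g * e * g⁻¹) * g = e := by group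
    have h3 := hk _ h1
    rw [h2] at h3
    exact h3 heB
  obtain ⟨l, hl, ψ, hψU, hψE, b₀, hb₀⟩ := D.exists_char (stab j (j g⁻¹ • x)) hE
  refine criterionQ j hj l D.B.subtype ψ D.B (j g⁻¹ • x) ?_ ?_ ?_ hsp
  · intro β
    obtain ⟨m, -, hm⟩ := D.aut_B β
    obtain ⟨h, hh, hmh, hu⟩ := D.covers m b₀ b₀.2
    refine ⟨⟨h, hh⟩, ?_, (hm h).2 hmh⟩
    have h1 : (⟨h, hh⟩ : D.B) = b₀ * (b₀⁻¹ * ⟨h, hh⟩) := by group
    have h2 : ψ (b₀⁻¹ * ⟨h, hh⟩) = 1 := hψU _ hu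
    rw [h1, map_mul, h2, mul_one]
    exact hb₀
  · by_contra hcon
    push Not at hcon
    apply hFT
    intro t
    obtain ⟨h, hh, hhx⟩ := hcon x (j t⁻¹ • x)
    refine ⟨t * h, ?_, ?_⟩
    · rw [mem_stab, map_mul, mul_smul, hhx, ← mul_smul, ← map_mul, mul_inv_cancel, map_one,
        one_smul]
    · have h1 : (t * h)⁻¹ * t = h⁻¹ := by group
      rw [h1]
      exact D.B.inv_mem hh
  · intro h hh
    exact hψE h ((mem_stab j _ _).2 hh)

end BN43
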