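import Pool.Agent.Lib.MP_43150e_al.BN.AutP
import Pool.Agent.Lib.MP_43150e_al.BN.E1

/-! # Automorphisms coming from the normaliser of a transitive action, when `B` fixes a point -/

set_option autoImplicit false

namespace BN43

open Spr43

variable {T : Type} [Group T] (D : Datum T)

theorem Datum.aut_x [Finite T] {Γ Ω : Type*} [Group Γ] [MulAction Γ Ω] (j : T →* Γ)
    (htr : ∀ x y : Ω, ∃ t, j t • x = y) (x : Ω) (hB : ∀ b ∈ D.B, j b • x = x)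
    (g : Γ) (β : T ≃* T) (hβ : ∀ t, j (β t) = g * j t * g⁻¹) :
    ∃ (t : T) (σ : Equiv.Perm D.ι), (∀ y, β y ∈ D.B ↔ t⁻¹ * y * t ∈ D.B) ∧
      (∀ k y, β y ∈ D.P k ↔ t⁻¹ * y * t ∈ D.P (σ k)) ∧
      g⁻¹ • x = j t • x ∧ ∀ k, D.P k ≤ stab j x ↔ D.P (σ k) ≤ stab j x := by
  obtain ⟨m, σ, hB', hP⟩ := D.aut_P β
  obtain ⟨s, hs⟩ := htr x (g⁻¹ • x)
  have hK : D.B ≤ stab j x := fun b hb => (mem_stab j x b).2 (hB b hb)
  have hsK : ∀ y, β y ∈ stab j x ↔ s⁻¹ * y * s ∈ stab j x := by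
    intro y
    rw [mem_stab, mem_stab, hβ, mul_smul, mul_smul, smul_eq_iff_eq_inv_smul, map_mul, map_mul,
      map_inv, mul_smul, mul_smul, hs, inv_smul_eq_iff, hs]
  obtain ⟨h1, h2⟩ := D.aut_type β m σ hB' hP (stab j x) hK s hsK
  refine ⟨m, σ, hB', hP, ?_, h2⟩
  rw [mem_stab, map_mul, map_inv, mul_smul, inv_smul_eq_iff, hs] at h1
  exact h1.symm

end BN43
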