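import Pool.Agent.Lib.MP_43150e_al.BN.Pgl

/-! # First consequences of the axioms -/

set_option autoImplicit false

namespace BN43

open Matrix

/-! ## The relation `Val` -/

section Val

variable {T Q : Type*} [Group T] [Group Q] {P : Subgroup T} {f : P →* Q}

theorem Val.mem {b : T} {x : Q} (h : Val f b x) : b ∈ P := h.1

theorem Val.unique {b : T} {x y : Q} (h : Val f b x) (h' : Val f b y) : x = y := by
  obtain ⟨_, rfl⟩ := h
  obtain ⟨_, rfl⟩ := h'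
  rfl

theorem Val.mul {b c : T} {x y : Q} (h : Val f b x) (h' : Val f c y) : Val f (b * c) (x * y) := by
  obtain ⟨hb, rfl⟩ := h
  obtain ⟨hc, rfl⟩ := h'
  exact ⟨P.mul_mem hb hc, by rw [← map_mul]; rfl⟩

theorem Val.inv {b : T} {x : Q} (h : Val f b x) : Val f b⁻¹ x⁻¹ := by
  obtain ⟨hb, rfl⟩ := h
  exact ⟨P.inv_mem hb, by rw [← map_inv]; rfl⟩

theorem Val.one : Val f 1 1 := ⟨P.one_mem, f.map_one⟩

theorem Val.pow {b : T} {x : Q} (h : Val f b x) (e : ℕ) : Val f (b ^ e) (x ^ e) := by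
  obtain ⟨hb, rfl⟩ := h
  exact ⟨P.pow_mem hb e, by rw [← map_pow]; rfl⟩

theorem exists_val {b : T} (hb : b ∈ P) : ∃ x, Val f b x := ⟨_, hb, rfl⟩

end Val

variable {T : Type} [Group T] (D : Datum T)

/-- The image of `K ∩ P i` in `PGL_2(F i)`. -/
def Datum.img (K : Subgroup T) (i : D.ι) : Subgroup (ProjGenLinGroup (Fin 2) (D.F i)) :=
  (K.subgroupOf (D.P i)).map (D.π i)

theorem Datum.mem_img (K : Subgroup T) (i : D.ι) (x : ProjGenLinGroup (Fin 2) (D.F i)) :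
    x ∈ D.img K i ↔ ∃ k ∈ K, Val (D.π i) k x := by
  unfold Datum.img
  rw [Subgroup.mem_map]
  constructor
  · rintro ⟨⟨k, hk⟩, hkK, rfl⟩
    exact ⟨k, Subgroup.mem_subgroupOf.1 hkK, hk, rfl⟩
  · rintro ⟨k, hkK, hk, rfl⟩
    exact ⟨⟨k, hk⟩, Subgroup.mem_subgroupOf.2 hkK, rfl⟩

theorem Datum.conj_U {b u : T} (hb : b ∈ D.B) (hu : u ∈ D.U) : b * u * b⁻¹ ∈ D.U :=
  (D.norm b).2 hb u hu

theorem Datum.U_le_P (i : D.ι) : D.U ≤ D.P i := D.U_le.trans (D.B_le i)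

theorem Datum.val_mem_B {i : D.ι} {g : T} {x : ProjGenLinGroup (Fin 2) (D.F i)}
    (h : Val (D.π i) g x) : IsUp x ↔ g ∈ D.B := by
  obtain ⟨hg, rfl⟩ := h
  exact D.up_iff i ⟨g, hg⟩

/-- The index `|B : U|` sends `B` into `U`. -/
theorem Datum.pow_relIndex_mem {b : T} (hb : b ∈ D.B) : b ^ (D.U.relIndex D.B) ∈ D.U := by
  have hn : (D.U.subgroupOf D.B).Normal := by
    refine ⟨fun u hu g => ?_⟩
    rw [Subgroup.mem_subgroupOf] at hu ⊢
    exact D.conj_U g.2 hu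
  have h1 := Subgroup.pow_index_mem (H := D.U.subgroupOf D.B) ⟨b, hb⟩
  rw [Subgroup.mem_subgroupOf] at h1
  exact h1

/-- A single exponent, congruent to one modulo `p`, sends `B` into `U`. -/
theorem Datum.ppart [Finite T] : ∃ e : ℕ, (e : ZMod D.p) = 1 ∧ ∀ b ∈ D.B, b ^ e ∈ D.U := by
  have : Fact D.p.Prime := ⟨D.prime⟩
  have h1 : ((D.U.relIndex D.B : ℕ) : ZMod D.p) ≠ 0 := fun h =>
    D.cop ((ZMod.natCast_eq_zero_iff _ _).1 h)
  refine ⟨D.U.relIndex D.B * ((D.U.relIndex D.B : ZMod D.p)⁻¹).val, ?_, fun b hb => ?_⟩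
  · rw [Nat.cast_mul, ZMod.natCast_zmod_val, mul_inv_cancel₀ h1]
  · rw [pow_mul]
    exact D.U.pow_mem (D.pow_relIndex_mem hb) _

/-- Every unipotent image is the image of an element of `U`. -/
theorem Datum.exists_U_of_uni [Finite T] (K : Subgroup T) {k : T} (hk : k ∈ K) {i : D.ι}
    {c : D.F i} (h : Val (D.π i) k (uni c)) : ∃ u ∈ D.U, u ∈ K ∧ Val (D.π i) u (uni c) := by
  obtain ⟨e, he, heU⟩ := D.ppart
  have hkB : k ∈ D.B := (D.val_mem_B h).1 ((isUp_iff _).2 ⟨1, ratio_uni c⟩)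
  refine ⟨k ^ e, heU k hkB, K.pow_mem hk e, ?_⟩
  have h1 : ((e : ℕ) : D.F i) = 1 := by
    have h2 : ((e : ℕ) : ZMod D.p) = ((1 : ℕ) : ZMod D.p) := by rw [he, Nat.cast_one]
    have h3 := (ZMod.natCast_eq_natCast_iff _ _ _).1 h2
    have h4 := (CharP.cast_eq_iff_mod_eq (D.F i) D.p).2 h3
    rw [h4, Nat.cast_one]
  have h2 := h.pow e
  rw [uni_pow, nsmul_eq_mul, h1, one_mul] at h2
  exact h2

/-- The abelian quotient `B / U`. -/
theorem Datum.comm_mod {a b : T} (ha : a ∈ D.B) (hb : b ∈ D.B) :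
    a * b * a⁻¹ * b⁻¹ ∈ D.U := by
  obtain ⟨u, hu, h, hh, rfl⟩ := D.split a ha
  obtain ⟨v, hv, k, hk, rfl⟩ := D.split b hb
  have h1 : h * k = k * h := D.comm h hh k hk
  have h2 : u * h * (v * k) * (u * h)⁻¹ * (v * k)⁻¹
      = u * (h * v * h⁻¹) * (k * u⁻¹ * k⁻¹) * v⁻¹ := by
    have h3 : h * v * k = h * v * h⁻¹ * (k * h) := by
      rw [← h1]
      group
    calc u * h * (v * k) * (u * h)⁻¹ * (v * k)⁻¹
        = u * (h * v * k) * h⁻¹ * u⁻¹ * k⁻¹ * v⁻¹ := by group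
      _ = u * (h * v * h⁻¹ * (k * h)) * h⁻¹ * u⁻¹ * k⁻¹ * v⁻¹ := by rw [h3]
      _ = u * (h * v * h⁻¹) * (k * u⁻¹ * k⁻¹) * v⁻¹ := by group
  rw [h2]
  exact D.U.mul_mem (D.U.mul_mem (D.U.mul_mem hu (D.conj_U hh.1 hv))
    (D.conj_U hk.1 (D.U.inv_mem hu))) (D.U.inv_mem hv)

/-- The elements of `B` of order a power of `p` lie in `U`. -/
theorem Datum.mem_U_of_pow [Finite T] {b : T} (hb : b ∈ D.B) {k : ℕ} (hk : b ^ D.p ^ k = 1) :
    b ∈ D.U := by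
  have h1 : (D.U.relIndex D.B).Coprime (D.p ^ k) :=
    (Nat.Coprime.pow_left k ((Nat.Prime.coprime_iff_not_dvd D.prime).2 D.cop)).symm
  have h2 : (D.U.relIndex D.B).Coprime (orderOf b) :=
    h1.coprime_dvd_right (orderOf_dvd_of_pow_eq_one hk)
  obtain ⟨n, hn⟩ := exists_pow_eq_self_of_coprime h2
  rw [← hn]
  exact D.U.pow_mem (D.pow_relIndex_mem hb) n

/-- `U` is a maximal `p`-subgroup. -/
theorem Datum.eq_of_le [Finite T] (S : Subgroup T) (hS : IsPGroup D.p S) (hle : D.U ≤ S) :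
    S ≤ D.U := by
  have : Fact D.p.Prime := ⟨D.prime⟩
  by_contra hne
  have h1 : NormalizerCondition S := by
    have := hS.isNilpotent
    exact Group.normalizerCondition_of_isNilpotent
  have h2 : D.U.subgroupOf S < ⊤ := by
    rw [lt_top_iff_ne_top]
    intro h
    exact hne (Subgroup.subgroupOf_eq_top.1 h)
  have h3 := h1 _ h2
  obtain ⟨x, hx, hxU⟩ := SetLike.exists_of_lt h3
  rw [Subgroup.mem_subgroupOf] at hxU
  apply hxU
  have hxB : (x : T) ∈ D.B := by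
    rw [← D.norm]
    intro u hu
    rw [Subgroup.mem_normalizer_iff] at hx
    have h4 := (hx ⟨u, hle hu⟩).1 (Subgroup.mem_subgroupOf.2 hu)
    rw [Subgroup.mem_subgroupOf] at h4
    exact h4
  obtain ⟨k, hk⟩ := hS x
  exact D.mem_U_of_pow hxB (k := k) (by
    have := congrArg (Subtype.val) hk
    simpa using this)

open scoped Pointwise in
/-- `U` is a Sylow `p`-subgroup. -/
theorem Datum.sylow [Finite T] (Q : Subgroup T) (hQ : IsPGroup D.p Q) :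
    ∃ g : T, ∀ x ∈ Q, g⁻¹ * x * g ∈ D.U := by
  have : Fact D.p.Prime := ⟨D.prime⟩
  obtain ⟨S₁, hS₁⟩ := hQ.exists_le_sylow
  obtain ⟨S₂, hS₂⟩ := D.pgroup.exists_le_sylow
  have h1 := D.eq_of_le S₂ S₂.isPGroup' hS₂
  obtain ⟨g, hg⟩ := MulAction.exists_smul_eq T S₂ S₁
  refine ⟨g, fun x hx => ?_⟩
  have h2 : x ∈ (S₁ : Subgroup T) := hS₁ hx
  rw [← hg] at h2
  have h3 : x ∈ MulAut.conj g • (S₂ : Subgroup T) := h2
  rw [Subgroup.mem_pointwise_smul_iff_inv_smul_mem] at h3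
  apply h1
  have h4 : (MulAut.conj g)⁻¹ • x = g⁻¹ * x * g := by
    rw [← map_inv, MulAut.smul_def, MulAut.conj_apply, inv_inv]
  rw [← h4]
  exact h3

end BN43
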