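import Pool.Agent.Lib.MP_43150e_al.BN.Basic

/-! # The minimal parabolic subgroups and the groups `S k` -/

set_option autoImplicit false

namespace BN43

open Matrix

/-- Two points of the projective line different from the point at infinity are moved onto each
other by a translation. -/
theorem exists_uni_isUp {F : Type*} [Field F] (X Y : ProjGenLinGroup (Fin 2) F)
    (hX : ¬ IsUp X) (hY : ¬ IsUp Y) : ∃ c : F, IsUp ((uni c * X)⁻¹ * Y) := by
  obtain ⟨g, rfl⟩ := ProjGenLinGroup.mk_surjective X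
  obtain ⟨h, rfl⟩ := ProjGenLinGroup.mk_surjective Y
  have hg : (g : Matrix (Fin 2) (Fin 2) F) 1 0 ≠ 0 := fun h0 => hX ⟨g, h0, rfl⟩
  have hh : (h : Matrix (Fin 2) (Fin 2) F) 1 0 ≠ 0 := fun h0 => hY ⟨h, h0, rfl⟩
  set c : F := (h : Matrix (Fin 2) (Fin 2) F) 0 0 / (h : Matrix (Fin 2) (Fin 2) F) 1 0 -
    (g : Matrix (Fin 2) (Fin 2) F) 0 0 / (g : Matrix (Fin 2) (Fin 2) F) 1 0 with hc
  set m : GeneralLinearGroup (Fin 2) F :=
    GeneralLinearGroup.mkOfDetNeZero !![1, c; 0, 1] (by simp) with hm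
  refine ⟨c, (m * g)⁻¹ * h, ?_, ?_⟩
  · set k : GeneralLinearGroup (Fin 2) F := (m * g)⁻¹ * h with hk
    have h1 : m * g * k = h := by rw [hk, mul_inv_cancel_left]
    have h2 : (m : Matrix (Fin 2) (Fin 2) F) * (g : Matrix (Fin 2) (Fin 2) F) *
        (k : Matrix (Fin 2) (Fin 2) F) = (h : Matrix (Fin 2) (Fin 2) F) := by
      rw [← Units.val_mul, ← Units.val_mul, h1]
    have hmM : (m : Matrix (Fin 2) (Fin 2) F) = !![1, c; 0, 1] := rfl
    have h00 := congrFun (congrFun h2 0) 0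
    have h10 := congrFun (congrFun h2 1) 0
    rw [hmM] at h00 h10
    simp only [Matrix.mul_apply, Fin.sum_univ_two, Matrix.of_apply, Matrix.cons_val_zero,
      Matrix.cons_val_one, Matrix.cons_val', Matrix.cons_val_fin_one, one_mul, zero_mul,
      zero_add] at h00 h10
    have hdet : (g : Matrix (Fin 2) (Fin 2) F).det ≠ 0 := by
      have := (Matrix.isUnit_iff_isUnit_det _).1 g.isUnit
      exact this.ne_zero
    rw [Matrix.det_fin_two] at hdet
    have h3 : c * (h : Matrix (Fin 2) (Fin 2) F) 1 0 * (g : Matrix (Fin 2) (Fin 2) F) 1 0 =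
        (h : Matrix (Fin 2) (Fin 2) F) 0 0 * (g : Matrix (Fin 2) (Fin 2) F) 1 0 -
        (g : Matrix (Fin 2) (Fin 2) F) 0 0 * (h : Matrix (Fin 2) (Fin 2) F) 1 0 := by
      rw [hc]
      field_simp
    have h4 : ((g : Matrix (Fin 2) (Fin 2) F) 0 0 * (g : Matrix (Fin 2) (Fin 2) F) 1 1 -
        (g : Matrix (Fin 2) (Fin 2) F) 0 1 * (g : Matrix (Fin 2) (Fin 2) F) 1 0) *
        (k : Matrix (Fin 2) (Fin 2) F) 1 0 = 0 := by
      linear_combination h3 - (g : Matrix (Fin 2) (Fin 2) F) 1 0 * h00 +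
        ((g : Matrix (Fin 2) (Fin 2) F) 0 0 + c * (g : Matrix (Fin 2) (Fin 2) F) 1 0) * h10
    exact (mul_eq_zero.1 h4).resolve_left hdet
  · rw [map_mul, map_inv, map_mul]
    rfl

variable {T : Type} [Group T] (D : Datum T)

theorem Datum.exists_not_mem_B (i : D.ι) : ∃ x ∈ D.P i, x ∉ D.B := by
  obtain ⟨s, hs⟩ := exists_not_isUp (F := D.F i)
  obtain ⟨g, hg⟩ := D.sl_sur i s
  exact ⟨g, hg.mem, fun h => hs ((D.val_mem_B hg).2 h)⟩

/-- `B` is maximal in `P i`. -/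
theorem Datum.max_B (i : D.ι) (L : Subgroup T) (hB : D.B ≤ L) (x : T) (hx : x ∈ L)
    (hxP : x ∈ D.P i) (hxB : x ∉ D.B) : D.P i ≤ L := by
  intro y hy
  by_cases hyB : y ∈ D.B
  · exact hB hyB
  obtain ⟨X, hX⟩ := exists_val (f := D.π i) hxP
  obtain ⟨Y, hY⟩ := exists_val (f := D.π i) hy
  obtain ⟨c, hc⟩ := exists_uni_isUp X Y (fun h => hxB ((D.val_mem_B hX).1 h))
    (fun h => hyB ((D.val_mem_B hY).1 h))
  obtain ⟨u, hu, huc⟩ := D.uni_sur i c
  have h1 : (u * x)⁻¹ * y ∈ D.B := (D.val_mem_B ((huc.mul hX).inv.mul hY)).1 hc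
  have h2 : u * x ∈ L := L.mul_mem (hB (D.U_le hu)) hx
  have h3 := L.mul_mem h2 (hB h1)
  rwa [mul_inv_cancel_left] at h3

theorem Datum.conj_S {k : D.ι} {x y : T} (hx : x ∈ D.P k) (hy : y ∈ D.S k) :
    x * y * x⁻¹ ∈ D.S k := by
  have hgen : ∀ z ∈ D.S k, x * z * x⁻¹ ∈ D.S k := by
    intro z hz
    refine Subgroup.closure_induction (p := fun z _ => x * z * x⁻¹ ∈ D.S k) ?_ ?_ ?_ ?_ hz
    · rintro z ⟨w, hw, u, hu, rfl⟩
      apply Subgroup.subset_closure
      exact ⟨x * w, (D.P k).mul_mem hx hw, u, hu, by group⟩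
    · rw [mul_one, mul_inv_cancel]
      exact (D.S k).one_mem
    · intro a b _ _ ha hb
      have h1 := (D.S k).mul_mem ha hb
      have h2 : x * a * x⁻¹ * (x * b * x⁻¹) = x * (a * b) * x⁻¹ := by group
      rwa [h2] at h1
    · intro a _ ha
      have h1 := (D.S k).inv_mem ha
      have h2 : (x * a * x⁻¹)⁻¹ = x * a⁻¹ * x⁻¹ := by group
      rwa [h2] at h1
  exact hgen y hy

theorem Datum.S_le (k : D.ι) : D.S k ≤ D.P k := by
  rw [Datum.S, conjGen, Subgroup.closure_le]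
  rintro z ⟨w, hw, u, hu, rfl⟩
  exact (D.P k).mul_mem ((D.P k).mul_mem hw (D.U_le_P k hu)) ((D.P k).inv_mem hw)

theorem Datum.U_le_S (k : D.ι) : D.U ≤ D.S k := by
  intro u hu
  apply Subgroup.subset_closure
  exact ⟨1, (D.P k).one_mem, u, hu, by group⟩

end BN43
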