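import Pool.Agent.Lib.MP_43150e_al.CaseB
import Pool.Agent.Lib.MP_43150e_al.BN.E1

/-! # Part B4: at least two factors, all projections onto -/

set_option autoImplicit false

namespace BN43

open Spr43

theorem Datum.caseBB {T : Type} [Group T] (D : Datum T) [Finite T] [IsSimpleGroup T] (hT : ∃ a b : T, a * b ≠ b * a)
    {Γ Ω ι : Type*} [Group Γ] [MulAction Γ Ω] [Fintype Ω] [DecidableEq Ω] [Finite ι]
    (j : (ι → T) →* Γ)
    (hj : ∀ g : Γ, ∃ β : (ι → T) ≃* (ι → T), ∀ m, j (β m) = g * j m * g⁻¹)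
    (hfaith : ∀ m : ι → T, (∀ x : Ω, j m • x = x) → m = 1)
    (htr : ∀ x y : Ω, ∃ m : ι → T, j m • x = y)
    (x : Ω) (hx : ∃ y : Ω, y ≠ x)
    (hproj : ∀ (i : ι) (t : T), ∃ m : ι → T, j m • x = x ∧ m i = t) :
    ¬ IsSpreading Γ Ω := by
  classical
  let K : Subgroup (ι → T) := (MulAction.stabilizer Γ x).comap j
  have hKm : ∀ m, m ∈ K ↔ j m • x = x := fun m => Iff.rfl
  have hprojK : ∀ (i : ι) (t : T), ∃ m ∈ K, m i = t := fun i t => hproj i t
  have hKne : ∃ i₀, ∃ t, Pi.mulSingle i₀ t ∉ K := by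
    by_contra hcon
    push Not at hcon
    obtain ⟨y, hy⟩ := hx
    obtain ⟨m, hm⟩ := htr x y
    have h1 : m ∈ K := Subgroup.pi_mem_of_mulSingle_mem m fun i => hcon i (m i)
    rw [hKm] at h1
    exact hy (hm.symm.trans h1)
  obtain ⟨i₀, hi₀⟩ := hKne
  obtain ⟨i₁, α, hne, hα⟩ := exists_graph hT K hprojK i₀ hi₀
  obtain ⟨l, hl, ψ, hψU, -, b₀, hb₀⟩ := D.exists_char D.U (by
    obtain ⟨b, hb, hbU⟩ := D.exists_tor
    refine ⟨b, hb, fun e he _ h => hbU ?_⟩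
    have h1 : b = e * (b⁻¹ * e)⁻¹ := by group
    rw [h1]
    exact mul_mem he (inv_mem h))
  let H : Subgroup (ι → T) := Subgroup.pi Set.univ fun _ => D.B
  have hH : ∀ m, m ∈ H ↔ ∀ i, m i ∈ D.B := by
    intro m
    rw [Subgroup.mem_pi]
    exact ⟨fun h i => h i (Set.mem_univ i), fun h i _ => h i⟩
  refine criterionQ j hj l ((MonoidHom.mulSingle (fun _ : ι => T) i₀).comp D.B.subtype) ψ H x
    ?_ ?_ ?_
  · intro β
    obtain ⟨τ, α', hτ⟩ := autPi hT β
    obtain ⟨m, -, hm⟩ := D.aut_B (α' i₀)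
    obtain ⟨h, hhB, hhm, hbh⟩ := D.covers m b₀ b₀.2
    refine ⟨⟨h, hhB⟩, ?_, ?_⟩
    · intro h1
      apply hb₀
      have h2 := hψU (b₀⁻¹ * ⟨h, hhB⟩) hbh
      rw [map_mul, h1, mul_one, map_inv, inv_eq_one] at h2
      exact h2
    · rw [hH]
      intro k
      obtain ⟨k, rfl⟩ := τ.surjective k
      change β (Pi.mulSingle i₀ h) (τ k) ∈ _
      rw [hτ]
      by_cases hk : k = i₀
      · subst hk
        rw [Pi.mulSingle_eq_same]
        exact (hm h).2 hhm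
      · rw [Pi.mulSingle_eq_of_ne hk, map_one]
        exact Subgroup.one_mem _
  · by_contra hcon
    push Not at hcon
    obtain ⟨m, -, hm⟩ := D.aut_B α.symm
    obtain ⟨t, ht⟩ := D.not_prod m hT
    obtain ⟨h, hhH, hh⟩ := hcon x (j (Pi.mulSingle i₀ t)⁻¹ • x)
    have hkK : Pi.mulSingle i₀ t * h ∈ K := by
      rw [hKm, map_mul, mul_smul, hh, ← mul_smul, ← map_mul, mul_inv_cancel, map_one, one_smul]
    have h1 := hα _ hkK
    rw [Pi.mul_apply, Pi.mul_apply, Pi.mulSingle_eq_same, Pi.mulSingle_eq_of_ne hne,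
      one_mul] at h1
    rw [hH] at hhH
    have h2 : m⁻¹ * α (h i₁) * m ∈ D.B := by
      rw [← hm, MulEquiv.symm_apply_apply]
      exact hhH i₁
    refine ht _ h2 _ (inv_mem (hhH i₀)) ?_
    rw [← h1]
    group
  · intro b hb
    have h1 := mulSingle_mem_iff K hprojK i₀ hi₀ (b : T) hb
    have h2 : b = 1 := Subtype.ext h1
    rw [h2, map_one]

end BN43
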