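import Pool.Agent.Lib.MP_43150e_al.Crit

/-! # The averaged criterion -/

set_option autoImplicit false

namespace BN43

open Spr43

theorem cs_orbit {K Γ Ω : Type*} [Group K] [Fintype K] [Group Γ] [MulAction Γ Ω]
    [DecidableEq Ω] (φ : K →* Γ) (x : Ω) (f : Ω → ℕ) :
    ∑ k : K, f (φ k • x) = (Finset.univ.filter (fun k : K => φ k • x = x)).card *
      ∑ y ∈ Finset.univ.image (fun k : K => φ k • x), f y := by
  rw [Finset.sum_comp f (fun k : K => φ k • x), Finset.mul_sum]
  apply Finset.sum_congr rfl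
  intro y hy
  obtain ⟨k₀, _, rfl⟩ := Finset.mem_image.1 hy
  rw [smul_eq_mul]
  congr 1
  apply Finset.card_bij (fun k _ => k₀⁻¹ * k)
  · intro k hk
    simp only [Finset.mem_filter, Finset.mem_univ, true_and] at hk ⊢
    rw [map_mul, mul_smul, hk, ← mul_smul, ← map_mul]
    simp
  · intro a _ b _ h
    exact mul_left_cancel h
  · intro k hk
    simp only [Finset.mem_filter, Finset.mem_univ, true_and] at hk
    refine ⟨k₀ * k, ?_, by simp⟩
    simp only [Finset.mem_filter, Finset.mem_univ, true_and]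
    rw [map_mul, mul_smul, hk]

theorem cs_pos {K Γ Ω : Type*} [Group K] [Fintype K] [Group Γ] [MulAction Γ Ω]
    [DecidableEq Ω] (φ : K →* Γ) (x : Ω) :
    0 < (Finset.univ.filter (fun k : K => φ k • x = x)).card := by
  rw [Finset.card_pos]
  exact ⟨1, by simp⟩

/-- A weight function whose average over every translate of an orbit of a group is one. -/
theorem critSum {Γ Ω H : Type*} [Group Γ] [Finite Γ] [MulAction Γ Ω] [Fintype Ω]
    [DecidableEq Ω] [Group H] [Fintype H] (φ : H →* Γ)
    (htr : ∀ x y : Ω, ∃ g : Γ, g • x = y) (x : Ω) (W : Ω → ℕ) (hW : ∃ y, W y ≠ 1)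
    (hp : ∃ z : Ω, ∀ h : H, φ h • x ≠ z)
    (hs : ∀ g : Γ, ∑ h : H, W (g • φ h • x) = Fintype.card H) : ¬ IsSpreading Γ Ω := by
  classical
  have : Fintype Γ := Fintype.ofFinite Γ
  set A : Finset Ω := Finset.univ.image (fun h : H => φ h • x) with hA
  have hc := cs_pos φ x
  have hcA : Fintype.card H = (Finset.univ.filter (fun k : H => φ k • x = x)).card * A.card := by
    have h1 := cs_orbit φ x (fun _ => 1)
    simpa using h1
  have hsum : ∀ g : Γ, ∑ y ∈ A, W (g • y) = A.card := by
    intro g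
    have h1 := cs_orbit φ x (fun y => W (g • y))
    rw [hs g, hcA] at h1
    exact (Nat.eq_of_mul_eq_mul_left hc h1).symm
  refine not_spreading_of_weight A ⟨x, ?_⟩ ?_ W ?_ hW ?_
  · rw [hA, Finset.mem_image]
    exact ⟨1, Finset.mem_univ _, by simp⟩
  · intro hu
    obtain ⟨z, hz⟩ := hp
    have h1 : z ∈ A := by rw [hu]; exact Finset.mem_univ _
    rw [hA, Finset.mem_image] at h1
    obtain ⟨h, _, h2⟩ := h1
    exact hz h h2
  · -- the total sum
    have h1 : ∑ g : Γ, ∑ h : H, W (g • φ h • x) = Fintype.card Γ * Fintype.card H := by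
      rw [Finset.sum_congr rfl (fun g _ => hs g)]
      simp
    rw [Finset.sum_comm] at h1
    have h2 : ∀ h : H, ∑ g : Γ, W (g • φ h • x) = ∑ g : Γ, W (g • x) := by
      intro h
      rw [← Equiv.sum_comp (Equiv.mulRight (φ h)) (fun g : Γ => W (g • x))]
      apply Finset.sum_congr rfl
      intro g _
      simp [mul_smul]
    rw [Finset.sum_congr rfl (fun h _ => h2 h)] at h1
    have h3 : ∑ g : Γ, W (g • x) = Fintype.card Γ := by
      have hH : 0 < Fintype.card H := Fintype.card_pos
      rw [Finset.sum_const, Finset.card_univ, smul_eq_mul, mul_comm] at h1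
      exact Nat.eq_of_mul_eq_mul_right hH h1
    have h4 := cs_orbit (MonoidHom.id Γ) x W
    have h5 := cs_orbit (MonoidHom.id Γ) x (fun _ => 1)
    have himg : Finset.univ.image (fun k : Γ => (MonoidHom.id Γ) k • x) = Finset.univ := by
      rw [Finset.eq_univ_iff_forall]
      intro y
      obtain ⟨g, hg⟩ := htr x y
      rw [Finset.mem_image]
      exact ⟨g, Finset.mem_univ _, hg⟩
    rw [himg] at h4 h5
    have hc' := cs_pos (MonoidHom.id Γ) x
    have h6 : ∑ g : Γ, W ((MonoidHom.id Γ) g • x) = Fintype.card Γ := h3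
    rw [h6] at h4
    have h7 : Fintype.card Γ = (Finset.univ.filter
        (fun k : Γ => (MonoidHom.id Γ) k • x = x)).card * Fintype.card Ω := by
      simpa using h5
    exact Nat.eq_of_mul_eq_mul_left hc' (h4.symm.trans h7)
  · intro g
    rw [Finset.sum_image (fun a _ b _ h => MulAction.injective g h), hsum g]

end BN43
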