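import Pool.Agent.Lib.MP_43150e_al.BN.Adm
import Pool.Agent.Lib.MP_43150e_al.BN.CritSum

/-! # The two criteria for non-spreading, when `B` fixes a point -/

set_option autoImplicit false

namespace BN43

open Spr43

variable {G : Type} [Group G] (D : PreDatum G)

/-- The criterion with a character of `U`. -/
theorem PreDatum.critU [Finite G] {Γ Ω : Type*} [Group Γ] [MulAction Γ Ω] [Fintype Ω]
    [DecidableEq Ω] (j : G ⧸ Subgroup.center G →* Γ)
    (hj : ∀ g : Γ, ∃ β : (G ⧸ Subgroup.center G) ≃* (G ⧸ Subgroup.center G),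
      ∀ m, j (β m) = g * j m * g⁻¹)
    (htr : ∀ x y : Ω, ∃ t, j t • x = y) (x : Ω) (hB : ∀ b ∈ D.B, j (pj G b) • x = x)
    (H : Subgroup G) (l : ℕ) [Fact l.Prime] (ψ : D.U →* Multiplicative (ZMod l))
    (hi : ∀ (β : (G ⧸ Subgroup.center G) ≃* (G ⧸ Subgroup.center G)) (t : G)
      (σ : Equiv.Perm D.ι), D.Adm j x β t σ → ∃ u : D.U, ψ u ≠ 1 ∧
        β (pj G u) ∈ H.map (pj G))
    (hii : ∃ t : G, ∀ h ∈ H, h⁻¹ * t ∉ stG j x)
    (t₀ : G) (hiii : ∀ u : D.U, t₀⁻¹ * u * t₀ ∈ stG j x → ψ u = 1) : ¬ IsSpreading Γ Ω := by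
  refine criterion l (j.comp ((pj G).comp D.U.subtype)) ψ ((H.map (pj G)).map j)
    (j (pj G t₀) • x) ?_ ?_ ?_
  · intro g
    obtain ⟨β, hβ⟩ := hj g⁻¹
    obtain ⟨t, σ, hadm, _⟩ := D.exists_adm j htr x hB g⁻¹ β hβ
    obtain ⟨u, hu, huH⟩ := hi β t σ hadm
    refine ⟨u, hu, β (pj G u), huH, ?_⟩
    rw [hβ, inv_inv]
    rfl
  · obtain ⟨t, ht⟩ := hii
    refine ⟨x, j (pj G t) • x, ?_⟩
    rintro _ ⟨_, ⟨h, hh, rfl⟩, rfl⟩ e
    apply ht h hh
    rw [mem_stG, map_mul, map_mul, mul_smul, ← e, ← mul_smul, ← map_mul, ← map_mul,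
      inv_mul_cancel, map_one, map_one, one_smul]
  · intro u hu
    apply hiii u
    rw [mem_stG]
    have h1 : j (pj G (u : G)) • j (pj G t₀) • x = j (pj G t₀) • x := hu
    rw [map_mul, map_mul, map_mul, map_mul, mul_smul, mul_smul, h1, ← mul_smul, ← map_mul,
      ← map_mul, inv_mul_cancel, map_one, map_one, one_smul]

/-- The criterion with a weight function on the points, given as a function on the group. -/
theorem PreDatum.critW [Finite G] {Γ Ω : Type*} [Group Γ] [Finite Γ] [MulAction Γ Ω] [Fintype Ω]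
    [DecidableEq Ω] (j : G ⧸ Subgroup.center G →* Γ)
    (hj : ∀ g : Γ, ∃ β : (G ⧸ Subgroup.center G) ≃* (G ⧸ Subgroup.center G),
      ∀ m, j (β m) = g * j m * g⁻¹)
    (htr : ∀ x y : Ω, ∃ t, j t • x = y) (x : Ω) (hB : ∀ b ∈ D.B, j (pj G b) • x = x)
    (H : Subgroup G) (hZ : Subgroup.center G ≤ H)
    (hi : ∀ (β : (G ⧸ Subgroup.center G) ≃* (G ⧸ Subgroup.center G)) (t : G)
      (σ : Equiv.Perm D.ι), D.Adm j x β t σ → ∀ y : G,
        β (pj G y) ∈ H.map (pj G) ↔ t⁻¹ * y * t ∈ H)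
    (hii : ∃ t : G, ∀ h ∈ H, h⁻¹ * t ∉ stG j x)
    (w : G → ℕ) (hw : ∀ g, ∀ l ∈ stG j x, w (g * l) = w g) (hw1 : ∃ g, w g ≠ 1)
    (hs : ∀ t : G, ∑ᶠ h : H, w (t * h) = Nat.card H) : ¬ IsSpreading Γ Ω := by
  classical
  have : Fintype H := Fintype.ofFinite H
  have hex : ∀ y : Ω, ∃ g : G, j (pj G g) • x = y := by
    intro y
    obtain ⟨t, ht⟩ := htr x y
    obtain ⟨g, rfl⟩ := quotA_surj t
    exact ⟨g, ht⟩
  choose c hc using hex
  have hWc : ∀ g : G, w (c (j (pj G g) • x)) = w g := by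
    intro g
    have h1 : g⁻¹ * c (j (pj G g) • x) ∈ stG j x := by
      rw [mem_stG, map_mul, map_mul, mul_smul, hc, ← mul_smul, ← map_mul, ← map_mul,
        inv_mul_cancel, map_one, map_one, one_smul]
    have h2 := hw g _ h1
    rw [mul_inv_cancel_left] at h2
    exact h2
  have htr' : ∀ x y : Ω, ∃ g : Γ, g • x = y := fun x y => by
    obtain ⟨t, ht⟩ := htr x y
    exact ⟨j t, ht⟩
  have hkey := fun f : G ⧸ Subgroup.center G → ℕ =>
    cs_orbit (Γ := G ⧸ Subgroup.center G) (Ω := G ⧸ Subgroup.center G)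
      ((pj G).comp H.subtype) 1 f
  set S : Finset (G ⧸ Subgroup.center G) :=
    Finset.univ.image (fun k : H => ((pj G).comp H.subtype) k • (1 : G ⧸ Subgroup.center G))
    with hS
  have hmS : ∀ q, q ∈ S ↔ q ∈ H.map (pj G) := by
    intro q
    rw [hS, Finset.mem_image]
    constructor
    · rintro ⟨k, _, rfl⟩
      exact ⟨k, k.2, by simp⟩
    · rintro ⟨h, hh, rfl⟩
      exact ⟨⟨h, hh⟩, Finset.mem_univ _, by simp⟩
  refine critSum (j.comp ((pj G).comp H.subtype)) htr' x (fun y => w (c y)) ?_ ?_ ?_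
  · obtain ⟨g, hg⟩ := hw1
    exact ⟨j (pj G g) • x, by simpa only [hWc] using hg⟩
  · obtain ⟨t, ht⟩ := hii
    refine ⟨j (pj G t) • x, fun h e => ht h h.2 ?_⟩
    have e' : j (pj G (h : G)) • x = j (pj G t) • x := e
    rw [mem_stG, map_mul, map_mul, mul_smul, ← e', ← mul_smul, ← map_mul, ← map_mul,
      inv_mul_cancel, map_one, map_one, one_smul]
  · intro g
    obtain ⟨β, hβ⟩ := hj g⁻¹
    obtain ⟨t, σ, hadm, hgx⟩ := D.exists_adm j htr x hB g⁻¹ β hβ
    rw [inv_inv] at hgx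
    have hβ' : ∀ m, g * j (β m) = j m * g := by
      intro m
      rw [hβ, inv_inv]
      group
    have h1 := hkey (fun q => w (c (g • j q • x)))
    have h2 := hkey (fun q => w (c (j (pj G t) • j q • x)))
    have h3 : ∑ h : H, w (c (j (pj G t) • j (((pj G).comp H.subtype) h • 1) • x)) =
        Fintype.card H := by
      have h4 := hs t
      rw [finsum_eq_sum_of_fintype, Nat.card_eq_fintype_card] at h4
      rw [← h4]
      apply Finset.sum_congr rfl
      intro h _
      rw [← hWc (t * h), map_mul, map_mul, mul_smul]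
      simp
    have h5 : ∑ h : H, w (c (g • j (((pj G).comp H.subtype) h • 1) • x)) =
        ∑ h : H, w (c (g • (j.comp ((pj G).comp H.subtype)) h • x)) := by
      apply Finset.sum_congr rfl
      intro h _
      simp
    have h6 : ∑ q ∈ S, w (c (g • j q • x)) = ∑ q ∈ S, w (c (j (pj G t) • j q • x)) := by
      refine Finset.sum_bij' (fun q _ => (pj G t)⁻¹ * β.symm q * pj G t)
        (fun q _ => β (pj G t * q * (pj G t)⁻¹)) ?_ ?_ ?_ ?_ ?_
      · intro q hq
        obtain ⟨y, hy⟩ := quotA_surj (β.symm q)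
        rw [hmS] at hq ⊢
        have h7 : β (pj G y) ∈ H.map (pj G) := by
          rw [hy, MulEquiv.apply_symm_apply]
          exact hq
        rw [hi β t σ hadm] at h7
        exact ⟨_, h7, by rw [map_mul, map_mul, map_inv, hy]⟩
      · intro q hq
        rw [hmS] at hq ⊢
        obtain ⟨h, hh, rfl⟩ := hq
        rw [← map_inv, ← map_mul, ← map_mul, hi β t σ hadm]
        have e : t⁻¹ * (t * h * t⁻¹) * t = h := by group
        rw [e]
        exact hh
      · intro q _
        have e : pj G t * ((pj G t)⁻¹ * β.symm q * pj G t) * (pj G t)⁻¹ = β.symm q := by group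
        show β (pj G t * ((pj G t)⁻¹ * β.symm q * pj G t) * (pj G t)⁻¹) = q
        rw [e, MulEquiv.apply_symm_apply]
      · intro q _
        show (pj G t)⁻¹ * β.symm (β (pj G t * q * (pj G t)⁻¹)) * pj G t = q
        rw [MulEquiv.symm_apply_apply]
        group
      · intro q _
        have e1 : g • j q • x = j (β.symm q) • j (pj G t) • x := by
          have e2 := hβ' (β.symm q)
          rw [MulEquiv.apply_symm_apply] at e2
          rw [← mul_smul, e2, mul_smul, hgx]
        have e3 : j (pj G t) • j ((pj G t)⁻¹ * β.symm q * pj G t) • x =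
            j (β.symm q) • j (pj G t) • x := by
          rw [← mul_smul, ← mul_smul, ← map_mul, ← map_mul]
          congr 2
          group
        show w (c (g • j q • x)) = w (c (j (pj G t) • j ((pj G t)⁻¹ * β.symm q * pj G t) • x))
        rw [e1, e3]
    rw [← h5, h1, h6, ← h2, h3]

end BN43
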