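import Mathlib

/-!
# Groups with a split BN-pair whose rank one sections are of type `A_1`, basic definitions
(project BN, MP_43150e_al). Paper proof: /team-store/h12_lietype.md.
-/

set_option autoImplicit false

namespace BN43

open Matrix

/-- The class of `[[1, c], [0, 1]]` in `PGL_2(F)`. -/
def uni {F : Type*} [Field F] (c : F) : ProjGenLinGroup (Fin 2) F :=
  ProjGenLinGroup.mk (GeneralLinearGroup.mkOfDetNeZero !![1, c; 0, 1] (by simp))

/-- `x` is the class of an upper triangular matrix. -/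
def IsUp {F : Type*} [Field F] (x : ProjGenLinGroup (Fin 2) F) : Prop :=
  ∃ g : GeneralLinearGroup (Fin 2) F, (g : Matrix (Fin 2) (Fin 2) F) 1 0 = 0 ∧
    x = ProjGenLinGroup.mk g

/-- `b` lies in the domain `P` of the homomorphism `f`, and its value is `x`. -/
def Val {T Q : Type*} [Group T] [Group Q] {P : Subgroup T} (f : P →* Q) (b : T) (x : Q) : Prop :=
  ∃ h : b ∈ P, f ⟨b, h⟩ = x

/-- The subgroup generated by the `P`-conjugates of `U`. -/
def conjGen {T : Type*} [Group T] (P U : Subgroup T) : Subgroup T :=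
  Subgroup.closure {y | ∃ x ∈ P, ∃ u ∈ U, y = x * u * x⁻¹}

/-- A split BN-pair `(B, N)` of rank at least two, `B = U (B ∩ N)`, in characteristic `p`, whose
minimal parabolic subgroups `P i` act on the projective lines over finite fields `F i` of
characteristic `p` with more than `59` elements as subgroups of `PGL_2(F i)` containing
`PSL_2(F i)`. -/
structure Datum (T : Type) [Group T] where
  /-- the characteristic -/
  p : ℕ
  prime : p.Prime
  /-- the unipotent radical of `B` -/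
  U : Subgroup T
  /-- the Borel subgroup -/
  B : Subgroup T
  /-- the group `N` of the BN-pair -/
  N : Subgroup T
  /-- the index set of the simple roots -/
  ι : Type
  finι : Finite ι
  /-- the field of the simple root group -/
  F : ι → Type
  field : ∀ i, Field (F i)
  fint : ∀ i, Fintype (F i)
  char : ∀ i, CharP (F i) p
  big : ∀ i, 59 < Fintype.card (F i)
  /-- the minimal parabolic subgroups -/
  P : ι → Subgroup T
  /-- the action of `P i` on the projective line over `F i` -/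
  π : ∀ i, P i →* ProjGenLinGroup (Fin 2) (F i)
  -- `U` is a Sylow `p`-subgroup of `T` with normaliser `B`
  pgroup : IsPGroup p U
  U_le : U ≤ B
  norm : ∀ g : T, (∀ u ∈ U, g * u * g⁻¹ ∈ U) ↔ g ∈ B
  cop : ¬ p ∣ U.relIndex B
  -- BN-pair, `B ∩ N` abelian, `B = U (B ∩ N)`
  comm : ∀ a ∈ B ⊓ N, ∀ b ∈ B ⊓ N, a * b = b * a
  split : ∀ b ∈ B, ∃ u ∈ U, ∃ h ∈ B ⊓ N, b = u * h
  torus : ∀ n ∈ N, ∀ h ∈ B ⊓ N, n * h * n⁻¹ ∈ B
  bruhat : ∀ t : T, ∃ b ∈ B, ∃ n ∈ N, ∃ b' ∈ B, t = b * n * b'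
  -- the rank one sections
  B_le : ∀ i, B ≤ P i
  up_iff : ∀ i (g : P i), IsUp (π i g) ↔ (g : T) ∈ B
  uni_of : ∀ i, ∀ u ∈ U, ∃ c, Val (π i) u (uni c)
  uni_sur : ∀ i (c : F i), ∃ u ∈ U, Val (π i) u (uni c)
  sl_sur : ∀ i (s : SpecialLinearGroup (Fin 2) (F i)), ∃ g, Val (π i) g s.toPGL
  -- `U ∩ ker π_i` is normal in `P i`
  rad : ∀ i, ∀ x ∈ P i, ∀ u ∈ U, Val (π i) u 1 → x * u * x⁻¹ ∈ U
  -- `U` is generated by the simple root groups modulo `[U, U]`
  frat : ∀ u ∈ U, (∀ i, Val (π i) u 1) → u ∈ ⁅U, U⁆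
  -- the torus acts faithfully on the simple root groups
  faith : ∀ b ∈ B, (∀ i, ∃ c, Val (π i) b (uni c)) → b ∈ U
  -- the torus separates the simple roots
  cowt : ∀ i k, k ≠ i → ∃ h ∈ ⨆ l, B ⊓ conjGen (P l) U,
    (¬ ∃ c, Val (π i) h (uni c)) ∧ ∃ c, Val (π k) h (uni c)
  -- the diagram is connected
  conn : ∀ A : Set ι, A.Nonempty → Aᶜ.Nonempty →
    ∃ i ∈ A, ∃ k ∈ Aᶜ, ∃ b ∈ B ⊓ conjGen (P k) U, ¬ ∃ c, Val (π i) (b ^ 2) (uni c)
  -- every translate of a minimal parabolic subgroup contains a simple root group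
  opp : ∀ k, ∀ n ∈ N, ∃ i, ∀ c : F i, ∃ y ∈ U, n⁻¹ * y * n ∈ conjGen (P k) U ∧
    Val (π i) y (uni c) ∧ ∀ l, l ≠ i → Val (π l) y 1
  -- the rank is at least two
  rank : ∃ k, ∃ b ∈ B, b ^ (4 * (Fintype.card (F k) + 1)) ∉ conjGen (P k) U
  -- the `P i` are the minimal overgroups of `B`
  minp : ∀ L : Subgroup T, B < L → ∃ i, P i ≤ L

attribute [instance] Datum.finι Datum.field Datum.fint Datum.char

/-- The projection of the group `K` covers the torus at the chamber `g B`. -/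
def Datum.TFull {T : Type} [Group T] (D : Datum T) (K : Subgroup T) : Prop :=
  ∀ g : T, ∀ b ∈ D.B, ∃ k ∈ K, g⁻¹ * k * g ∈ D.B ∧ b⁻¹ * (g⁻¹ * k * g) ∈ D.U

/-- `K` is transitive on the chambers: `T = K B`. -/
def Datum.FTrans {T : Type} [Group T] (D : Datum T) (K : Subgroup T) : Prop :=
  ∀ t : T, ∃ k ∈ K, k⁻¹ * t ∈ D.B

/-- The group `O^{p'}(P k)`. -/
abbrev Datum.S {T : Type} [Group T] (D : Datum T) (k : D.ι) : Subgroup T :=
  conjGen (D.P k) D.U

end BN43
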