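import Pool.Agent.Lib.MP_43150e_al.BN.FTd

/-! # Part B3: full sections -/

set_option autoImplicit false

namespace BN43

variable {T : Type} [Group T] (D : Datum T)

/-- The unipotent elements with value `1` are normalised by `P i`. -/
theorem Datum.full_R (i : D.ι) {x r : T} (hx : x ∈ D.P i) (hr : r ∈ D.U)
    (hv : Val (D.π i) r 1) : x * r * x⁻¹ ∈ D.U ∧ Val (D.π i) (x * r * x⁻¹) 1 := by
  refine ⟨D.rad i x hx r hr hv, ?_⟩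
  obtain ⟨X, hX⟩ := exists_val (f := D.π i) hx
  have h := (hX.mul hv).mul hX.inv
  rwa [mul_one, mul_inv_cancel] at h

/-- A full section: `S i ≤ (K ∩ P i) R`. -/
theorem Datum.full_dec [Finite T] (K : Subgroup T) (h : D.FTrans K) (i : D.ι)
    (hi : D.Full K i) : ∀ s ∈ D.S i, ∃ c ∈ K, c ∈ D.P i ∧ c⁻¹ * s ∈ D.U ∧
      Val (D.π i) (c⁻¹ * s) 1 := by
  intro s hs
  refine Subgroup.closure_induction (p := fun s _ => ∃ c ∈ K, c ∈ D.P i ∧ c⁻¹ * s ∈ D.U ∧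
      Val (D.π i) (c⁻¹ * s) 1) ?_ ?_ ?_ ?_ hs
  · rintro y ⟨x, hx, u, hu, rfl⟩
    obtain ⟨k, hk, hkx⟩ := h x
    have hkP : k ∈ D.P i := by
      have h1 := (D.P i).mul_mem hx ((D.P i).inv_mem (D.B_le i hkx))
      have h2 : x * (k⁻¹ * x)⁻¹ = k := by group
      rwa [h2] at h1
    have hu' : (k⁻¹ * x) * u * (k⁻¹ * x)⁻¹ ∈ D.U := D.conj_U hkx hu
    obtain ⟨c, hc⟩ := D.uni_of i _ hu'
    obtain ⟨k', hk', hv'⟩ := hi c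
    obtain ⟨w, hw, hwK, hwv⟩ := D.exists_U_of_uni K hk' hv'
    have hr : w⁻¹ * ((k⁻¹ * x) * u * (k⁻¹ * x)⁻¹) ∈ D.U :=
      D.U.mul_mem (D.U.inv_mem hw) hu'
    have hrv : Val (D.π i) (w⁻¹ * ((k⁻¹ * x) * u * (k⁻¹ * x)⁻¹)) 1 := by
      have h1 := hwv.inv.mul hc
      rwa [inv_mul_cancel] at h1
    obtain ⟨h1, h2⟩ := D.full_R i hkP hr hrv
    refine ⟨k * w * k⁻¹, K.mul_mem (K.mul_mem hk hwK) (K.inv_mem hk),
      (D.P i).mul_mem ((D.P i).mul_mem hkP (D.U_le_P i hw)) ((D.P i).inv_mem hkP), ?_⟩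
    have h3 : (k * w * k⁻¹)⁻¹ * (x * u * x⁻¹) =
        k * (w⁻¹ * ((k⁻¹ * x) * u * (k⁻¹ * x)⁻¹)) * k⁻¹ := by group
    rw [h3]
    exact ⟨h1, h2⟩
  · refine ⟨1, K.one_mem, (D.P i).one_mem, ?_⟩
    rw [inv_one, mul_one]
    exact ⟨D.U.one_mem, Val.one⟩
  · rintro s s' _ _ ⟨c, hc, hcP, hr, hv⟩ ⟨c', hc', hcP', hr', hv'⟩
    refine ⟨c * c', K.mul_mem hc hc', (D.P i).mul_mem hcP hcP', ?_⟩
    obtain ⟨h1, h2⟩ := D.full_R i ((D.P i).inv_mem hcP') hr hv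
    have h3 : (c * c')⁻¹ * (s * s') = c'⁻¹ * (c⁻¹ * s) * c'⁻¹⁻¹ * (c'⁻¹ * s') := by group
    rw [h3]
    refine ⟨D.U.mul_mem h1 hr', ?_⟩
    have h4 := h2.mul hv'
    rwa [one_mul] at h4
  · rintro s _ ⟨c, hc, hcP, hr, hv⟩
    refine ⟨c⁻¹, K.inv_mem hc, (D.P i).inv_mem hcP, ?_⟩
    have hv1 : Val (D.π i) (c⁻¹ * s)⁻¹ 1 := by
      have h1 := hv.inv
      rwa [inv_one] at h1
    obtain ⟨h1, h2⟩ := D.full_R i hcP (D.U.inv_mem hr) hv1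
    have h3 : c⁻¹⁻¹ * s⁻¹ = c * (c⁻¹ * s)⁻¹ * c⁻¹ := by group
    rw [h3]
    exact ⟨h1, h2⟩

/-- A full section: `S i ∩ B ≤ (K ∩ B) U`. -/
theorem Datum.full_S [Finite T] (K : Subgroup T) (h : D.FTrans K) (i : D.ι)
    (hi : D.Full K i) : ∀ s ∈ D.B ⊓ D.S i, ∃ y ∈ K, y ∈ D.B ∧ s⁻¹ * y ∈ D.U := by
  rintro s ⟨hsB, hsS⟩
  obtain ⟨c, hc, -, hr, -⟩ := D.full_dec K h i hi s hsS
  have h1 : s⁻¹ * c ∈ D.U := by
    have h2 := D.U.inv_mem hr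
    have h3 : (c⁻¹ * s)⁻¹ = s⁻¹ * c := by group
    rwa [h3] at h2
  refine ⟨c, hc, ?_, h1⟩
  have h4 := D.B.mul_mem hsB (D.U_le h1)
  rwa [mul_inv_cancel_left] at h4

end BN43
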