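import Pool.Agent.Lib.MP_43150e_al.BN.TF

/-! # Part B3: flag-transitive and covering the torus -/

set_option autoImplicit false

namespace BN43

variable {T : Type} [Group T] (D : Datum T)

/-- `(K ∩ B) U = B` and `T = K B` imply `K = T`. -/
theorem Datum.ft_tf [Finite T] (K : Subgroup T) (h : D.FTrans K)
    (hB : ∀ b ∈ D.B, ∃ y ∈ K, y ∈ D.B ∧ b⁻¹ * y ∈ D.U) : K = ⊤ := by
  have hT : D.TFull K := by
    intro g b hb
    obtain ⟨k, hk, hkg⟩ := h g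
    obtain ⟨y, hy, hyB, hyU⟩ := hB b hb
    refine ⟨k * y * k⁻¹, K.mul_mem (K.mul_mem hk hy) (K.inv_mem hk), ?_, ?_⟩
    · have e : g⁻¹ * (k * y * k⁻¹) * g = (k⁻¹ * g)⁻¹ * y * (k⁻¹ * g) := by group
      rw [e]
      exact D.B.mul_mem (D.B.mul_mem (D.B.inv_mem hkg) hyB) hkg
    · have hc := D.comm_mod (D.B.inv_mem hkg) hyB
      have h1 := D.conj_U (D.B.inv_mem hb) hc
      have e : b⁻¹ * (g⁻¹ * (k * y * k⁻¹) * g) =
          b⁻¹ * ((k⁻¹ * g)⁻¹ * y * (k⁻¹ * g)⁻¹⁻¹ * y⁻¹) * b⁻¹⁻¹ * (b⁻¹ * y) := by group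
      rw [e]
      exact D.U.mul_mem h1 hyU
  obtain ⟨g, hg⟩ := D.tf_borel K hT
  obtain ⟨k, hk, hkg⟩ := h g
  have hBK : D.B ≤ K := by
    intro b hb
    have h1 := hg ((k⁻¹ * g)⁻¹ * b * (k⁻¹ * g))
      (D.B.mul_mem (D.B.mul_mem (D.B.inv_mem hkg) hb) hkg)
    have h2 := K.mul_mem (K.mul_mem (K.inv_mem hk) h1) hk
    have e : k⁻¹ * (g * ((k⁻¹ * g)⁻¹ * b * (k⁻¹ * g)) * g⁻¹) * k = b := by group
    rwa [e] at h2
  rw [Subgroup.eq_top_iff']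
  intro t
  obtain ⟨x, hx, hxt⟩ := h t
  have h1 := K.mul_mem hx (hBK hxt)
  rwa [mul_inv_cancel_left] at h1

end BN43
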