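import Pool.Agent.Lib.MP_43150e_al.BN.Basic

/-! # Lemma V -/

set_option autoImplicit false

namespace BN43

open Matrix

/-- A subgroup of a finite `p`-group which generates the group modulo the commutator subgroup is
the whole group. -/
theorem eq_top_of_sup_commutator {G : Type*} [Group G] [Finite G] {p : ℕ} [Fact p.Prime]
    (hG : IsPGroup p G) (H : Subgroup G) (h : H ⊔ ⁅(⊤ : Subgroup G), (⊤ : Subgroup G)⁆ = ⊤) :
    H = ⊤ := by
  by_contra hH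
  obtain ⟨M, hM, hHM⟩ := (eq_top_or_exists_le_coatom H).resolve_left hH
  have hnil : Group.IsNilpotent G := hG.isNilpotent
  have hn : M.Normal := Subgroup.NormalizerCondition.normal_of_coatom _ normalizerCondition_of_isNilpotent hM
  have hQ : IsPGroup p (G ⧸ M) := hG.to_quotient M
  have hnt : ∃ x : G, x ∉ M := by
    by_contra hx
    push Not at hx
    exact hM.1 (top_le_iff.1 fun x _ => hx x)
  have : Nontrivial (G ⧸ M) := by
    obtain ⟨x, hx⟩ := hnt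
    exact ⟨⟨(x : G ⧸ M), 1, fun h1 => hx ((QuotientGroup.eq_one_iff x).1 h1)⟩⟩
  have := hQ.center_nontrivial
  have hMC : M < (Subgroup.center (G ⧸ M)).comap (QuotientGroup.mk' M) := by
    refine lt_of_le_of_ne ?_ ?_
    · intro x hx
      rw [Subgroup.mem_comap, QuotientGroup.mk'_apply, (QuotientGroup.eq_one_iff x).2 hx]
      exact Subgroup.one_mem _
    · intro he
      obtain ⟨⟨c, hc⟩, hc1⟩ := exists_ne (1 : Subgroup.center (G ⧸ M))
      obtain ⟨x, rfl⟩ := QuotientGroup.mk'_surjective M c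
      have h1 : x ∈ M := by
        rw [he]
        exact hc
      apply hc1
      ext
      exact (QuotientGroup.eq_one_iff x).2 h1
  have hC := hM.2 _ hMC
  have hcomm : ⁅(⊤ : Subgroup G), (⊤ : Subgroup G)⁆ ≤ M := by
    rw [Subgroup.commutator_le]
    intro a _ b _
    have h1 : (QuotientGroup.mk' M) a ∈ Subgroup.center (G ⧸ M) := by
      have : a ∈ (Subgroup.center (G ⧸ M)).comap (QuotientGroup.mk' M) := by
        rw [hC]
        exact Subgroup.mem_top a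
      exact this
    rw [← QuotientGroup.eq_one_iff, commutatorElement_def]
    have h2 := Subgroup.mem_center_iff.1 h1 ((QuotientGroup.mk' M) b)
    rw [QuotientGroup.mk'_apply, QuotientGroup.mk'_apply] at h2
    rw [QuotientGroup.mk_mul, QuotientGroup.mk_mul, QuotientGroup.mk_mul, QuotientGroup.mk_inv,
      QuotientGroup.mk_inv, ← h2, mul_assoc, mul_assoc, mul_inv_cancel_left, mul_inv_cancel]
  exact hM.1 (top_le_iff.1 (h ▸ sup_le hHM hcomm))

variable {T : Type} [Group T] (D : Datum T)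

/-- `(K ∩ B) U` as a subgroup. -/
def Datum.modU (K : Subgroup T) : Subgroup T where
  carrier := {b | b ∈ D.B ∧ ∃ y ∈ K, y ∈ D.B ∧ b⁻¹ * y ∈ D.U}
  one_mem' := ⟨D.B.one_mem, 1, K.one_mem, D.B.one_mem, by simp⟩
  mul_mem' := by
    rintro a b ⟨ha, y, hy, hyB, hay⟩ ⟨hb, z, hz, hzB, hbz⟩
    refine ⟨D.B.mul_mem ha hb, y * z, K.mul_mem hy hz, D.B.mul_mem hyB hzB, ?_⟩
    have h1 : (a * b)⁻¹ * (y * z) = b⁻¹ * (a⁻¹ * y) * b⁻¹⁻¹ * (b⁻¹ * z) := by group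
    rw [h1]
    exact D.U.mul_mem (D.conj_U (D.B.inv_mem hb) hay) hbz
  inv_mem' := by
    rintro a ⟨ha, y, hy, hyB, hay⟩
    refine ⟨D.B.inv_mem ha, y⁻¹, K.inv_mem hy, D.B.inv_mem hyB, ?_⟩
    have h1 : a⁻¹⁻¹ * y⁻¹ = (a * (a⁻¹ * y) * a⁻¹)⁻¹ := by group
    rw [h1]
    exact D.U.inv_mem (D.conj_U ha hay)

theorem Datum.mem_modU {K : Subgroup T} {b : T} :
    b ∈ D.modU K ↔ b ∈ D.B ∧ ∃ y ∈ K, y ∈ D.B ∧ b⁻¹ * y ∈ D.U := Iff.rfl

/-- One commutator with an element of the torus. -/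
theorem Datum.lemV_step (K : Subgroup T)
    (h2 : ∀ (k : D.ι), ∀ h ∈ D.B ⊓ D.S k, ∃ y ∈ K, y ∈ D.B ∧ h⁻¹ * y ∈ D.U)
    (i k : D.ι) (hik : k ≠ i) :
    ∃ y ∈ K, y ∈ D.B ∧ (∃ s : D.F i, s - 1 ≠ 0 ∧ ∀ (c : D.F i) (w : T), Val (D.π i) w (uni c) →
      Val (D.π i) (y * w * y⁻¹ * w⁻¹) (uni ((s - 1) * c))) ∧ ∃ c, Val (D.π k) y (uni c) := by
  obtain ⟨h, hh, hni, hnk⟩ := D.cowt i k hik
  have hle : (⨆ k, D.B ⊓ conjGen (D.P k) D.U) ≤ D.modU K := by
    apply iSup_le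
    intro k x hx
    exact ⟨hx.1, h2 k x hx⟩
  obtain ⟨hhB, y, hyK, hyB, hy⟩ := hle hh
  have hyi : ¬ ∃ c, Val (D.π i) y (uni c) := by
    rintro ⟨c', hc'⟩
    obtain ⟨a, ha⟩ := D.uni_of i _ hy
    apply hni
    have h3 := hc'.mul ha.inv
    rw [uni_inv, uni_mul] at h3
    have h4 : y * (h⁻¹ * y)⁻¹ = h := by group
    rw [h4] at h3
    exact ⟨_, h3⟩
  have hyk : ∃ c, Val (D.π k) y (uni c) := by
    obtain ⟨c', hc'⟩ := hnk
    obtain ⟨a, ha⟩ := D.uni_of k _ hy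
    have h3 := hc'.mul ha
    rw [uni_mul, mul_inv_cancel_left] at h3
    exact ⟨_, h3⟩
  obtain ⟨Y, hY⟩ := exists_val (f := D.π i) (D.B_le i hyB)
  obtain ⟨s, hs⟩ := (isUp_iff Y).1 ((D.val_mem_B hY).2 hyB)
  have hs1 : s ≠ 1 := by
    intro h3
    rw [h3] at hs
    obtain ⟨c', hc'⟩ := exists_uni_of_ratio hs
    exact hyi ⟨c', hc' ▸ hY⟩
  refine ⟨y, hyK, hyB, ⟨s, sub_ne_zero.2 hs1, fun c w hw => ?_⟩, hyk⟩
  have h3 := ((hY.mul hw).mul hY.inv).mul hw.inv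
  rw [hs.conj, uni_inv, uni_mul] at h3
  have h4 : (s : D.F i) * c + -c = (s - 1) * c := by ring
  rwa [h4] at h3

/-- One simple root group at a time, with finitely many conditions. -/
theorem Datum.lemV_fin (K : Subgroup T)
    (h1 : ∀ (i : D.ι) (c : D.F i), ∃ u ∈ D.U, u ∈ K ∧ Val (D.π i) u (uni c))
    (h2 : ∀ (k : D.ι), ∀ h ∈ D.B ⊓ D.S k, ∃ y ∈ K, y ∈ D.B ∧ h⁻¹ * y ∈ D.U)
    (i : D.ι) (A : Finset D.ι) (hA : i ∉ A) :
    ∀ c : D.F i, ∃ v ∈ D.U, v ∈ K ∧ Val (D.π i) v (uni c) ∧ ∀ l ∈ A, Val (D.π l) v 1 := by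
  classical
  induction A using Finset.induction_on with
  | empty =>
    intro c
    obtain ⟨u, hu, huK, hc⟩ := h1 i c
    exact ⟨u, hu, huK, hc, fun l hl => absurd hl (Finset.notMem_empty l)⟩
  | insert k A hk ih =>
    intro c
    rw [Finset.mem_insert, not_or] at hA
    obtain ⟨y, hyK, hyB, ⟨s, hs, hsw⟩, a, ha⟩ := D.lemV_step K h2 i k (fun h => hA.1 h.symm)
    obtain ⟨w, hwU, hwK, hw, hwA⟩ := ih hA.2 (c / (s - 1))
    refine ⟨y * w * y⁻¹ * w⁻¹, D.U.mul_mem (D.conj_U hyB hwU) (D.U.inv_mem hwU),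
      K.mul_mem (K.mul_mem (K.mul_mem hyK hwK) (K.inv_mem hyK)) (K.inv_mem hwK), ?_, ?_⟩
    · have h3 := hsw _ _ hw
      rwa [mul_div_cancel₀ _ hs] at h3
    · intro l hl
      rcases Finset.mem_insert.1 hl with h4 | h4
      · subst h4
        obtain ⟨b, hb⟩ := D.uni_of l w hwU
        have h3 := ((ha.mul hb).mul ha.inv).mul hb.inv
        rw [uni_inv, uni_inv, uni_mul, uni_mul, uni_mul] at h3
        have h4 : a + b + -a + -b = 0 := by ring
        rwa [h4, uni_zero] at h3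
      · obtain ⟨Y, hY⟩ := exists_val (f := D.π l) (D.B_le l hyB)
        have h3 := ((hY.mul (hwA l h4)).mul hY.inv).mul (hwA l h4).inv
        rwa [mul_one, mul_inv_cancel, one_mul, inv_one] at h3

/-- One simple root group at a time. -/
theorem Datum.lemV_one (K : Subgroup T)
    (h1 : ∀ (i : D.ι) (c : D.F i), ∃ u ∈ D.U, u ∈ K ∧ Val (D.π i) u (uni c))
    (h2 : ∀ (k : D.ι), ∀ h ∈ D.B ⊓ D.S k, ∃ y ∈ K, y ∈ D.B ∧ h⁻¹ * y ∈ D.U)
    (i : D.ι) (c : D.F i) :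
    ∃ v ∈ D.U, v ∈ K ∧ Val (D.π i) v (uni c) ∧ ∀ l, l ≠ i → Val (D.π l) v 1 := by
  classical
  have := Fintype.ofFinite D.ι
  obtain ⟨v, hv, hvK, hc, hl⟩ := D.lemV_fin K h1 h2 i (Finset.univ.erase i)
    (Finset.notMem_erase i _) c
  exact ⟨v, hv, hvK, hc, fun l h => hl l (Finset.mem_erase.2 ⟨h, Finset.mem_univ l⟩)⟩

/-- All simple root groups. -/
theorem Datum.lemV_all (K : Subgroup T)
    (h1 : ∀ (i : D.ι) (c : D.F i), ∃ u ∈ D.U, u ∈ K ∧ Val (D.π i) u (uni c))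
    (h2 : ∀ (k : D.ι), ∀ h ∈ D.B ⊓ D.S k, ∃ y ∈ K, y ∈ D.B ∧ h⁻¹ * y ∈ D.U)
    (c : ∀ i, D.F i) :
    ∃ v ∈ D.U, v ∈ K ∧ ∀ i, Val (D.π i) v (uni (c i)) := by
  classical
  have := Fintype.ofFinite D.ι
  have h3 : ∀ A : Finset D.ι, ∃ v ∈ D.U, v ∈ K ∧ (∀ i ∈ A, Val (D.π i) v (uni (c i))) ∧
      ∀ i, i ∉ A → Val (D.π i) v 1 := by
    intro A
    induction A using Finset.induction_on with
    | empty =>
      exact ⟨1, D.U.one_mem, K.one_mem, fun i hi => absurd hi (Finset.notMem_empty i),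
        fun i _ => Val.one⟩
    | insert a A ha ih =>
      obtain ⟨v, hvU, hvK, hv1, hv2⟩ := ih
      obtain ⟨w, hwU, hwK, hw1, hw2⟩ := D.lemV_one K h1 h2 a (c a)
      refine ⟨v * w, D.U.mul_mem hvU hwU, K.mul_mem hvK hwK, ?_, ?_⟩
      · intro i hi
        rcases Finset.mem_insert.1 hi with h4 | h4
        · subst h4
          have h5 := (hv2 i ha).mul hw1
          rwa [one_mul] at h5
        · have hne : i ≠ a := fun h5 => ha (h5 ▸ h4)
          have h5 := (hv1 i h4).mul (hw2 i hne)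
          rwa [mul_one] at h5
      · intro i hi
        rw [Finset.mem_insert, not_or] at hi
        have h5 := (hv2 i hi.2).mul (hw2 i hi.1)
        rwa [mul_one] at h5
  obtain ⟨v, hvU, hvK, hv1, -⟩ := h3 Finset.univ
  exact ⟨v, hvU, hvK, fun i => hv1 i (Finset.mem_univ i)⟩

/-- If `K ∩ U` maps onto all simple root groups and `(K ∩ B) U` contains the coroot tori then
`U ≤ K`. -/
theorem Datum.lemV [Finite T] (K : Subgroup T)
    (h1 : ∀ (i : D.ι) (c : D.F i), ∃ u ∈ D.U, u ∈ K ∧ Val (D.π i) u (uni c))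
    (h2 : ∀ (k : D.ι), ∀ h ∈ D.B ⊓ D.S k, ∃ y ∈ K, y ∈ D.B ∧ h⁻¹ * y ∈ D.U) :
    D.U ≤ K := by
  have : Fact D.p.Prime := ⟨D.prime⟩
  have htop : K.subgroupOf D.U = ⊤ := by
    apply eq_top_of_sup_commutator (p := D.p) D.pgroup
    rw [eq_top_iff]
    rintro u -
    choose c hc using fun i => D.uni_of i (u : T) u.2
    obtain ⟨v, hvU, hvK, hv⟩ := D.lemV_all K h1 h2 c
    have h3 : ∀ i, Val (D.π i) (v⁻¹ * u) 1 := by
      intro i
      have h4 := (hv i).inv.mul (hc i)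
      rwa [inv_mul_cancel] at h4
    have h5 := D.frat _ (D.U.mul_mem (D.U.inv_mem hvU) u.2) h3
    have h6 : ⁅D.U, D.U⁆ = Subgroup.map D.U.subtype ⁅(⊤ : Subgroup D.U), (⊤ : Subgroup D.U)⁆ := by
      rw [Subgroup.map_commutator, ← MonoidHom.range_eq_map, Subgroup.range_subtype]
    rw [h6] at h5
    obtain ⟨z, hz, hz1⟩ := h5
    have h7 : u = ⟨v, hvU⟩ * z := by
      apply Subtype.ext
      rw [Subgroup.coe_mul]
      change (u : T) = v * D.U.subtype z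
      rw [hz1, mul_inv_cancel_left]
    rw [h7]
    exact Subgroup.mul_mem_sup (Subgroup.mem_subgroupOf.2 hvK) hz
  rwa [Subgroup.subgroupOf_eq_top] at htop

end BN43
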