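import Pool.Agent.Lib.MP_43150e_al.BN.FTs
import Pool.Agent.Lib.MP_43150e_al.BN.FTf
import Pool.Agent.Lib.MP_43150e_al.BN.FTt
import Pool.Agent.Lib.MP_43150e_al.BN.LemV

/-! # Part B3: the alternative -/

set_option autoImplicit false

namespace BN43

variable {T : Type} [Group T] (D : Datum T)

/-- Flag-transitive: `K = T` or no section is full. -/
theorem Datum.ft_dich [Finite T] [IsSimpleGroup T] (K : Subgroup T) (h : D.FTrans K) :
    K = ⊤ ∨ ∀ i, ¬ D.Full K i := by
  by_contra hcon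
  push Not at hcon
  obtain ⟨hK, i0, hi0⟩ := hcon
  by_cases hall : ∀ i, D.Full K i
  · apply hK
    have h1 : ∀ (i : D.ι) (c : D.F i), ∃ u ∈ D.U, u ∈ K ∧ Val (D.π i) u (uni c) := by
      intro i c
      obtain ⟨k, hk, hv⟩ := hall i c
      exact D.exists_U_of_uni K hk hv
    have hU : D.U ≤ K := D.lemV K h1 (fun k => D.full_S K h k (hall k))
    have hN : Subgroup.normalClosure (D.U : Set T) ≤ K := by
      rw [Subgroup.normalClosure, Subgroup.closure_le]
      intro y hy
      rw [Group.mem_conjugatesOfSet_iff] at hy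
      obtain ⟨u, hu, hc⟩ := hy
      obtain ⟨t, ht⟩ := isConj_iff.1 hc
      obtain ⟨k, hk, hb⟩ := h t
      have h2 : (k⁻¹ * t) * u * (k⁻¹ * t)⁻¹ ∈ D.U := D.conj_U hb hu
      have h3 : y = k * ((k⁻¹ * t) * u * (k⁻¹ * t)⁻¹) * k⁻¹ := by
        rw [← ht]
        group
      rw [h3]
      exact K.mul_mem (K.mul_mem hk (hU h2)) (K.inv_mem hk)
    rcases (Subgroup.normalClosure_normal (s := (D.U : Set T))).eq_bot_or_eq_top with h2 | h2
    · exfalso
      obtain ⟨u, hu, hv⟩ := D.uni_sur i0 1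
      have h3 : u ∈ (⊥ : Subgroup T) := by
        rw [← h2]
        exact Subgroup.subset_normalClosure hu
      rw [Subgroup.mem_bot] at h3
      rw [h3] at hv
      have h4 := hv.unique Val.one
      rw [← uni_zero] at h4
      exact one_ne_zero (uni_inj h4)
    · rw [h2, top_le_iff] at hN
      exact hN
  · push Not at hall
    obtain ⟨j0, hj0⟩ := hall
    obtain ⟨i, hi, k, hk, b, hb, hnb⟩ := D.conn {i | ¬ D.Full K i} ⟨j0, hj0⟩
      ⟨i0, fun hn => hn hi0⟩
    have hkf : D.Full K k := not_not.1 hk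
    obtain ⟨y, hyK, hyB, hu⟩ := D.full_S K h k hkf b hb
    obtain ⟨hs, -, -⟩ := D.small K h i hi
    have hy2 := hs y hyK hyB
    have hbB : b ∈ D.B := hb.1
    obtain ⟨x, hx⟩ := exists_val (f := D.π i) (D.B_le i hbB)
    obtain ⟨s, hxs⟩ := (isUp_iff x).1 ((D.val_mem_B hx).2 hbB)
    obtain ⟨c, hc⟩ := D.uni_of i _ hu
    have hyv : Val (D.π i) y (x * uni c) := by
      have h1 := hx.mul hc
      rwa [mul_inv_cancel_left] at h1
    have hyr : Ratio (x * uni c) (s * 1) := hxs.mul (ratio_uni c)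
    rw [mul_one] at hyr
    have h1 : (x * uni c) ^ 2 = 1 := (hyv.pow 2).unique hy2
    have h2 : Ratio ((x * uni c) ^ 2) (s * s) := by
      rw [pow_two]
      exact hyr.mul hyr
    rw [h1, ← uni_zero] at h2
    have h3 : s * s = 1 := ratio_unique h2 (ratio_uni 0)
    have h4 : Ratio (x ^ 2) 1 := by
      rw [pow_two, ← h3]
      exact hxs.mul hxs
    obtain ⟨d, hd⟩ := exists_uni_of_ratio h4
    apply hnb
    refine ⟨d, ?_⟩
    rw [← hd]
    exact hx.pow 2

end BN43
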