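import Pool.Agent.Lib.MP_43150e_al.BN.PglT2
import Pool.Agent.Lib.MP_43150e_al.BN.BasicP

/-! # Part B3: images of flag-transitive groups -/

set_option autoImplicit false

namespace BN43

variable {T : Type} [Group T] (D : Datum T)

/-- All unipotent elements of the `i`-th section come from `K`. -/
def Datum.Full (K : Subgroup T) (i : D.ι) : Prop :=
  ∀ c : D.F i, ∃ k ∈ K, Val (D.π i) k (uni c)

theorem Datum.ft_img [Finite T] (K : Subgroup T) (h : D.FTrans K) (i : D.ι)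
    (s : Matrix.SpecialLinearGroup (Fin 2) (D.F i)) :
    ∃ x ∈ D.img K i, IsUp (x⁻¹ * s.toPGL) := by
  obtain ⟨x0, hx0⟩ := D.sl_sur i s
  obtain ⟨k, hk, hkB⟩ := h x0
  have h1 : k⁻¹ * x0 ∈ D.P i := D.B_le i hkB
  have h2 : k ∈ D.P i := by
    have h3 := (D.P i).mul_mem hx0.mem ((D.P i).inv_mem h1)
    have h4 : x0 * (k⁻¹ * x0)⁻¹ = k := by group
    rwa [h4] at h3
  obtain ⟨x, hx⟩ := exists_val (f := D.π i) h2
  exact ⟨x, (D.mem_img K i x).2 ⟨k, hk, hx⟩, (D.val_mem_B (hx.inv.mul hx0)).2 hkB⟩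

end BN43
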