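import Pool.Agent.Lib.MP_43150e_al.BN.FTd

/-! # Part B3: sections that are not full -/

set_option autoImplicit false

namespace BN43

variable {T : Type} [Group T] (D : Datum T)

theorem fts_isUp_uni {F : Type*} [Field F] (c : F) : IsUp (uni c) :=
  (isUp_iff _).2 ⟨1, ratio_uni c⟩

theorem fts_finite {F : Type*} [Field F] [Fintype F] :
    Finite (Matrix.ProjGenLinGroup (Fin 2) F) := by
  unfold Matrix.ProjGenLinGroup
  infer_instance

/-- three different unipotent elements -/
theorem fts_three {F : Type*} [Field F] [Fintype F]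
    (L : Subgroup (Matrix.ProjGenLinGroup (Fin 2) F))
    (h2 : Nat.card {x : Matrix.ProjGenLinGroup (Fin 2) F // x ∈ L ∧ IsUp x} ≤ 2)
    (c₀ c : F) (h0 : uni c₀ ∈ L) (hc : uni c ∈ L) (hne : c₀ ≠ 0) : c = 0 ∨ c = c₀ := by
  by_contra hcon
  push Not at hcon
  obtain ⟨hc0, hc1⟩ := hcon
  have hfin : Finite (Matrix.ProjGenLinGroup (Fin 2) F) := fts_finite
  have h1 : (uni (0 : F)) ∈ L := by
    rw [uni_zero]
    exact L.one_mem
  let g : Fin 3 → F := ![0, c₀, c]
  have hg : ∀ j, uni (g j) ∈ L := by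
    intro j
    fin_cases j
    · exact h1
    · exact h0
    · exact hc
  have hinj : Function.Injective g := by
    intro a b hab
    fin_cases a <;> fin_cases b <;> simp [g] at hab ⊢
    · exact hne hab.symm
    · exact hc0 hab.symm
    · exact hne hab
    · exact hc1 hab.symm
    · exact hc0 hab
    · exact hc1 hab
  let f : Fin 3 → {x : Matrix.ProjGenLinGroup (Fin 2) F // x ∈ L ∧ IsUp x} := fun j =>
    ⟨uni (g j), hg j, fts_isUp_uni _⟩
  have hf : Function.Injective f := by
    intro a b hab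
    have h3 : uni (g a) = uni (g b) := congrArg Subtype.val hab
    exact hinj (uni_inj h3)
  have h4 := Nat.card_le_card_of_injective f hf
  rw [Nat.card_eq_fintype_card, Fintype.card_fin] at h4
  omega

/-- A section that is not full: the elements of `K ∩ B` have ratio `±1` and act as involutions,
those of `K ∩ P i` have order dividing `2 (q + 1)`, and at most one nonzero `c` is the value of
an element of `K`. -/
theorem Datum.small [Finite T] (K : Subgroup T) (h : D.FTrans K) (i : D.ι)
    (hi : ¬ D.Full K i) :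
    (∀ k ∈ K, k ∈ D.B → Val (D.π i) (k ^ 2) 1) ∧
    (∀ k ∈ K, k ∈ D.P i → Val (D.π i) (k ^ (2 * (Fintype.card (D.F i) + 1))) 1) ∧
    ∃ c₀ : D.F i, c₀ + c₀ = 0 ∧
      ∀ c : D.F i, ∀ k ∈ K, Val (D.π i) k (uni c) → c = 0 ∨ c = c₀ := by
  have htr := D.ft_img K h i
  rcases pgl_t2 (D.big i) (D.img K i) htr with hfull | hcard
  · exfalso
    apply hi
    intro c
    exact (D.mem_img K i _).1 (hfull c)
  · obtain ⟨hs1, hs2⟩ := pgl_small (D.img K i) htr hcard
    refine ⟨fun k hk hkB => ?_, fun k hk hkP => ?_, ?_⟩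
    · obtain ⟨x, hx⟩ := exists_val (f := D.π i) (D.B_le i hkB)
      have h3 := hs2 x ((D.mem_img K i x).2 ⟨k, hk, hx⟩) ((D.val_mem_B hx).2 hkB)
      have h4 := hx.pow 2
      rwa [h3] at h4
    · obtain ⟨x, hx⟩ := exists_val (f := D.π i) hkP
      have h3 := hs1 x ((D.mem_img K i x).2 ⟨k, hk, hx⟩)
      have h4 := hx.pow (2 * (Fintype.card (D.F i) + 1))
      rwa [h3] at h4
    · by_cases hex : ∃ c : D.F i, c ≠ 0 ∧ uni c ∈ D.img K i
      · obtain ⟨c₀, hne, h0⟩ := hex
        refine ⟨c₀, ?_, fun c k hk hv => ?_⟩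
        · have h3 := hs2 _ h0 (fts_isUp_uni c₀)
          rw [uni_pow, ← uni_zero] at h3
          have h4 := uni_inj h3
          rw [two_nsmul] at h4
          exact h4
        · exact fts_three (D.img K i) hcard c₀ c h0 ((D.mem_img K i _).2 ⟨k, hk, hv⟩) hne
      · push Not at hex
        refine ⟨0, add_zero 0, fun c k hk hv => ?_⟩
        left
        by_contra hc
        exact hex c hc ((D.mem_img K i _).2 ⟨k, hk, hv⟩)

end BN43
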