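import Pool.Agent.Lib.MP_43150e_al.BN.FTs
import Pool.Agent.Lib.MP_43150e_al.BN.FTf

/-! # Part B3: `S k` is intransitive -/

set_option autoImplicit false

namespace BN43

variable {T : Type} [Group T] (D : Datum T)

private theorem SmallI_pow (k : D.ι) {s x : T} (hs : s ∈ D.S k) (hx : x ∈ D.P k) (m : ℕ) :
    (s * x) ^ m * (x ^ m)⁻¹ ∈ D.S k := by
  induction m with
  | zero => simp
  | succ m ih =>
    have h1 : (s * x) ^ (m + 1) * (x ^ (m + 1))⁻¹ =
        s * (x * ((s * x) ^ m * (x ^ m)⁻¹) * x⁻¹) := by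
      rw [pow_succ', pow_succ']
      group
    rw [h1]
    exact (D.S k).mul_mem hs (D.conj_S hx ih)

/-- `S k` is not transitive. -/
theorem Datum.small_intr [Finite T] (K : Subgroup T) (h : D.FTrans K)
    (hf : ∀ i, ¬ D.Full K i) (k : D.ι)
    (hk : ∃ b ∈ D.B, b ^ (4 * (Fintype.card (D.F k) + 1)) ∉ D.S k) :
    ∃ t : T, ∀ s ∈ D.S k, s⁻¹ * t ∉ K := by
  by_contra hcon
  push Not at hcon
  obtain ⟨b, hb, hbm⟩ := hk
  obtain ⟨s, hs, hsK⟩ := hcon b
  have hbP : b ∈ D.P k := D.B_le k hb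
  have hsP : s ∈ D.P k := D.S_le k hs
  set x := s⁻¹ * b with hx
  have hxP : x ∈ D.P k := (D.P k).mul_mem ((D.P k).inv_mem hsP) hbP
  have hbx : b = s * x := by rw [hx, mul_inv_cancel_left]
  have h1 := (D.small K h k (hf k)).2.1 x hsK hxP
  set y := x ^ (2 * (Fintype.card (D.F k) + 1)) with hy
  have hyK : y ∈ K := K.pow_mem hsK _
  have hyB : y ∈ D.B := by
    rw [← D.val_mem_B h1]
    have h2 := (D.up_iff k 1).2 (by simp)
    rwa [map_one] at h2
  have hyU : y ^ 2 ∈ D.U := by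
    refine D.faith _ (D.B.pow_mem hyB 2) fun i => ⟨0, ?_⟩
    have h2 := (D.small K h i (hf i)).1 y hyK hyB
    rwa [uni_zero]
  have hyS : x ^ (4 * (Fintype.card (D.F k) + 1)) ∈ D.S k := by
    have h2 : x ^ (4 * (Fintype.card (D.F k) + 1)) = y ^ 2 := by
      rw [hy, ← pow_mul]
      congr 1
      ring
    rw [h2]
    exact D.U_le_S k hyU
  apply hbm
  have h3 := SmallI_pow D k hs hxP (4 * (Fintype.card (D.F k) + 1))
  have h4 := (D.S k).mul_mem h3 hyS
  rw [inv_mul_cancel_right] at h4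
  rw [hbx]
  exact h4

end BN43
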