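import Pool.Agent.Lib.MP_43150e_al.BN.Aut

/-! # Part B3: conjugates of `S k` and `U` -/

set_option autoImplicit false

namespace BN43

variable {T : Type} [Group T] (D : Datum T)

/-- Every `β⁻¹(S k)` meets `U` outside the kernel of `ψ`. -/
theorem Datum.small_meet [Finite T] (ψ : D.U →* Multiplicative (ZMod D.p))
    (hψ : ∀ i, ∃ c : D.F i, ∀ u : D.U, Val (D.π i) u (uni c) →
      (∀ l, l ≠ i → Val (D.π l) u 1) → ψ u ≠ 1) (k : D.ι) (β : T ≃* T) :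
    ∃ u : D.U, ψ u ≠ 1 ∧ β u ∈ D.S k := by
  obtain ⟨m, k', -, hm⟩ := D.aut_S β k
  obtain ⟨b, hb, n, hn, b', hb', rfl⟩ := D.bruhat m
  obtain ⟨i, hi⟩ := D.opp k' n hn
  obtain ⟨c, hc⟩ := hψ i
  obtain ⟨X, hX⟩ := exists_val (f := D.π i) (D.B_le i hb)
  obtain ⟨s, hs⟩ := (isUp_iff X).1 ((D.val_mem_B hX).2 hb)
  obtain ⟨y, hyU, hyS, hyi, hyl⟩ := hi (s⁻¹ * c)
  have hu : b * y * b⁻¹ ∈ D.U := D.conj_U hb hyU
  refine ⟨⟨b * y * b⁻¹, hu⟩, hc _ ?_ ?_, ?_⟩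
  · have h1 := (hX.mul hyi).mul hX.inv
    rw [hs.conj, mul_inv_cancel_left₀ hs.1] at h1
    exact h1
  · intro l hl
    obtain ⟨Y, hY⟩ := exists_val (f := D.π l) (D.B_le l hb)
    have h1 := (hY.mul (hyl l hl)).mul hY.inv
    rw [mul_one, mul_inv_cancel] at h1
    exact h1
  · rw [hm]
    have h1 : (b * n * b')⁻¹ * (b * y * b⁻¹) * (b * n * b') = b'⁻¹ * (n⁻¹ * y * n) * b'⁻¹⁻¹ := by
      group
    rw [h1]
    exact D.conj_S ((D.P k').inv_mem (D.B_le k' hb')) hyS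

end BN43
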