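import Pool.Agent.Lib.MP_43150e_al.BN.SmallC
import Pool.Agent.Lib.MP_43150e_al.BN.SmallI
import Pool.Agent.Lib.MP_43150e_al.BN.SmallM
import Pool.Agent.Lib.MP_43150e_al.BN.FT
import Pool.Agent.Lib.MP_43150e_al.BN.E1

/-! # Part B3: conclusion -/

set_option autoImplicit false

namespace BN43

open Spr43

variable {T : Type} [Group T] (D : Datum T)

theorem Datum.ft [Finite T] [IsSimpleGroup T] {Γ Ω : Type*} [Group Γ] [MulAction Γ Ω] [Fintype Ω]
    [DecidableEq Ω] (j : T →* Γ) (hj : ∀ g : Γ, ∃ β : T ≃* T, ∀ m, j (β m) = g * j m * g⁻¹)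
    (htr : ∀ x y : Ω, ∃ t, j t • x = y) (hsp : IsSpreading Γ Ω) (x : Ω)
    (h : D.FTrans (stab j x)) : stab j x = ⊤ := by
  by_contra hne
  have h1 := (D.ft_dich (stab j x) h).resolve_left hne
  have h2 : ∀ i, ∃ c₀ : D.F i, c₀ + c₀ = 0 ∧
      ∀ c : D.F i, ∀ k ∈ stab j x, Val (D.π i) k (uni c) → c = 0 ∨ c = c₀ :=
    fun i => (D.small (stab j x) h i (h1 i)).2.2
  choose c₀ hc0 hc using h2
  obtain ⟨ψ, hψ1, hψ2⟩ := D.char_U c₀ hc0
  obtain ⟨k, hk⟩ := D.rank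
  have : Fact D.p.Prime := ⟨D.prime⟩
  refine criterionQ j hj D.p D.U.subtype ψ (D.S k) x ?_ ?_ ?_ hsp
  · intro β
    exact D.small_meet ψ hψ2 k β
  · obtain ⟨t, ht⟩ := D.small_intr (stab j x) h h1 k hk
    refine ⟨x, j t • x, fun s hs hst => ht s hs ?_⟩
    rw [mem_stab, map_mul, mul_smul, ← hst, ← mul_smul, ← map_mul, inv_mul_cancel, map_one,
      one_smul]
  · intro u hu
    apply hψ1
    intro i
    obtain ⟨c, hc'⟩ := D.uni_of i u u.2
    rcases hc i c u ((mem_stab j x _).2 hu) hc' with h3 | h3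
    · exact Or.inl (h3 ▸ hc')
    · exact Or.inr (h3 ▸ hc')

end BN43
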