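import Pool.Agent.Lib.MP_43150e_al.Main
import Pool.Agent.Lib.MP_43150e_al.BN.Small
import Pool.Agent.Lib.MP_43150e_al.BN.CaseBB

/-! # Theorem BN -/

set_option autoImplicit false

namespace BN43

open MulAction Spr43

variable {T : Type} [Group T] (D : Datum T)

/-- `k = 1`: a point stabiliser contains a conjugate of `B`. -/
theorem Datum.one [Finite T] [IsSimpleGroup T] {Γ Ω : Type*} [Group Γ] [MulAction Γ Ω]
    [Fintype Ω] [DecidableEq Ω] (j : T →* Γ)
    (hj : ∀ g : Γ, ∃ β : T ≃* T, ∀ m, j (β m) = g * j m * g⁻¹)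
    (htr : ∀ x y : Ω, ∃ t, j t • x = y) (hsp : IsSpreading Γ Ω) (x : Ω)
    (hx : ∃ y : Ω, y ≠ x) : ∃ y : Ω, ∀ b ∈ D.B, j b • y = y := by
  rcases D.e1 j hj htr hsp x with h | h
  · exfalso
    have h1 := D.ft j hj htr hsp x h
    obtain ⟨y, hy⟩ := hx
    obtain ⟨t, ht⟩ := htr x y
    have h2 : t ∈ stab j x := by rw [h1]; trivial
    exact hy (ht.symm.trans ((mem_stab j x t).1 h2))
  · obtain ⟨g, hg⟩ := D.tf_borel _ h
    refine ⟨j g⁻¹ • x, fun b hb => ?_⟩
    have h1 := (mem_stab j x _).1 (hg b hb)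
    rw [map_mul, map_mul, mul_smul, mul_smul] at h1
    calc j b • j g⁻¹ • x = j g⁻¹ • (j g • j b • j g⁻¹ • x) := by
          rw [smul_smul (j g⁻¹) (j g), ← map_mul, inv_mul_cancel, map_one, one_smul]
      _ = j g⁻¹ • x := by rw [h1]

theorem main_bn [Finite T] [IsSimpleGroup T] (hT : ∃ a b : T, a * b ≠ b * a)
    {Ω : Type*} [Fintype Ω] [DecidableEq Ω] (hΩ : Nontrivial Ω)
    (G : Subgroup (Equiv.Perm Ω)) (htr : IsPretransitive G Ω) (hsp : IsSpreading G Ω)
    (M : Subgroup G) [M.Normal] (k : ℕ) (hk : 1 ≤ k) (e : M ≃* (Fin k → T)) :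
    k = 1 ∧ ∃ x : Ω, ∀ m : M, (∀ i, e m i ∈ D.B) → (m : G) • x = x := by
  classical
  have hprim : IsPreprimitive G Ω := preprimitive_of_spreading hsp
  set j : (Fin k → T) →* G := M.subtype.comp e.symm.toMonoidHom with hj
  have hjconj : ∀ g : G, ∃ β : (Fin k → T) ≃* (Fin k → T), ∀ m, j (β m) = g * j m * g⁻¹ :=
    fun g => exists_conj_aut M e g
  have hjinj : Function.Injective j := by
    intro a b hab
    have : e.symm a = e.symm b := Subtype.ext hab
    exact e.symm.injective this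
  have hfaith : ∀ m : Fin k → T, (∀ x : Ω, j m • x = x) → m = 1 := by
    intro m hm
    apply hjinj
    rw [map_one]
    apply Subtype.ext
    apply Equiv.ext
    intro x
    exact hm x
  have hMne : M ≠ ⊥ := by
    intro hb
    obtain ⟨a, b, hab⟩ := hT
    have hne : (fun _ : Fin k => a) ≠ 1 := by
      intro h0
      have : a = 1 := congrFun h0 ⟨0, hk⟩
      exact hab (by rw [this]; simp)
    apply hne
    apply e.symm.injective
    apply Subtype.ext
    have key : ∀ m : M, (m : G) = 1 := by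
      intro m
      have h1 : (m : G) ∈ (⊥ : Subgroup G) := hb ▸ m.2
      exact Subgroup.mem_bot.1 h1
    rw [key, key]
  have hMtr : IsPretransitive M Ω := by
    have hq : IsQuasiPreprimitive G Ω := inferInstance
    apply hq.isPretransitive_of_normal
    intro hfix
    apply hMne
    rw [eq_bot_iff]
    intro m hm
    rw [Subgroup.mem_bot]
    apply Subtype.ext
    apply Equiv.ext
    intro x
    have hx : x ∈ fixedPoints M Ω := by rw [hfix]; trivial
    exact hx ⟨m, hm⟩
  have htrQ : ∀ x y : Ω, ∃ m : Fin k → T, j m • x = y := by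
    intro x y
    obtain ⟨m, hm⟩ := exists_smul_eq M x y
    refine ⟨e m, ?_⟩
    rw [← hm]
    simp [hj]
    rfl
  obtain ⟨x, y₀, hxy⟩ := hΩ.exists_pair_ne
  rcases Nat.lt_or_ge 1 k with hk2 | hk1
  · exfalso
    by_cases hproj : ∀ (i : Fin k) (t : T), ∃ m : Fin k → T, j m • x = x ∧ m i = t
    · exact D.caseBB hT j hjconj hfaith htrQ x ⟨y₀, hxy.symm⟩ hproj hsp
    · push Not at hproj
      obtain ⟨i, t, ht⟩ := hproj
      have : ∃ i₁ : Fin k, i ≠ i₁ := by
        by_contra hcon
        push Not at hcon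
        have h0 := hcon ⟨0, by omega⟩
        have h1 := hcon ⟨1, by omega⟩
        rw [h0] at h1
        exact absurd (congrArg Fin.val h1) (by simp)
      obtain ⟨i₁, hi⟩ := this
      exact caseA hT j hjconj hfaith htrQ x i i₁ hi ⟨t, ht⟩ hsp
  · have hk1 : k = 1 := le_antisymm hk1 hk
    refine ⟨hk1, ?_⟩
    subst hk1
    let u : (Fin 1 → T) ≃* T := MulEquiv.piUnique (fun _ : Fin 1 => T)
    let e' : M ≃* T := e.trans u
    have htr1 : ∀ x y : Ω, ∃ t : T, (M.subtype.comp e'.symm.toMonoidHom) t • x = y := by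
      intro x y
      obtain ⟨m, hm⟩ := exists_smul_eq M x y
      refine ⟨e' m, ?_⟩
      rw [← hm]
      simp
      rfl
    obtain ⟨y, hy⟩ := D.one (M.subtype.comp e'.symm.toMonoidHom)
      (fun g => exists_conj_aut M e' g) htr1 hsp x ⟨y₀, hxy.symm⟩
    refine ⟨y, fun m hm => ?_⟩
    have h1 := hy (e' m) (hm default)
    simpa using h1

end BN43
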