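import Pool.Agent.Lib.MP_43150e_al.BN.Defs

/-! # Calculus in `PGL_2(F)` -/

set_option autoImplicit false

namespace BN43

open Matrix

variable {F : Type*} [Field F]

/-- `x` is the class of `[[s, b], [0, 1]]` for some `b`. -/
def Ratio (x : ProjGenLinGroup (Fin 2) F) (s : F) : Prop :=
  s ≠ 0 ∧ ∃ (b : F) (g : GeneralLinearGroup (Fin 2) F),
    (g : Matrix (Fin 2) (Fin 2) F) = !![s, b; 0, 1] ∧ x = ProjGenLinGroup.mk g

/-- the matrix of a representative of `uni c` -/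
theorem pgl_uni_coe (c : F) : ((GeneralLinearGroup.mkOfDetNeZero !![1, c; 0, 1]
    (by simp) : GeneralLinearGroup (Fin 2) F) : Matrix (Fin 2) (Fin 2) F) = !![1, c; 0, 1] := rfl

/-- two matrices with the same class differ by a scalar -/
theorem pgl_mk_eq {g g' : GeneralLinearGroup (Fin 2) F}
    (h : ProjGenLinGroup.mk g = ProjGenLinGroup.mk g') :
    ∃ u : F, u ≠ 0 ∧ ∀ i j, (g : Matrix (Fin 2) (Fin 2) F) i j * u =
      (g' : Matrix (Fin 2) (Fin 2) F) i j := by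
  rw [ProjGenLinGroup.mk_eq_mk_iff] at h
  obtain ⟨u, hu⟩ := h
  refine ⟨u, u.ne_zero, fun i j => ?_⟩
  rw [← hu]
  fin_cases i <;> fin_cases j <;>
    simp [Matrix.mul_apply, Fin.sum_univ_two, GeneralLinearGroup.coe_scalar]

/-- matrices which differ by a scalar have the same class -/
theorem pgl_mk_eq_of {g g' : GeneralLinearGroup (Fin 2) F} (u : F) (hu : u ≠ 0)
    (h : ∀ i j, (g : Matrix (Fin 2) (Fin 2) F) i j * u =
      (g' : Matrix (Fin 2) (Fin 2) F) i j) :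
    ProjGenLinGroup.mk g = ProjGenLinGroup.mk g' := by
  rw [ProjGenLinGroup.mk_eq_mk_iff]
  refine ⟨Units.mk0 u hu, Units.ext ?_⟩
  ext i j
  rw [← h i j]
  fin_cases i <;> fin_cases j <;>
    simp [Matrix.mul_apply, Fin.sum_univ_two, GeneralLinearGroup.coe_scalar]

theorem uni_mul (c d : F) : uni c * uni d = uni (c + d) := by
  rw [uni, uni, uni, ← map_mul]
  congr 1
  apply Units.ext
  rw [Units.val_mul, pgl_uni_coe, pgl_uni_coe, pgl_uni_coe]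
  ext i j
  fin_cases i <;> fin_cases j <;> simp [Matrix.mul_apply, Fin.sum_univ_two, add_comm]

theorem uni_zero : uni (0 : F) = 1 := by
  have h : ProjGenLinGroup.mk (1 : GeneralLinearGroup (Fin 2) F) = 1 := map_one _
  rw [uni, ← h]
  congr 1
  apply Units.ext
  rw [pgl_uni_coe, Units.val_one]
  ext i j
  fin_cases i <;> fin_cases j <;> simp

theorem uni_inj {c d : F} (h : uni c = uni d) : c = d := by
  obtain ⟨u, -, hu⟩ := pgl_mk_eq h
  have h1 := hu 1 1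
  have h2 := hu 0 1
  rw [pgl_uni_coe, pgl_uni_coe] at h1 h2
  simp at h1 h2
  rw [h1, mul_one] at h2
  exact h2

theorem uni_pow (c : F) (e : ℕ) : uni c ^ e = uni (e • c) := by
  induction e with
  | zero => rw [pow_zero, zero_nsmul, uni_zero]
  | succ e ih => rw [pow_succ, ih, uni_mul, succ_nsmul]

theorem uni_inv (c : F) : (uni c)⁻¹ = uni (-c) := by
  rw [inv_eq_iff_mul_eq_one, uni_mul, add_neg_cancel, uni_zero]

theorem isUp_iff (x : ProjGenLinGroup (Fin 2) F) : IsUp x ↔ ∃ s, Ratio x s := by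
  constructor
  · rintro ⟨g, hg, rfl⟩
    have hdet : (g : Matrix (Fin 2) (Fin 2) F).det ≠ 0 := by
      have h1 : IsUnit (g : Matrix (Fin 2) (Fin 2) F).det :=
        (Matrix.isUnit_iff_isUnit_det _).mp g.isUnit
      exact h1.ne_zero
    rw [Matrix.det_fin_two, hg, mul_zero, sub_zero] at hdet
    have h0 : (g : Matrix (Fin 2) (Fin 2) F) 0 0 ≠ 0 := left_ne_zero_of_mul hdet
    have h1 : (g : Matrix (Fin 2) (Fin 2) F) 1 1 ≠ 0 := right_ne_zero_of_mul hdet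
    have hs : (g : Matrix (Fin 2) (Fin 2) F) 0 0 * ((g : Matrix (Fin 2) (Fin 2) F) 1 1)⁻¹ ≠ 0 :=
      mul_ne_zero h0 (inv_ne_zero h1)
    refine ⟨_, hs, (g : Matrix (Fin 2) (Fin 2) F) 0 1 *
      ((g : Matrix (Fin 2) (Fin 2) F) 1 1)⁻¹, GeneralLinearGroup.mkOfDetNeZero
        !![(g : Matrix (Fin 2) (Fin 2) F) 0 0 * ((g : Matrix (Fin 2) (Fin 2) F) 1 1)⁻¹,
          (g : Matrix (Fin 2) (Fin 2) F) 0 1 * ((g : Matrix (Fin 2) (Fin 2) F) 1 1)⁻¹; 0, 1]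
        ?_, rfl, ?_⟩
    · rw [Matrix.det_fin_two_of, mul_one, mul_zero, sub_zero]
      exact hs
    · refine pgl_mk_eq_of _ (inv_ne_zero h1) fun i j => ?_
      change _ = (!![(g : Matrix (Fin 2) (Fin 2) F) 0 0 *
          ((g : Matrix (Fin 2) (Fin 2) F) 1 1)⁻¹,
        (g : Matrix (Fin 2) (Fin 2) F) 0 1 * ((g : Matrix (Fin 2) (Fin 2) F) 1 1)⁻¹; 0, 1] :
          Matrix (Fin 2) (Fin 2) F) i j
      fin_cases i <;> fin_cases j <;> simp [hg, h1]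
  · rintro ⟨s, hs, b, g, hg, rfl⟩
    exact ⟨g, by rw [hg]; simp, rfl⟩

theorem ratio_unique {x : ProjGenLinGroup (Fin 2) F} {s t : F} (h : Ratio x s)
    (h' : Ratio x t) : s = t := by
  obtain ⟨-, b, g, hg, rfl⟩ := h
  obtain ⟨-, b', g', hg', hx⟩ := h'
  obtain ⟨u, -, hu⟩ := pgl_mk_eq hx
  have h1 := hu 1 1
  have h2 := hu 0 0
  rw [hg, hg'] at h1 h2
  simp at h1 h2
  rw [h1, mul_one] at h2
  exact h2

theorem Ratio.mul {x y : ProjGenLinGroup (Fin 2) F} {s t : F} (h : Ratio x s)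
    (h' : Ratio y t) : Ratio (x * y) (s * t) := by
  obtain ⟨hs, b, g, hg, rfl⟩ := h
  obtain ⟨ht, b', g', hg', rfl⟩ := h'
  refine ⟨mul_ne_zero hs ht, s * b' + b, g * g', ?_, (map_mul _ _ _).symm⟩
  rw [Units.val_mul, hg, hg']
  ext i j
  fin_cases i <;> fin_cases j <;> simp [Matrix.mul_apply, Fin.sum_univ_two]

theorem Ratio.inv {x : ProjGenLinGroup (Fin 2) F} {s : F} (h : Ratio x s) :
    Ratio x⁻¹ s⁻¹ := by
  obtain ⟨hs, b, g, hg, rfl⟩ := h
  refine ⟨inv_ne_zero hs, -(s⁻¹ * b), GeneralLinearGroup.mkOfDetNeZero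
    !![s⁻¹, -(s⁻¹ * b); 0, 1] ?_, rfl, ?_⟩
  · rw [Matrix.det_fin_two_of, mul_one, mul_zero, sub_zero]
    exact inv_ne_zero hs
  · rw [inv_eq_iff_mul_eq_one, ← map_mul, ← ProjGenLinGroup.mk_one]
    congr 1
    apply Units.ext
    rw [Units.val_mul, hg, Units.val_one]
    change (!![s, b; 0, 1] * !![s⁻¹, -(s⁻¹ * b); 0, 1] : Matrix (Fin 2) (Fin 2) F) = 1
    ext i j
    fin_cases i <;> fin_cases j <;> simp [Matrix.mul_apply, Fin.sum_univ_two, hs]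

theorem ratio_uni (c : F) : Ratio (uni c) 1 :=
  ⟨one_ne_zero, c, _, pgl_uni_coe c, rfl⟩

theorem exists_uni_of_ratio {x : ProjGenLinGroup (Fin 2) F} (h : Ratio x 1) :
    ∃ c, x = uni c := by
  obtain ⟨-, b, g, hg, rfl⟩ := h
  refine ⟨b, ?_⟩
  rw [uni]
  congr 1
  apply Units.ext
  rw [hg, pgl_uni_coe]

theorem Ratio.conj {x : ProjGenLinGroup (Fin 2) F} {s : F} (h : Ratio x s) (c : F) :
    x * uni c * x⁻¹ = uni (s * c) := by
  obtain ⟨hs, b, g, hg, rfl⟩ := h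
  rw [mul_inv_eq_iff_eq_mul, uni, uni, ← map_mul, ← map_mul]
  congr 1
  apply Units.ext
  rw [Units.val_mul, Units.val_mul, hg, pgl_uni_coe, pgl_uni_coe]
  ext i j
  fin_cases i <;> fin_cases j <;> simp [Matrix.mul_apply, Fin.sum_univ_two, add_comm]

/-- Every ratio `t ^ 2` is realised in `PSL_2`. -/
theorem exists_sl_ratio (t : F) (ht : t ≠ 0) :
    ∃ s : SpecialLinearGroup (Fin 2) F, Ratio s.toPGL (t ^ 2) := by
  refine ⟨⟨!![t, 0; 0, t⁻¹], ?_⟩, pow_ne_zero 2 ht, 0,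
    GeneralLinearGroup.mkOfDetNeZero !![t ^ 2, 0; 0, 1] ?_, rfl, ?_⟩
  · rw [Matrix.det_fin_two_of, mul_zero, sub_zero, mul_inv_cancel₀ ht]
  · rw [Matrix.det_fin_two_of, mul_zero, sub_zero, mul_one]
    exact pow_ne_zero 2 ht
  · refine pgl_mk_eq_of t ht fun i j => ?_
    change (!![t, 0; 0, t⁻¹] : Matrix (Fin 2) (Fin 2) F) i j * t =
      (!![t ^ 2, 0; 0, 1] : Matrix (Fin 2) (Fin 2) F) i j
    fin_cases i <;> fin_cases j <;> simp [ht, pow_two]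

theorem exists_not_isUp : ∃ s : SpecialLinearGroup (Fin 2) F, ¬ IsUp s.toPGL := by
  refine ⟨⟨!![0, -1; 1, 0], ?_⟩, ?_⟩
  · rw [Matrix.det_fin_two_of]
    ring
  · rintro ⟨g, hg, hx⟩
    obtain ⟨u, hu, hu'⟩ := pgl_mk_eq hx
    have h1 := hu' 1 0
    rw [hg] at h1
    change (!![0, -1; 1, 0] : Matrix (Fin 2) (Fin 2) F) 1 0 * u = 0 at h1
    simp at h1
    exact hu h1

/-- `PSL_2` is transitive on the projective line: every `y` is `s` times an upper triangular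
element. -/
theorem exists_sl_isUp (y : ProjGenLinGroup (Fin 2) F) :
    ∃ s : SpecialLinearGroup (Fin 2) F, IsUp ((s.toPGL)⁻¹ * y) := by
  obtain ⟨g, rfl⟩ := ProjGenLinGroup.mk_surjective y
  have key : ∀ s : SpecialLinearGroup (Fin 2) F,
      (s : Matrix (Fin 2) (Fin 2) F) 0 0 * (g : Matrix (Fin 2) (Fin 2) F) 1 0 =
        (s : Matrix (Fin 2) (Fin 2) F) 1 0 * (g : Matrix (Fin 2) (Fin 2) F) 0 0 →
      IsUp ((s.toPGL)⁻¹ * ProjGenLinGroup.mk g) := by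
    intro s hs
    refine ⟨SpecialLinearGroup.toGL s⁻¹ * g, ?_, ?_⟩
    · have h1 : ((SpecialLinearGroup.toGL s⁻¹ : GeneralLinearGroup (Fin 2) F) :
          Matrix (Fin 2) (Fin 2) F) = Matrix.adjugate (s : Matrix (Fin 2) (Fin 2) F) :=
        Matrix.SpecialLinearGroup.coe_inv s
      rw [Units.val_mul, h1, Matrix.adjugate_fin_two, Matrix.mul_apply, Fin.sum_univ_two]
      simp only [Matrix.of_apply, Matrix.cons_val', Matrix.cons_val_zero, Matrix.cons_val_one,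
        Matrix.cons_val_fin_one]
      linear_combination hs
    · rw [map_mul, map_inv, map_inv]
      rfl
  have hdet : (g : Matrix (Fin 2) (Fin 2) F).det ≠ 0 := by
    have h1 : IsUnit (g : Matrix (Fin 2) (Fin 2) F).det :=
      (Matrix.isUnit_iff_isUnit_det _).mp g.isUnit
    exact h1.ne_zero
  by_cases ha : (g : Matrix (Fin 2) (Fin 2) F) 0 0 = 0
  · have hc : (g : Matrix (Fin 2) (Fin 2) F) 1 0 ≠ 0 := by
      intro hc
      rw [Matrix.det_fin_two, ha, hc, zero_mul, mul_zero, sub_zero] at hdet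
      exact hdet rfl
    refine ⟨⟨!![0, -((g : Matrix (Fin 2) (Fin 2) F) 1 0)⁻¹;
      (g : Matrix (Fin 2) (Fin 2) F) 1 0, 0], ?_⟩, key _ ?_⟩
    · rw [Matrix.det_fin_two_of, zero_mul, zero_sub, neg_mul, neg_neg, inv_mul_cancel₀ hc]
    · change (!![0, -((g : Matrix (Fin 2) (Fin 2) F) 1 0)⁻¹;
        (g : Matrix (Fin 2) (Fin 2) F) 1 0, 0] : Matrix (Fin 2) (Fin 2) F) 0 0 * _ =
        (!![0, -((g : Matrix (Fin 2) (Fin 2) F) 1 0)⁻¹;
        (g : Matrix (Fin 2) (Fin 2) F) 1 0, 0] : Matrix (Fin 2) (Fin 2) F) 1 0 *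
        (g : Matrix (Fin 2) (Fin 2) F) 0 0
      simp [ha]
  · refine ⟨⟨!![(g : Matrix (Fin 2) (Fin 2) F) 0 0, 0; (g : Matrix (Fin 2) (Fin 2) F) 1 0,
      ((g : Matrix (Fin 2) (Fin 2) F) 0 0)⁻¹], ?_⟩, key _ ?_⟩
    · rw [Matrix.det_fin_two_of, zero_mul, sub_zero, mul_inv_cancel₀ ha]
    · change (!![(g : Matrix (Fin 2) (Fin 2) F) 0 0, 0; (g : Matrix (Fin 2) (Fin 2) F) 1 0,
        ((g : Matrix (Fin 2) (Fin 2) F) 0 0)⁻¹] : Matrix (Fin 2) (Fin 2) F) 0 0 * _ =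
        (!![(g : Matrix (Fin 2) (Fin 2) F) 0 0, 0; (g : Matrix (Fin 2) (Fin 2) F) 1 0,
        ((g : Matrix (Fin 2) (Fin 2) F) 0 0)⁻¹] : Matrix (Fin 2) (Fin 2) F) 1 0 * _
      simp [mul_comm]

end BN43
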