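import Pool.Agent.Lib.MP_43150e_al.BN.Pgl
import Pool.Agent.Lib.MP_43150e_al.Lin.A2

/-! # The lemma `a2` for subgroups of `PGL_2(F)` -/

set_option autoImplicit false

namespace BN43

open Matrix

/-- If the stabiliser in `L` of every point of the projective line covers the squares in the
torus, then `L` contains all unipotent elements fixing some point. -/
theorem pgl_a2 {F : Type*} [Field F] [Fintype F] (hq : 59 < Fintype.card F)
    (L : Subgroup (ProjGenLinGroup (Fin 2) F))
    (h : ∀ (s : SpecialLinearGroup (Fin 2) F) (t : F), t ≠ 0 → ∃ x ∈ L,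
      Ratio ((s.toPGL)⁻¹ * x * s.toPGL) (t ^ 2)) :
    ∃ s : SpecialLinearGroup (Fin 2) F, ∀ c : F, s.toPGL * uni c * (s.toPGL)⁻¹ ∈ L := by
  obtain ⟨g, hg⟩ := Lin43.a2 hq (L.comap ProjGenLinGroup.mk) (by
    intro g t ht
    obtain ⟨x, hx, -, b, g', hg', hxg⟩ := h g t ht
    have hx' : x = ProjGenLinGroup.mk
        (SpecialLinearGroup.toGL g * g' * (SpecialLinearGroup.toGL g)⁻¹) := by
      rw [map_mul, map_mul, map_inv, ← hxg]
      change x = g.toPGL * ((g.toPGL)⁻¹ * x * g.toPGL) * (g.toPGL)⁻¹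
      group
    refine ⟨SpecialLinearGroup.toGL g * g' * (SpecialLinearGroup.toGL g)⁻¹, ?_, 1, b, ?_⟩
    · rw [Subgroup.mem_comap, ← hx']
      exact hx
    · have h1 : (SpecialLinearGroup.toGL g * g' * (SpecialLinearGroup.toGL g)⁻¹) *
          SpecialLinearGroup.toGL g = SpecialLinearGroup.toGL g * g' := by group
      have h2 := congrArg (fun u : GeneralLinearGroup (Fin 2) F =>
        (u : Matrix (Fin 2) (Fin 2) F)) h1
      beta_reduce at h2
      rw [Units.val_mul _ (SpecialLinearGroup.toGL g),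
        Units.val_mul (SpecialLinearGroup.toGL g) g', hg'] at h2
      rw [mul_one]
      exact h2)
  refine ⟨g, fun c => ?_⟩
  obtain ⟨l, hl, h1⟩ := hg c
  rw [Subgroup.mem_comap] at hl
  have h2 : l * SpecialLinearGroup.toGL g = SpecialLinearGroup.toGL g *
      GeneralLinearGroup.mkOfDetNeZero !![1, c; 0, 1] (by simp) := by
    apply Units.ext
    rw [Units.val_mul, Units.val_mul]
    exact h1
  have h3 : g.toPGL * uni c * (g.toPGL)⁻¹ = ProjGenLinGroup.mk l := by
    rw [mul_inv_eq_iff_eq_mul]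
    unfold uni
    change ProjGenLinGroup.mk (SpecialLinearGroup.toGL g) * _ =
      ProjGenLinGroup.mk l * ProjGenLinGroup.mk (SpecialLinearGroup.toGL g)
    rw [← map_mul, ← map_mul, h2]
  rw [h3]
  exact hl

end BN43
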