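import Pool.Agent.Lib.MP_43150e_al.BN.Pgl
import Pool.Agent.Lib.MP_43150e_al.Lin.T2

/-! # The lemma `t2` for subgroups of `PGL_2(F)` -/

set_option autoImplicit false

namespace BN43

open Matrix Lin43

private theorem pt_e0 {F : Type*} [Field F] (M : Matrix (Fin 2) (Fin 2) F) :
    M.mulVec ![1, 0] = ![M 0 0, M 1 0] := by
  ext i
  fin_cases i <;> simp [Matrix.mulVec, dotProduct, Fin.sum_univ_two]

private theorem pt_scalar {F : Type*} [Field F] (L : Subgroup (ProjGenLinGroup (Fin 2) F))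
    (u : Fˣ) : GeneralLinearGroup.scalar (Fin 2) u ∈
      L.comap (ProjGenLinGroup.mk : GeneralLinearGroup (Fin 2) F →* _) := by
  rw [Subgroup.mem_comap, ProjGenLinGroup.mk_scalar]
  exact one_mem _

private theorem pt_scalar_coe {F : Type*} [Field F] (u : Fˣ) :
    ((GeneralLinearGroup.scalar (Fin 2) u : GeneralLinearGroup (Fin 2) F) :
      Matrix (Fin 2) (Fin 2) F) = Matrix.scalar (Fin 2) (u : F) := rfl

private theorem pt_scalar_mulVec {F : Type*} [Field F] (c : F) (v : Fin 2 → F) :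
    (Matrix.scalar (Fin 2) c).mulVec v = c • v := by
  ext i
  fin_cases i <;> simp [Matrix.mulVec, dotProduct, Fin.sum_univ_two, Matrix.scalar_apply]

/-- a vector is the first column of an element of `SL_2` -/
private theorem pt_sl {F : Type*} [Field F] (v : Fin 2 → F) (hv : v ≠ 0) :
    ∃ s : SpecialLinearGroup (Fin 2) F, (s : Matrix (Fin 2) (Fin 2) F).mulVec ![1, 0] = v := by
  by_cases h0 : v 0 = 0
  · have h1 : v 1 ≠ 0 := by
      intro h1
      apply hv
      ext i
      fin_cases i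
      · exact h0
      · exact h1
    refine ⟨⟨!![0, -(v 1)⁻¹; v 1, 0], ?_⟩, ?_⟩
    · rw [det_fin_two_of, neg_mul, inv_mul_cancel₀ h1]
      ring
    · rw [pt_e0]
      ext i
      fin_cases i
      · exact h0.symm
      · rfl
  · refine ⟨⟨!![v 0, 0; v 1, (v 0)⁻¹], ?_⟩, ?_⟩
    · rw [det_fin_two_of, mul_inv_cancel₀ h0]
      ring
    · rw [pt_e0]
      ext i
      fin_cases i
      · rfl
      · rfl

/-- the preimage in `GL_2` is transitive on the nonzero vectors -/
private theorem pt_tr {F : Type*} [Field F] (L : Subgroup (ProjGenLinGroup (Fin 2) F))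
    (htr : ∀ s : SpecialLinearGroup (Fin 2) F, ∃ x ∈ L, IsUp (x⁻¹ * s.toPGL))
    (v : Fin 2 → F) (hv : v ≠ 0) :
    ∃ l ∈ L.comap (ProjGenLinGroup.mk : GeneralLinearGroup (Fin 2) F →* _),
      (l : Matrix (Fin 2) (Fin 2) F).mulVec ![1, 0] = v := by
  obtain ⟨s, hs⟩ := pt_sl v hv
  obtain ⟨x, hx, g, hg, hxg⟩ := htr s
  have hg0 : (g : Matrix (Fin 2) (Fin 2) F) 0 0 ≠ 0 := by
    intro h
    have h1 := GeneralLinearGroup.det_ne_zero g
    apply h1
    rw [det_fin_two, hg, h]
    ring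
  obtain ⟨u, hu⟩ : ∃ u : Fˣ, (u : F) = (g : Matrix (Fin 2) (Fin 2) F) 0 0 :=
    ⟨Units.mk0 _ hg0, rfl⟩
  refine ⟨SpecialLinearGroup.toGL s * g⁻¹ * GeneralLinearGroup.scalar (Fin 2) u, ?_, ?_⟩
  · refine mul_mem ?_ (pt_scalar L u)
    rw [Subgroup.mem_comap, map_mul, map_inv, ← hxg]
    have h1 : ProjGenLinGroup.mk (SpecialLinearGroup.toGL s) = s.toPGL := rfl
    rw [h1, _root_.mul_inv_rev, inv_inv, mul_inv_cancel_left]
    exact hx
  · have h2 : (g : Matrix (Fin 2) (Fin 2) F).mulVec ![1, 0] = (u : F) • ![1, 0] := by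
      rw [pt_e0, hg, hu]
      ext i
      fin_cases i <;> simp
    have h3 : ((g⁻¹ : GeneralLinearGroup (Fin 2) F) : Matrix (Fin 2) (Fin 2) F).mulVec
        ((u : F) • ![1, 0]) = ![1, 0] := by
      rw [← h2, Matrix.mulVec_mulVec, ← Units.val_mul, inv_mul_cancel, Units.val_one,
        Matrix.one_mulVec]
    rw [Units.val_mul, Units.val_mul, ← Matrix.mulVec_mulVec, pt_scalar_coe,
      pt_scalar_mulVec, ← Matrix.mulVec_mulVec, h3]
    exact hs

/-- the stabiliser of the first basis vector and the upper triangular elements -/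
private theorem pt_stab {F : Type*} [Field F] (L : Subgroup (ProjGenLinGroup (Fin 2) F)) :
    Nat.card {l : L.comap (ProjGenLinGroup.mk : GeneralLinearGroup (Fin 2) F →* _) //
      ((l : GeneralLinearGroup (Fin 2) F) : Matrix (Fin 2) (Fin 2) F).mulVec ![1, 0] =
        ![1, 0]} = Nat.card {x : ProjGenLinGroup (Fin 2) F // x ∈ L ∧ IsUp x} := by
  refine Nat.card_congr (Equiv.ofBijective (fun l =>
    ⟨ProjGenLinGroup.mk (l.1 : GeneralLinearGroup (Fin 2) F), l.1.2, l.1.1, ?_, rfl⟩) ⟨?_, ?_⟩)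
  · have h1 := l.2
    rw [pt_e0] at h1
    have h2 := congrFun h1 1
    simpa using h2
  · intro l l' h
    have h1 : ProjGenLinGroup.mk (l.1 : GeneralLinearGroup (Fin 2) F) =
        ProjGenLinGroup.mk (l'.1 : GeneralLinearGroup (Fin 2) F) := congrArg Subtype.val h
    obtain ⟨u, hu⟩ := ProjGenLinGroup.mk_eq_mk_iff.1 h1
    have h2 := l.2
    have h3 := l'.2
    rw [← hu, Units.val_mul, ← Matrix.mulVec_mulVec, pt_scalar_coe, pt_scalar_mulVec,
      Matrix.mulVec_smul, h2] at h3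
    have h4 : (u : F) = 1 := by
      have h5 := congrFun h3 0
      simpa using h5
    have h6 : u = 1 := Units.ext h4
    apply Subtype.ext
    apply Subtype.ext
    rw [← hu, h6, map_one, mul_one]
  · rintro ⟨x, hx, g, hg, rfl⟩
    have hg0 : (g : Matrix (Fin 2) (Fin 2) F) 0 0 ≠ 0 := by
      intro h
      have h1 := GeneralLinearGroup.det_ne_zero g
      apply h1
      rw [det_fin_two, hg, h]
      ring
    refine ⟨⟨⟨g * GeneralLinearGroup.scalar (Fin 2) (Units.mk0 _ hg0)⁻¹,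
      mul_mem hx (pt_scalar L _)⟩, ?_⟩, ?_⟩
    · change ((g * GeneralLinearGroup.scalar (Fin 2) (Units.mk0 _ hg0)⁻¹ :
        GeneralLinearGroup (Fin 2) F) : Matrix (Fin 2) (Fin 2) F).mulVec ![1, 0] = ![1, 0]
      rw [Units.val_mul, ← Matrix.mulVec_mulVec, pt_scalar_coe, pt_scalar_mulVec,
        Matrix.mulVec_smul, pt_e0, hg]
      ext i
      fin_cases i
      · simp [hg0]
      · simp
    · apply Subtype.ext
      change ProjGenLinGroup.mk (g * GeneralLinearGroup.scalar (Fin 2) _) =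
        ProjGenLinGroup.mk g
      rw [map_mul, ProjGenLinGroup.mk_scalar, mul_one]

/-- A subgroup transitive on the projective line contains all unipotent elements or has point
stabilisers of order at most two. -/
theorem pgl_t2 {F : Type*} [Field F] [Fintype F] (hq : 59 < Fintype.card F)
    (L : Subgroup (ProjGenLinGroup (Fin 2) F))
    (htr : ∀ s : SpecialLinearGroup (Fin 2) F, ∃ x ∈ L, IsUp (x⁻¹ * s.toPGL)) :
    (∀ c : F, uni c ∈ L) ∨ Nat.card {x : ProjGenLinGroup (Fin 2) F // x ∈ L ∧ IsUp x} ≤ 2 := by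
  rcases t2 hq (L.comap (ProjGenLinGroup.mk : GeneralLinearGroup (Fin 2) F →* _))
    (fun c hc => ⟨GeneralLinearGroup.scalar (Fin 2) (Units.mk0 c hc), pt_scalar L _, rfl⟩)
    (pt_tr L htr) with h | ⟨h, -⟩
  · refine Or.inl fun c => ?_
    obtain ⟨k, hk, hkc⟩ := h c
    have h1 : uni c = ProjGenLinGroup.mk k := by
      unfold uni
      congr 1
      apply Units.ext
      exact hkc.symm
    rw [h1]
    exact hk
  · rw [pt_stab] at h
    exact Or.inr h

private theorem pt_cardV {F : Type*} [Field F] [Fintype F] :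
    Nat.card {v : Fin 2 → F // v ≠ 0} = (Fintype.card F - 1) * (Fintype.card F + 1) := by
  classical
  rw [Nat.card_eq_fintype_card, Fintype.card_subtype_compl, Fintype.card_subtype_eq]
  rw [Fintype.card_pi, Finset.prod_const, Finset.card_univ, Fintype.card_fin]
  have h1 : 1 ≤ Fintype.card F := Fintype.card_pos
  obtain ⟨m, hm⟩ := Nat.exists_eq_add_of_le h1
  rw [hm]
  have h2 : 1 + m - 1 = m := by omega
  have h3 : (1 + m) ^ 2 = m * (1 + m + 1) + 1 := by ring
  rw [h2, h3, Nat.add_sub_cancel]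

private theorem pt_count {F : Type*} [Field F] [Fintype F]
    (L : Subgroup (ProjGenLinGroup (Fin 2) F))
    (htr : ∀ s : SpecialLinearGroup (Fin 2) F, ∃ x ∈ L, IsUp (x⁻¹ * s.toPGL)) :
    Nat.card (L.comap (ProjGenLinGroup.mk : GeneralLinearGroup (Fin 2) F →* _)) =
      Nat.card {v : Fin 2 → F // v ≠ 0} *
      Nat.card {l : L.comap (ProjGenLinGroup.mk : GeneralLinearGroup (Fin 2) F →* _) //
        ((l : GeneralLinearGroup (Fin 2) F) : Matrix (Fin 2) (Fin 2) F).mulVec ![1, 0] =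
        ![1, 0]} := by
  choose r hr hr2 using pt_tr L htr
  rw [← Nat.card_prod]
  have hne : ∀ l : GeneralLinearGroup (Fin 2) F,
      (l : Matrix (Fin 2) (Fin 2) F).mulVec ![1, 0] ≠ 0 := by
    intro l h0
    have h1 := congrArg (fun v => ((l⁻¹ : GeneralLinearGroup (Fin 2) F) :
      Matrix (Fin 2) (Fin 2) F).mulVec v) h0
    simp only [Matrix.mulVec_mulVec, ← Units.val_mul, inv_mul_cancel, Units.val_one,
      Matrix.one_mulVec, Matrix.mulVec_zero] at h1
    have h2 := congrFun h1 0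
    simp at h2
  have hinv : ∀ (l : GeneralLinearGroup (Fin 2) F) (v w : Fin 2 → F),
      (l : Matrix (Fin 2) (Fin 2) F).mulVec v = w →
      ((l⁻¹ : GeneralLinearGroup (Fin 2) F) : Matrix (Fin 2) (Fin 2) F).mulVec w = v := by
    intro l v w h
    rw [← h, Matrix.mulVec_mulVec, ← Units.val_mul, inv_mul_cancel, Units.val_one,
      Matrix.one_mulVec]
  refine Nat.card_congr
    { toFun := fun l => (⟨((l : GeneralLinearGroup (Fin 2) F) :
          Matrix (Fin 2) (Fin 2) F).mulVec ![1, 0], hne l⟩,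
        ⟨⟨(r _ (hne l))⁻¹ * l, mul_mem (inv_mem (hr _ (hne l))) l.2⟩, ?_⟩)
      invFun := fun x => ⟨r x.1.1 x.1.2 * x.2.1, mul_mem (hr _ _) x.2.1.2⟩
      left_inv := ?_
      right_inv := ?_ }
  · change (((r _ (hne l))⁻¹ * (l : GeneralLinearGroup (Fin 2) F) :
      GeneralLinearGroup (Fin 2) F) : Matrix (Fin 2) (Fin 2) F).mulVec ![1, 0] = ![1, 0]
    rw [Units.val_mul, ← Matrix.mulVec_mulVec]
    exact hinv _ _ _ (hr2 _ (hne l))
  · intro l
    apply Subtype.ext
    change r _ _ * ((r _ _)⁻¹ * (l : GeneralLinearGroup (Fin 2) F)) = l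
    rw [mul_inv_cancel_left]
  · rintro ⟨⟨v, hv⟩, ⟨⟨l, hl⟩, hl2⟩⟩
    have h1 : ((r v hv * l : GeneralLinearGroup (Fin 2) F) :
        Matrix (Fin 2) (Fin 2) F).mulVec ![1, 0] = v := by
      rw [Units.val_mul, ← Matrix.mulVec_mulVec]
      change (r v hv : Matrix (Fin 2) (Fin 2) F).mulVec ((l : Matrix (Fin 2) (Fin 2) F).mulVec
        ![1, 0]) = v
      have hl3 : (l : Matrix (Fin 2) (Fin 2) F).mulVec ![1, 0] = ![1, 0] := hl2
      rw [hl3, hr2]
    have h2 : ∀ (w : Fin 2 → F) (hw : w ≠ 0), w = v → (r w hw)⁻¹ * (r v hv * l) = l := by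
      intro w hw hwv
      subst hwv
      rw [inv_mul_cancel_left]
    refine Prod.ext (Subtype.ext h1) (Subtype.ext (Subtype.ext (h2 _ _ h1)))

theorem pgl_card {F : Type*} [Field F] [Fintype F]
    (L : Subgroup (ProjGenLinGroup (Fin 2) F))
    (htr : ∀ s : SpecialLinearGroup (Fin 2) F, ∃ x ∈ L, IsUp (x⁻¹ * s.toPGL)) :
    Nat.card L = (Fintype.card F + 1) *
      Nat.card {x : ProjGenLinGroup (Fin 2) F // x ∈ L ∧ IsUp x} := by
  classical
  have h1 := pt_count L htr
  rw [pt_stab, pt_cardV] at h1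
  have h2 := card_ker_inf (ProjGenLinGroup.mk : GeneralLinearGroup (Fin 2) F →* _)
    (L.comap (ProjGenLinGroup.mk : GeneralLinearGroup (Fin 2) F →* _))
  rw [Subgroup.map_comap_eq_self_of_surjective ProjGenLinGroup.mk_surjective, h1] at h2
  have h3 : (ProjGenLinGroup.mk : GeneralLinearGroup (Fin 2) F →* _).ker ⊓
      L.comap (ProjGenLinGroup.mk : GeneralLinearGroup (Fin 2) F →* _) =
      (GeneralLinearGroup.scalar (Fin 2) : Fˣ →* GeneralLinearGroup (Fin 2) F).range := by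
    rw [ProjGenLinGroup.ker_mk, GeneralLinearGroup.center_eq_range_scalar]
    refine inf_eq_left.2 ?_
    rintro _ ⟨u, rfl⟩
    exact pt_scalar L u
  have h4 : Nat.card (GeneralLinearGroup.scalar (Fin 2) :
      Fˣ →* GeneralLinearGroup (Fin 2) F).range = Fintype.card F - 1 := by
    rw [← Nat.card_congr (MonoidHom.ofInjective (f := (GeneralLinearGroup.scalar (Fin 2) :
      Fˣ →* GeneralLinearGroup (Fin 2) F)) ?_).toEquiv, Nat.card_units, Nat.card_eq_fintype_card]
    intro u u' huu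
    have h5 := congrArg (fun g : GeneralLinearGroup (Fin 2) F =>
      (g : Matrix (Fin 2) (Fin 2) F) 0 0) huu
    apply Units.ext
    simpa [pt_scalar_coe] using h5
  rw [h3, h4, mul_assoc] at h2
  exact Nat.eq_of_mul_eq_mul_left (Nat.sub_pos_of_lt Fintype.one_lt_card) h2

/-- In the second case every element of `L` has order dividing `2 (q + 1)`, and the upper
triangular elements are involutions. -/
theorem pgl_small {F : Type*} [Field F] [Fintype F]
    (L : Subgroup (ProjGenLinGroup (Fin 2) F))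
    (htr : ∀ s : SpecialLinearGroup (Fin 2) F, ∃ x ∈ L, IsUp (x⁻¹ * s.toPGL))
    (h2 : Nat.card {x : ProjGenLinGroup (Fin 2) F // x ∈ L ∧ IsUp x} ≤ 2) :
    (∀ x ∈ L, x ^ (2 * (Fintype.card F + 1)) = 1) ∧ ∀ x ∈ L, IsUp x → x ^ 2 = 1 := by
  classical
  have hfin : Finite (ProjGenLinGroup (Fin 2) F) :=
    Finite.of_surjective _ (ProjGenLinGroup.mk_surjective (n := Fin 2) (R := F))
  let Us : Subgroup (ProjGenLinGroup (Fin 2) F) :=
    { carrier := {x | x ∈ L ∧ IsUp x}
      one_mem' := ⟨one_mem _, (isUp_iff _).2 ⟨1, by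
        have h := ratio_uni (0 : F)
        rwa [uni_zero] at h⟩⟩
      mul_mem' := by
        rintro x y ⟨hx, hx'⟩ ⟨hy, hy'⟩
        obtain ⟨s, hs⟩ := (isUp_iff _).1 hx'
        obtain ⟨t, ht⟩ := (isUp_iff _).1 hy'
        exact ⟨mul_mem hx hy, (isUp_iff _).2 ⟨_, hs.mul ht⟩⟩
      inv_mem' := by
        rintro x ⟨hx, hx'⟩
        obtain ⟨s, hs⟩ := (isUp_iff _).1 hx'
        exact ⟨inv_mem hx, (isUp_iff _).2 ⟨_, hs.inv⟩⟩ }
  have hUs : Nat.card Us = Nat.card {x : ProjGenLinGroup (Fin 2) F // x ∈ L ∧ IsUp x} := rfl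
  have hpos : 0 < Nat.card Us := Nat.card_pos
  have hdvd : Nat.card Us ∣ 2 := by
    rw [← hUs] at h2
    have h3 : Nat.card Us = 1 ∨ Nat.card Us = 2 := by omega
    rcases h3 with h3 | h3 <;> rw [h3]
    exact one_dvd _
  constructor
  · intro x hx
    have h3 : x ^ Nat.card L = 1 := by
      have h4 := pow_card_eq_one' (x := (⟨x, hx⟩ : L))
      exact congrArg Subtype.val h4
    have h5 : Nat.card L ∣ 2 * (Fintype.card F + 1) := by
      rw [pgl_card L htr, ← hUs, mul_comm]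
      exact Nat.mul_dvd_mul_right hdvd _
    obtain ⟨d, hd⟩ := h5
    rw [hd, pow_mul, h3, one_pow]
  · intro x hx hx'
    have h4 := pow_card_eq_one' (x := (⟨x, hx, hx'⟩ : Us))
    have h5 : x ^ Nat.card Us = 1 := congrArg Subtype.val h4
    obtain ⟨d, hd⟩ := hdvd
    have h6 : x ^ 2 = x ^ (Nat.card Us * d) := congrArg (fun e : ℕ => x ^ e) hd
    rw [h6, pow_mul, h5, one_pow]

end BN43
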