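import Pool.Agent.Lib.MP_43150e_al.BN.Basic

/-!
# The datum of a group with a centre

`PreDatum G` is the datum of the quasisimple group `G`; `PreDatum.quot` is the datum of the
quotient `G / Z(G)`.
-/

set_option autoImplicit false

namespace BN43

open Matrix

/-- The axioms of `Datum` for a group with centre `Z`, `Z ≤ B`, `Z ≤ N`. -/
structure PreDatum (G : Type) [Group G] where
  /-- the characteristic -/
  p : ℕ
  prime : p.Prime
  /-- the unipotent radical of `B` -/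
  U : Subgroup G
  /-- the Borel subgroup -/
  B : Subgroup G
  /-- the group `N` of the BN-pair -/
  N : Subgroup G
  /-- the index set of the simple roots -/
  ι : Type
  finι : Finite ι
  /-- the field of the simple root group -/
  F : ι → Type
  field : ∀ i, Field (F i)
  fint : ∀ i, Fintype (F i)
  char : ∀ i, CharP (F i) p
  big : ∀ i, 59 < Fintype.card (F i)
  /-- the minimal parabolic subgroups -/
  P : ι → Subgroup G
  /-- the action of `P i` on the projective line over `F i` -/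
  π : ∀ i, P i →* ProjGenLinGroup (Fin 2) (F i)
  -- the centre
  Z_B : Subgroup.center G ≤ B
  Z_N : Subgroup.center G ≤ N
  Z_U : ∀ z ∈ Subgroup.center G, z ∈ U → z = 1
  Z_val : ∀ i, ∀ z ∈ Subgroup.center G, Val (π i) z 1
  -- as in `Datum`
  pgroup : IsPGroup p U
  U_le : U ≤ B
  norm : ∀ g : G, (∀ u ∈ U, g * u * g⁻¹ ∈ U) ↔ g ∈ B
  cop : ¬ p ∣ U.relIndex B
  comm : ∀ a ∈ B ⊓ N, ∀ b ∈ B ⊓ N, a * b = b * a
  split : ∀ b ∈ B, ∃ u ∈ U, ∃ h ∈ B ⊓ N, b = u * h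
  torus : ∀ n ∈ N, ∀ h ∈ B ⊓ N, n * h * n⁻¹ ∈ B
  bruhat : ∀ t : G, ∃ b ∈ B, ∃ n ∈ N, ∃ b' ∈ B, t = b * n * b'
  B_le : ∀ i, B ≤ P i
  up_iff : ∀ i (g : P i), IsUp (π i g) ↔ (g : G) ∈ B
  uni_of : ∀ i, ∀ u ∈ U, ∃ c, Val (π i) u (uni c)
  uni_sur : ∀ i (c : F i), ∃ u ∈ U, Val (π i) u (uni c)
  sl_sur : ∀ i (s : SpecialLinearGroup (Fin 2) (F i)), ∃ g, Val (π i) g s.toPGL
  rad : ∀ i, ∀ x ∈ P i, ∀ u ∈ U, Val (π i) u 1 → x * u * x⁻¹ ∈ U
  frat : ∀ u ∈ U, (∀ i, Val (π i) u 1) → u ∈ ⁅U, U⁆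
  faith : ∀ b ∈ B, (∀ i, ∃ c, Val (π i) b (uni c)) → ∃ z ∈ Subgroup.center G, b * z ∈ U
  cowt : ∀ i k, k ≠ i → ∃ h ∈ ⨆ l, B ⊓ conjGen (P l) U,
    (¬ ∃ c, Val (π i) h (uni c)) ∧ ∃ c, Val (π k) h (uni c)
  conn : ∀ A : Set ι, A.Nonempty → Aᶜ.Nonempty →
    ∃ i ∈ A, ∃ k ∈ Aᶜ, ∃ b ∈ B ⊓ conjGen (P k) U, ¬ ∃ c, Val (π i) (b ^ 2) (uni c)
  opp : ∀ k, ∀ n ∈ N, ∃ i, ∀ c : F i, ∃ y ∈ U, n⁻¹ * y * n ∈ conjGen (P k) U ∧
    Val (π i) y (uni c) ∧ ∀ l, l ≠ i → Val (π l) y 1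
  rank : ∃ k, ∃ b ∈ B, ∀ z ∈ Subgroup.center G,
    b ^ (4 * (Fintype.card (F k) + 1)) * z ∉ conjGen (P k) U
  minp : ∀ L : Subgroup G, B < L → ∃ i, P i ≤ L
  -- for the simplicity of the quotient
  gen_B : ∀ K : Subgroup G, Subgroup.center G ≤ K → U ≤ K →
    (∀ k, B ⊓ conjGen (P k) U ≤ K) → B ≤ K
  gen_P : ∀ K : Subgroup G, (∀ k, P k ≤ K) → K = ⊤
  core : ∀ u ∈ U, (∀ g : G, g * u * g⁻¹ ∈ B) → u = 1

attribute [instance] PreDatum.finι PreDatum.field PreDatum.fint PreDatum.char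

variable {G : Type} [Group G] (D : PreDatum G)

/-- The projection `G → G / Z(G)`. -/
abbrev pj (G : Type) [Group G] : G →* G ⧸ Subgroup.center G :=
  QuotientGroup.mk' (Subgroup.center G)

/-- The homomorphism of the quotient. -/
theorem PreDatum.exists_lift (i : D.ι) : ∃ f : (D.P i).map (pj G) →* ProjGenLinGroup (Fin 2) (D.F i),
    ∀ (g : G) (x : ProjGenLinGroup (Fin 2) (D.F i)), Val f (pj G g) x ↔ Val (D.π i) g x := by
  classical
  have hZP : ∀ z ∈ Subgroup.center G, z ∈ D.P i := fun z hz => D.B_le i (D.Z_B hz)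
  have hcong : ∀ g g' : D.P i, pj G g = pj G g' → D.π i g = D.π i g' := by
    intro g g' h
    have h1 : (g : G)⁻¹ * g' ∈ Subgroup.center G := QuotientGroup.eq.1 h
    obtain ⟨h2, h3⟩ := D.Z_val i _ h1
    have h4 : g' = g * ⟨(g : G)⁻¹ * g', h2⟩ := by
      apply Subtype.ext
      show (g' : G) = g * ((g : G)⁻¹ * g')
      group
    rw [h4, map_mul, h3, mul_one]
  have hch : ∀ y : (D.P i).map (pj G), ∃ g : D.P i, pj G g = y := by
    rintro ⟨y, g, hg, rfl⟩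
    exact ⟨⟨g, hg⟩, rfl⟩
  choose c hc using hch
  refine ⟨{ toFun := fun y => D.π i (c y), map_one' := ?_, map_mul' := ?_ }, ?_⟩
  · have h : D.π i (c 1) = D.π i 1 := hcong _ _ (by
      rw [hc, Subgroup.coe_one, Subgroup.coe_one, map_one])
    rw [h, map_one]
  · intro a b
    rw [← map_mul]
    exact hcong _ _ (by rw [hc, Subgroup.coe_mul, Subgroup.coe_mul, map_mul, hc, hc])
  · intro g x
    constructor
    · rintro ⟨h, hx⟩
      have hg : g ∈ D.P i := by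
        obtain ⟨g', hg', he⟩ := h
        have h1 : g'⁻¹ * g ∈ Subgroup.center G := QuotientGroup.eq.1 he
        have h2 : g = g' * (g'⁻¹ * g) := by group
        rw [h2]
        exact mul_mem hg' (hZP _ h1)
      refine ⟨hg, ?_⟩
      rw [← hx]
      exact (hcong _ _ (hc ⟨pj G g, h⟩)).symm
    · rintro ⟨hg, hx⟩
      refine ⟨⟨g, hg, rfl⟩, ?_⟩
      rw [← hx]
      exact hcong _ _ (hc ⟨pj G g, ⟨g, hg, rfl⟩⟩)

/-- The homomorphism of the quotient. -/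
noncomputable def PreDatum.lift (i : D.ι) :
    (D.P i).map (pj G) →* ProjGenLinGroup (Fin 2) (D.F i) := (D.exists_lift i).choose

theorem PreDatum.val_lift (i : D.ι) (g : G) (x : ProjGenLinGroup (Fin 2) (D.F i)) :
    Val (D.lift i) (pj G g) x ↔ Val (D.π i) g x := (D.exists_lift i).choose_spec g x

theorem map_conjGen (P U : Subgroup G) :
    conjGen (P.map (pj G)) (U.map (pj G)) = (conjGen P U).map (pj G) := by
  unfold conjGen
  rw [MonoidHom.map_closure]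
  congr 1
  ext y
  constructor
  · rintro ⟨x, ⟨x', hx', rfl⟩, u, ⟨u', hu', rfl⟩, rfl⟩
    exact ⟨x' * u' * x'⁻¹, ⟨x', hx', u', hu', rfl⟩, by simp only [map_mul, map_inv]⟩
  · rintro ⟨w, ⟨x', hx', u', hu', rfl⟩, rfl⟩
    exact ⟨pj G x', ⟨x', hx', rfl⟩, pj G u', ⟨u', hu', rfl⟩, by simp only [map_mul, map_inv]⟩

/-- Membership in the image of a subgroup containing the centre. -/
theorem mem_map_pj (K : Subgroup G) (hK : Subgroup.center G ≤ K) (g : G) :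
    pj G g ∈ K.map (pj G) ↔ g ∈ K := by
  constructor
  · rintro ⟨g', hg', he⟩
    have h1 : g'⁻¹ * g ∈ Subgroup.center G := QuotientGroup.eq.1 he
    have h2 : g = g' * (g'⁻¹ * g) := by group
    rw [h2]
    exact mul_mem hg' (hK h1)
  · intro h
    exact ⟨g, h, rfl⟩

/-- Membership in the image of a subgroup. -/
theorem mem_map_pj' (K : Subgroup G) (g : G) :
    pj G g ∈ K.map (pj G) ↔ ∃ z ∈ Subgroup.center G, g * z ∈ K := by
  constructor
  · rintro ⟨g', hg', he⟩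
    have h1 : g⁻¹ * g' ∈ Subgroup.center G := QuotientGroup.eq.1 he.symm
    refine ⟨g⁻¹ * g', h1, ?_⟩
    rw [mul_inv_cancel_left]
    exact hg'
  · rintro ⟨z, hz, hgz⟩
    refine ⟨g * z, hgz, ?_⟩
    refine (QuotientGroup.eq.2 ?_)
    have h1 : (g * z)⁻¹ * g = z⁻¹ := by
      group
    rw [h1]
    exact inv_mem hz

end BN43
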