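import Pool.Agent.Lib.MP_43150e_al.BN.Pre

/-! # The quotient by the centre: `U`, `B`, `N` -/

set_option autoImplicit false

namespace BN43

variable {G : Type} [Group G] (D : PreDatum G)

theorem quotA_surj (t : G ⧸ Subgroup.center G) : ∃ g : G, pj G g = t :=
  QuotientGroup.mk'_surjective (Subgroup.center G) t

theorem PreDatum.quotA_conj {b u : G} (hb : b ∈ D.B) (hu : u ∈ D.U) : b * u * b⁻¹ ∈ D.U :=
  (D.norm b).2 hb u hu

/-- The index `|B : U|` sends `B` into `U`. -/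
theorem PreDatum.quotA_pow {b : G} (hb : b ∈ D.B) : b ^ (D.U.relIndex D.B) ∈ D.U := by
  have hn : (D.U.subgroupOf D.B).Normal := by
    refine ⟨fun u hu g => ?_⟩
    rw [Subgroup.mem_subgroupOf] at hu ⊢
    exact D.quotA_conj g.2 hu
  have h1 := Subgroup.pow_index_mem (H := D.U.subgroupOf D.B) ⟨b, hb⟩
  rw [Subgroup.mem_subgroupOf] at h1
  exact h1

/-- A central element of order a power of `p` is trivial. -/
theorem PreDatum.quotA_center_pow {z : G} (hz : z ∈ Subgroup.center G) {k : ℕ}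
    (hk : z ^ D.p ^ k = 1) : z = 1 := by
  have h1 : z ^ (D.U.relIndex D.B) = 1 :=
    D.Z_U _ ((Subgroup.center G).pow_mem hz _) (D.quotA_pow (D.Z_B hz))
  have h2 : (D.U.relIndex D.B).Coprime (D.p ^ k) :=
    (Nat.Coprime.pow_left k ((Nat.Prime.coprime_iff_not_dvd D.prime).2 D.cop)).symm
  have h3 : orderOf z ∣ 1 := by
    rw [← h2.gcd_eq_one]
    exact Nat.dvd_gcd (orderOf_dvd_of_pow_eq_one h1) (orderOf_dvd_of_pow_eq_one hk)
  exact orderOf_eq_one_iff.1 (Nat.dvd_one.1 h3)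

theorem PreDatum.q_pgroup : IsPGroup D.p (D.U.map (pj G)) := D.pgroup.map (pj G)

theorem PreDatum.q_norm [Finite G] (g : G ⧸ Subgroup.center G) :
    (∀ u ∈ D.U.map (pj G), g * u * g⁻¹ ∈ D.U.map (pj G)) ↔ g ∈ D.B.map (pj G) := by
  obtain ⟨g, rfl⟩ := quotA_surj g
  constructor
  · intro h
    rw [mem_map_pj D.B D.Z_B, ← D.norm]
    intro u hu
    have h1 := h _ (Subgroup.mem_map_of_mem (pj G) hu)
    rw [← map_inv, ← map_mul, ← map_mul, mem_map_pj'] at h1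
    obtain ⟨z, hz, hzU⟩ := h1
    obtain ⟨k, hk⟩ := D.pgroup ⟨u, hu⟩
    obtain ⟨m, hm⟩ := D.pgroup ⟨_, hzU⟩
    have hk1 : u ^ D.p ^ k = 1 := by
      have := congrArg Subtype.val hk
      simpa using this
    have hm1 : (g * u * g⁻¹ * z) ^ D.p ^ m = 1 := by
      have := congrArg Subtype.val hm
      simpa using this
    have hc : Commute (g * u * g⁻¹) z := (Subgroup.mem_center_iff.1 hz _)
    have hx : (g * u * g⁻¹) ^ D.p ^ k = 1 := by
      rw [conj_pow, hk1, mul_one, mul_inv_cancel]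
    have hz1 : z ^ D.p ^ (k + m) = 1 := by
      have e1 : (g * u * g⁻¹) ^ D.p ^ (k + m) = 1 := by
        rw [pow_add, pow_mul, hx, one_pow]
      have e2 : (g * u * g⁻¹ * z) ^ D.p ^ (k + m) = 1 := by
        rw [add_comm, pow_add, pow_mul, hm1, one_pow]
      rw [hc.mul_pow, e1, one_mul] at e2
      exact e2
    have hz2 := D.quotA_center_pow hz hz1
    rw [hz2, mul_one] at hzU
    exact hzU
  · rintro hg u ⟨v, hv, rfl⟩
    rw [mem_map_pj D.B D.Z_B] at hg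
    rw [← map_inv, ← map_mul, ← map_mul]
    exact Subgroup.mem_map_of_mem (pj G) (D.quotA_conj hg hv)

theorem PreDatum.q_cop [Finite G] : ¬ D.p ∣ (D.U.map (pj G)).relIndex (D.B.map (pj G)) := by
  intro h
  apply D.cop
  rw [Subgroup.relIndex_map_map, QuotientGroup.ker_mk', sup_eq_left.2 D.Z_B] at h
  exact h.trans (Subgroup.relIndex_dvd_of_le_left _ le_sup_left)

theorem PreDatum.q_BN : D.B.map (pj G) ⊓ D.N.map (pj G) = (D.B ⊓ D.N).map (pj G) := by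
  ext x
  obtain ⟨g, rfl⟩ := quotA_surj x
  rw [Subgroup.mem_inf, mem_map_pj D.B D.Z_B, mem_map_pj D.N D.Z_N,
    mem_map_pj (D.B ⊓ D.N) (le_inf D.Z_B D.Z_N), Subgroup.mem_inf]

theorem PreDatum.q_comm : ∀ a ∈ D.B.map (pj G) ⊓ D.N.map (pj G),
    ∀ b ∈ D.B.map (pj G) ⊓ D.N.map (pj G), a * b = b * a := by
  rw [D.q_BN]
  rintro _ ⟨a, ha, rfl⟩ _ ⟨b, hb, rfl⟩
  rw [← map_mul, ← map_mul, D.comm a ha b hb]

theorem PreDatum.q_split : ∀ b ∈ D.B.map (pj G), ∃ u ∈ D.U.map (pj G),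
    ∃ h ∈ D.B.map (pj G) ⊓ D.N.map (pj G), b = u * h := by
  rw [D.q_BN]
  rintro _ ⟨b, hb, rfl⟩
  obtain ⟨u, hu, h, hh, rfl⟩ := D.split b hb
  exact ⟨pj G u, Subgroup.mem_map_of_mem (pj G) hu, pj G h, Subgroup.mem_map_of_mem (pj G) hh,
    map_mul _ _ _⟩

theorem PreDatum.q_torus : ∀ n ∈ D.N.map (pj G), ∀ h ∈ D.B.map (pj G) ⊓ D.N.map (pj G),
    n * h * n⁻¹ ∈ D.B.map (pj G) := by
  rw [D.q_BN]
  rintro _ ⟨n, hn, rfl⟩ _ ⟨h, hh, rfl⟩
  rw [← map_inv, ← map_mul, ← map_mul]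
  exact Subgroup.mem_map_of_mem (pj G) (D.torus n hn h hh)

theorem PreDatum.q_bruhat : ∀ t : G ⧸ Subgroup.center G, ∃ b ∈ D.B.map (pj G),
    ∃ n ∈ D.N.map (pj G), ∃ b' ∈ D.B.map (pj G), t = b * n * b' := by
  intro t
  obtain ⟨g, rfl⟩ := quotA_surj t
  obtain ⟨b, hb, n, hn, b', hb', rfl⟩ := D.bruhat g
  exact ⟨pj G b, Subgroup.mem_map_of_mem (pj G) hb, pj G n, Subgroup.mem_map_of_mem (pj G) hn,
    pj G b', Subgroup.mem_map_of_mem (pj G) hb', by rw [map_mul, map_mul]⟩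

theorem PreDatum.q_minp (L : Subgroup (G ⧸ Subgroup.center G)) (hL : D.B.map (pj G) < L) :
    ∃ i, (D.P i).map (pj G) ≤ L := by
  have h1 : D.B < L.comap (pj G) := by
    refine lt_of_le_of_ne (Subgroup.map_le_iff_le_comap.1 hL.le) fun h => ?_
    apply hL.ne
    rw [h]
    exact Subgroup.map_comap_eq_self_of_surjective
      (QuotientGroup.mk'_surjective (Subgroup.center G)) L
  obtain ⟨i, hi⟩ := D.minp _ h1
  exact ⟨i, Subgroup.map_le_iff_le_comap.2 hi⟩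

end BN43
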