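import Pool.Agent.Lib.MP_43150e_al.BN.BasicP
import Pool.Agent.Lib.MP_43150e_al.BN.LemV
import Pool.Agent.Lib.MP_43150e_al.BN.PglN

/-! # Simplicity -/

set_option autoImplicit false

namespace BN43

variable {T : Type} [Group T] (D : Datum T)

/-- The unipotent values at `k` of a normal subgroup which meets `P k` in a group not contained
in `B`. -/
private theorem normal_full_uni [Finite T] (N₀ : Subgroup T) (hN : N₀.Normal) (k : D.ι)
    (hk : ∃ x ∈ N₀, x ∈ D.P k ∧ x ∉ D.B) (c : D.F k) :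
    ∃ u ∈ D.U, u ∈ N₀ ∧ Val (D.π k) u (uni c) := by
  have h1 : uni c ∈ D.img N₀ k := by
    refine pgl_normal (D.big k) (D.img N₀ k) ?_ ?_ c
    · intro s x hx
      rw [D.mem_img] at hx ⊢
      obtain ⟨y, hy, hyx⟩ := hx
      obtain ⟨g, hg⟩ := D.sl_sur k s
      exact ⟨g * y * g⁻¹, hN.conj_mem y hy g, (hg.mul hyx).mul hg.inv⟩
    · obtain ⟨x, hx, hxP, hxB⟩ := hk
      obtain ⟨X, hX⟩ := exists_val (f := D.π k) hxP
      exact ⟨X, (D.mem_img N₀ k X).2 ⟨x, hx, hX⟩, fun h => hxB ((D.val_mem_B hX).1 h)⟩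
  obtain ⟨y, hy, hyc⟩ := (D.mem_img N₀ k _).1 h1
  exact D.exists_U_of_uni N₀ hy hyc

/-- The unipotent elements with value `1` are normalised by `P k`. -/
private theorem simple_R (k : D.ι) {x r : T} (hx : x ∈ D.P k) (hr : r ∈ D.U)
    (hv : Val (D.π k) r 1) : x * r * x⁻¹ ∈ D.U ∧ Val (D.π k) (x * r * x⁻¹) 1 := by
  refine ⟨D.rad k x hx r hr hv, ?_⟩
  obtain ⟨X, hX⟩ := exists_val (f := D.π k) hx
  have h := (hX.mul hv).mul hX.inv
  rwa [mul_one, mul_inv_cancel] at h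

/-- `S k ≤ (N₀ ∩ P k) R`. -/
private theorem normal_full_dec (N₀ : Subgroup T) (hN : N₀.Normal) (k : D.ι)
    (hu : ∀ c : D.F k, ∃ u ∈ D.U, u ∈ N₀ ∧ Val (D.π k) u (uni c)) :
    ∀ s ∈ D.S k, ∃ c ∈ N₀, c ∈ D.P k ∧ c⁻¹ * s ∈ D.U ∧ Val (D.π k) (c⁻¹ * s) 1 := by
  intro s hs
  refine Subgroup.closure_induction (p := fun s _ => ∃ c ∈ N₀, c ∈ D.P k ∧ c⁻¹ * s ∈ D.U ∧
      Val (D.π k) (c⁻¹ * s) 1) ?_ ?_ ?_ ?_ hs
  · rintro y ⟨x, hx, u, huU, rfl⟩
    obtain ⟨c, hc⟩ := D.uni_of k u huU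
    obtain ⟨w, hw, hwN, hwv⟩ := hu c
    have hr : w⁻¹ * u ∈ D.U := D.U.mul_mem (D.U.inv_mem hw) huU
    have hrv : Val (D.π k) (w⁻¹ * u) 1 := by
      have h1 := hwv.inv.mul hc
      rwa [inv_mul_cancel] at h1
    obtain ⟨h1, h2⟩ := simple_R D k hx hr hrv
    refine ⟨x * w * x⁻¹, hN.conj_mem w hwN x,
      (D.P k).mul_mem ((D.P k).mul_mem hx (D.U_le_P k hw)) ((D.P k).inv_mem hx), ?_⟩
    have h3 : (x * w * x⁻¹)⁻¹ * (x * u * x⁻¹) = x * (w⁻¹ * u) * x⁻¹ := by group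
    rw [h3]
    exact ⟨h1, h2⟩
  · refine ⟨1, N₀.one_mem, (D.P k).one_mem, ?_⟩
    rw [inv_one, mul_one]
    exact ⟨D.U.one_mem, Val.one⟩
  · rintro s s' _ _ ⟨c, hc, hcP, hr, hv⟩ ⟨c', hc', hcP', hr', hv'⟩
    refine ⟨c * c', N₀.mul_mem hc hc', (D.P k).mul_mem hcP hcP', ?_⟩
    obtain ⟨h1, h2⟩ := simple_R D k ((D.P k).inv_mem hcP') hr hv
    have h3 : (c * c')⁻¹ * (s * s') = c'⁻¹ * (c⁻¹ * s) * c'⁻¹⁻¹ * (c'⁻¹ * s') := by group
    rw [h3]
    refine ⟨D.U.mul_mem h1 hr', ?_⟩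
    have h4 := h2.mul hv'
    rwa [one_mul] at h4
  · rintro s _ ⟨c, hc, hcP, hr, hv⟩
    refine ⟨c⁻¹, N₀.inv_mem hc, (D.P k).inv_mem hcP, ?_⟩
    have hv1 : Val (D.π k) (c⁻¹ * s)⁻¹ 1 := by
      have h1 := hv.inv
      rwa [inv_one] at h1
    obtain ⟨h1, h2⟩ := simple_R D k hcP (D.U.inv_mem hr) hv1
    have h3 : c⁻¹⁻¹ * s⁻¹ = c * (c⁻¹ * s)⁻¹ * c⁻¹ := by group
    rw [h3]
    exact ⟨h1, h2⟩

/-- If a normal subgroup meets `P k` in a group which is not contained in `B`, it contains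
`B ∩ S k` modulo `U` and all the unipotent values at `k`. -/
theorem Datum.normal_full [Finite T] (N₀ : Subgroup T) (hN : N₀.Normal) (k : D.ι)
    (hk : ∃ x ∈ N₀, x ∈ D.P k ∧ x ∉ D.B) :
    (∀ c : D.F k, ∃ u ∈ D.U, u ∈ N₀ ∧ Val (D.π k) u (uni c)) ∧
    ∀ h ∈ D.B ⊓ D.S k, ∃ y ∈ N₀, y ∈ D.B ∧ h⁻¹ * y ∈ D.U := by
  have hu := normal_full_uni D N₀ hN k hk
  refine ⟨hu, ?_⟩
  rintro s ⟨hsB, hsS⟩
  obtain ⟨c, hc, -, hr, -⟩ := normal_full_dec D N₀ hN k hu s hsS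
  have h1 : s⁻¹ * c ∈ D.U := by
    have h2 := D.U.inv_mem hr
    have h3 : (c⁻¹ * s)⁻¹ = s⁻¹ * c := by group
    rwa [h3] at h2
  refine ⟨c, hc, ?_, h1⟩
  have h4 := D.B.mul_mem hsB (D.U_le h1)
  rwa [mul_inv_cancel_left] at h4

/-- If a normal subgroup meets `P k` in a subgroup of `B`, the values at `k` are trivial. -/
theorem Datum.normal_triv (N₀ : Subgroup T) (hN : N₀.Normal) (k : D.ι)
    (hk : ∀ x ∈ N₀, x ∈ D.P k → x ∈ D.B) : ∀ x ∈ N₀, x ∈ D.P k → Val (D.π k) x 1 := by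
  intro x hx hxP
  obtain ⟨X, hX⟩ := exists_val (f := D.π k) hxP
  have h1 : X = 1 := by
    apply pgl_core
    intro s
    obtain ⟨y, hy⟩ := D.sl_sur k s
    have h2 := (hy.mul hX).mul hy.inv
    exact (D.val_mem_B h2).2 (hk _ (hN.conj_mem x hx y) h2.mem)
  rwa [h1] at hX

theorem Datum.simple [Finite T]
    (S1 : ∀ K : Subgroup T, D.U ≤ K → (∀ k, D.B ⊓ D.S k ≤ K) → D.B ≤ K)
    (S2 : ∀ K : Subgroup T, (∀ k, D.P k ≤ K) → K = ⊤)
    (S3 : ∀ u ∈ D.U, (∀ g : T, g * u * g⁻¹ ∈ D.U) → u = 1) : IsSimpleGroup T := by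
  have hnt : Nontrivial T := by
    obtain ⟨k, -⟩ := D.rank
    obtain ⟨x, -, hxB⟩ := D.exists_not_mem_B k
    exact ⟨⟨x, 1, fun h => hxB (h ▸ D.B.one_mem)⟩⟩
  refine { toNontrivial := hnt, eq_bot_or_eq_top_of_normal := fun N₀ hN => ?_ }
  set J : Set D.ι := {k | ∃ x ∈ N₀, x ∈ D.P k ∧ x ∉ D.B} with hJ
  have htriv : ∀ k, k ∉ J → ∀ x ∈ N₀, x ∈ D.P k → Val (D.π k) x 1 := by
    intro k hk
    refine D.normal_triv N₀ hN k fun x hx hxP => ?_
    by_contra hxB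
    exact hk ⟨x, hx, hxP, hxB⟩
  by_cases hA : (Jᶜ).Nonempty
  · by_cases hB : (Jᶜᶜ).Nonempty
    · exfalso
      obtain ⟨i, hi, k, hk, b, hb, hbi⟩ := D.conn Jᶜ hA hB
      rw [compl_compl] at hk
      obtain ⟨y, hy, hyB, hyU⟩ := (D.normal_full N₀ hN k hk).2 b hb
      have h1 := htriv i hi y hy (D.B_le i hyB)
      obtain ⟨a, ha⟩ := D.uni_of i _ hyU
      have h2 := h1.mul ha.inv
      have h3 : y * (b⁻¹ * y)⁻¹ = b := by group
      rw [h3, one_mul, uni_inv] at h2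
      have h4 := h2.pow 2
      rw [uni_pow] at h4
      exact hbi ⟨_, h4⟩
    · left
      have hJ0 : ∀ k, k ∉ J := by
        intro k hk
        apply hB
        rw [compl_compl]
        exact ⟨k, hk⟩
      have hNB : N₀ ≤ D.B := by
        have h1 : D.B = D.B ⊔ N₀ := by
          by_contra hne
          obtain ⟨i, hi⟩ := D.minp (D.B ⊔ N₀) (lt_of_le_of_ne le_sup_left hne)
          obtain ⟨x, hxP, hxB⟩ := D.exists_not_mem_B i
          obtain ⟨b, hb, n, hn, hbn⟩ := Subgroup.mem_sup_of_normal_right.1 (hi hxP)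
          refine hJ0 i ⟨n, hn, ?_, ?_⟩
          · have h2 := (D.P i).mul_mem ((D.P i).inv_mem (D.B_le i hb)) hxP
            rwa [← hbn, inv_mul_cancel_left] at h2
          · intro hnB
            apply hxB
            rw [← hbn]
            exact D.B.mul_mem hb hnB
        rw [h1]
        exact le_sup_right
      have hNU : N₀ ≤ D.U := by
        intro x hx
        refine D.faith x (hNB hx) fun i => ⟨0, ?_⟩
        rw [uni_zero]
        exact htriv i (hJ0 i) x hx (D.B_le i (hNB hx))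
      rw [eq_bot_iff]
      intro x hx
      rw [Subgroup.mem_bot]
      exact S3 x (hNU hx) fun g => hNU (hN.conj_mem x hx g)
  · right
    have hJ1 : ∀ k, k ∈ J := by
      intro k
      by_contra hk
      exact hA ⟨k, hk⟩
    have hU : D.U ≤ N₀ := D.lemV N₀ (fun i => (D.normal_full N₀ hN i (hJ1 i)).1)
      (fun k => (D.normal_full N₀ hN k (hJ1 k)).2)
    have hS : ∀ k, D.S k ≤ N₀ := by
      intro k
      rw [Datum.S, conjGen, Subgroup.closure_le]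
      rintro y ⟨x, -, u, hu, rfl⟩
      exact hN.conj_mem u (hU hu) x
    have hB : D.B ≤ N₀ := S1 N₀ hU fun k => inf_le_right.trans (hS k)
    apply S2
    intro k
    obtain ⟨x, hx, hxP, hxB⟩ := hJ1 k
    exact D.max_B k N₀ hB x hx hxP hxB

include D in
/-- A group with such a datum is not commutative. -/
theorem Datum.noncomm : ∃ a b : T, a * b ≠ b * a := by
  by_contra hc
  push Not at hc
  obtain ⟨k, -⟩ := D.rank
  obtain ⟨u, hu, huv⟩ := D.uni_sur k 1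
  have h1 : (uni (1 : D.F k)) = 1 := by
    apply pgl_core
    intro s
    obtain ⟨g, hg⟩ := D.sl_sur k s
    have h2 := (hg.mul huv).mul hg.inv
    have h3 : g * u * g⁻¹ = u := by
      rw [hc g u, mul_inv_cancel_right]
    rw [h3] at h2
    exact (D.val_mem_B h2).2 (D.U_le hu)
  rw [← uni_zero] at h1
  exact one_ne_zero (uni_inj h1)

end BN43
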