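import Pool.Agent.Lib.MP_43150e_al.BN.QuotB
import Pool.Agent.Lib.MP_43150e_al.BN.Simple

/-! # Simplicity of `G / Z(G)` -/

set_option autoImplicit false

namespace BN43

variable {G : Type} [Group G]

theorem PreDatum.quot_simple (D : PreDatum G) [Finite G] :
    IsSimpleGroup (G ⧸ Subgroup.center G) := by
  have : Finite (G ⧸ Subgroup.center G) := inferInstance
  refine D.quot.simple ?_ ?_ ?_
  · intro K hU hS
    change D.B.map (pj G) ≤ K
    rw [Subgroup.map_le_iff_le_comap]
    refine D.gen_B (K.comap (pj G)) ?_ ?_ ?_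
    · intro z hz
      rw [Subgroup.mem_comap]
      have h1 : pj G z = 1 := (QuotientGroup.eq_one_iff z).2 hz
      rw [h1]
      exact K.one_mem
    · rw [← Subgroup.map_le_iff_le_comap]
      exact hU
    · intro k b hb
      rw [Subgroup.mem_comap]
      refine hS k ?_
      refine Subgroup.mem_inf.2 ⟨Subgroup.mem_map_of_mem _ (Subgroup.mem_inf.1 hb).1, ?_⟩
      change pj G b ∈ conjGen ((D.P k).map (pj G)) (D.U.map (pj G))
      rw [map_conjGen]
      exact Subgroup.mem_map_of_mem _ (Subgroup.mem_inf.1 hb).2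
  · intro K hP
    have h1 : K.comap (pj G) = ⊤ := by
      refine D.gen_P (K.comap (pj G)) fun k => ?_
      rw [← Subgroup.map_le_iff_le_comap]
      exact hP k
    rw [eq_top_iff]
    intro x _
    obtain ⟨g, rfl⟩ := QuotientGroup.mk'_surjective (Subgroup.center G) x
    have h2 : g ∈ K.comap (pj G) := by
      rw [h1]
      exact Subgroup.mem_top g
    exact h2
  · intro u hu hg
    obtain ⟨v, hv, rfl⟩ := Subgroup.mem_map.1 hu
    have h1 : v = 1 := by
      refine D.core v hv fun g => ?_
      have h2 := hg (pj G g)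
      have h3 : pj G (g * v * g⁻¹) ∈ D.B.map (pj G) := by
        rw [map_mul, map_mul, map_inv]
        exact Subgroup.map_mono D.U_le h2
      exact (mem_map_pj D.B D.Z_B _).1 h3
    rw [h1, map_one]

end BN43
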