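import Pool.Agent.Lib.MP_43150e_al.BN.Basic

/-! # Part B3: the character of `U` -/

set_option autoImplicit false

namespace BN43

/-- An additive map to `ZMod p`, nonzero, vanishing at an element of order at most two. -/
theorem exists_lam {F : Type} [Field F] [Fintype F] (p : ℕ) [Fact p.Prime] [CharP F p]
    (hq : 59 < Fintype.card F) (c : F) (hc : c + c = 0) :
    ∃ f : F →+ ZMod p, f c = 0 ∧ ∃ x, f x ≠ 0 := by
  let _ : Algebra (ZMod p) F := ZMod.algebra F p
  have hspan : Submodule.span (ZMod p) {c} < ⊤ := by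
    rw [lt_top_iff_ne_top]
    intro htop
    by_cases h0 : c = 0
    · rw [h0, Submodule.span_zero_singleton] at htop
      have h1 : (1 : F) ∈ (⊥ : Submodule (ZMod p) F) := by rw [htop]; trivial
      exact one_ne_zero ((Submodule.mem_bot (ZMod p)).1 h1)
    · have h2 : (2 : F) = 0 := by
        have h3 : (2 : F) * c = 0 := by rw [two_mul]; exact hc
        exact (mul_eq_zero.1 h3).resolve_right h0
      have hp : p = 2 := by
        have h3 : ((2 : ℕ) : F) = 0 := by exact_mod_cast h2
        have h4 := (CharP.cast_eq_zero_iff F p 2).1 h3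
        exact (Nat.prime_dvd_prime_iff_eq (Fact.out : p.Prime) Nat.prime_two).1 h4
      have h3 : Nat.card F ≤ Nat.card (ZMod p) := by
        have h4 : Function.Surjective (fun a : ZMod p => a • c) := by
          intro y
          have h5 : y ∈ Submodule.span (ZMod p) {c} := by rw [htop]; trivial
          exact Submodule.mem_span_singleton.1 h5
        exact Nat.card_le_card_of_surjective _ h4
      rw [Nat.card_zmod, Nat.card_eq_fintype_card, hp] at h3
      omega
  obtain ⟨f, hf, hf2⟩ := Submodule.exists_le_ker_of_lt_top _ hspan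
  refine ⟨f.toAddMonoidHom, hf2 (Submodule.mem_span_singleton_self c), ?_⟩
  by_contra hcon
  push Not at hcon
  exact hf (LinearMap.ext hcon)

variable {T : Type} [Group T] (D : Datum T)

/-- The character of `U`. -/
theorem Datum.char_U [Finite T] (c₀ : ∀ i, D.F i) (h₀ : ∀ i, c₀ i + c₀ i = 0) :
    ∃ ψ : D.U →* Multiplicative (ZMod D.p),
      (∀ u : D.U, (∀ i, Val (D.π i) u (uni 0) ∨ Val (D.π i) u (uni (c₀ i))) → ψ u = 1) ∧
      ∀ i, ∃ c : D.F i, ∀ u : D.U, Val (D.π i) u (uni c) → (∀ l, l ≠ i → Val (D.π l) u 1) →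
        ψ u ≠ 1 := by
  classical
  have : Fact D.p.Prime := ⟨D.prime⟩
  have := Fintype.ofFinite D.ι
  choose f hf x hx using fun i => exists_lam (F := D.F i) D.p (D.big i) (c₀ i) (h₀ i)
  choose c hc using fun (i : D.ι) (u : D.U) => D.uni_of i u u.2
  have hcu : ∀ (i : D.ι) (u : D.U) (a : D.F i), Val (D.π i) u (uni a) → c i u = a :=
    fun i u a ha => uni_inj ((hc i u).unique ha)
  have hmul : ∀ (i : D.ι) (u v : D.U), c i (u * v) = c i u + c i v := by
    intro i u v
    apply hcu
    have h1 := (hc i u).mul (hc i v)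
    rw [uni_mul] at h1
    exact h1
  refine ⟨MonoidHom.mk' (fun u => Multiplicative.ofAdd (∑ i, f i (c i u))) ?_, ?_, ?_⟩
  · intro u v
    rw [← ofAdd_add, ← Finset.sum_add_distrib]
    congr 1
    exact Finset.sum_congr rfl fun i _ => by rw [hmul, map_add]
  · intro u hu
    change Multiplicative.ofAdd (∑ i, f i (c i u)) = 1
    rw [ofAdd_eq_one]
    apply Finset.sum_eq_zero
    intro i _
    rcases hu i with h | h
    · rw [hcu i u 0 h, map_zero]
    · rw [hcu i u _ h, hf]
  · intro i
    refine ⟨x i, fun u hu hl => ?_⟩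
    change Multiplicative.ofAdd (∑ i, f i (c i u)) ≠ 1
    rw [Ne, ofAdd_eq_one, Finset.sum_eq_single i]
    · rw [hcu i u _ hu]
      exact hx i
    · intro l _ hli
      have h1 : c l u = 0 := by
        apply hcu
        rw [uni_zero]
        exact hl l hli
      rw [h1, map_zero]
    · intro h
      exact absurd (Finset.mem_univ i) h

end BN43
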