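import Pool.Agent.Lib.MP_43150e_al.BN.TFm
import Pool.Agent.Lib.MP_43150e_al.BN.LemV

/-! # Part B2, conclusion -/

set_option autoImplicit false

namespace BN43

variable {T : Type} [Group T] (D : Datum T)

theorem Datum.tf_borel [Finite T] (K : Subgroup T) (h : D.TFull K) :
    ∃ g : T, ∀ b ∈ D.B, g * b * g⁻¹ ∈ K := by
  obtain ⟨g, hg⟩ := D.tf_max K h
  refine ⟨g, ?_⟩
  -- the conjugate `g⁻¹ K g`
  have hmem : ∀ x : T, x ∈ K.comap (MulAut.conj g).toMonoidHom ↔ g * x * g⁻¹ ∈ K := by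
    intro x
    rw [Subgroup.mem_comap]
    rfl
  have hk : ∀ k ∈ K, g⁻¹ * k * g ∈ K.comap (MulAut.conj g).toMonoidHom := by
    intro k hk
    rw [hmem]
    have h1 : g * (g⁻¹ * k * g) * g⁻¹ = k := by group
    rwa [h1]
  have hU : D.U ≤ K.comap (MulAut.conj g).toMonoidHom := by
    refine D.lemV _ (fun i c => ?_) (fun k b hb => ?_)
    · obtain ⟨k, hkK, hkv⟩ := hg i c
      exact D.exists_U_of_uni _ (hk k hkK) hkv
    · obtain ⟨y, hyK, hyB, hyU⟩ := h g b hb.1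
      exact ⟨_, hk y hyK, hyB, hyU⟩
  intro b hb
  obtain ⟨k, hkK, _, hkU⟩ := h g b hb
  have h2 := Subgroup.mul_mem _ (hk k hkK) (Subgroup.inv_mem _ (hU hkU))
  have h3 : g⁻¹ * k * g * (b⁻¹ * (g⁻¹ * k * g))⁻¹ = b := by group
  rw [h3, hmem] at h2
  exact h2

end BN43
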