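import Pool.Agent.Lib.MP_43150e_al.BN.TFr

/-! # Part B2, the maximal conjugate -/

set_option autoImplicit false

namespace BN43

open Matrix

variable {T : Type} [Group T] (D : Datum T)

/-- The elements of `K` which `h` conjugates into `B`. -/
def Datum.tfmC (K : Subgroup T) (h : T) : Subgroup T :=
  K ⊓ D.B.comap (MulAut.conj h⁻¹).toMonoidHom

theorem Datum.tfm_mem_cB (K : Subgroup T) (h k : T) :
    k ∈ D.tfmC K h ↔ k ∈ K ∧ h⁻¹ * k * h ∈ D.B := by
  rw [Datum.tfmC, Subgroup.mem_inf, Subgroup.mem_comap]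
  simp only [MulEquiv.coe_toMonoidHom, MulAut.conj_apply, inv_inv]

/-- The homomorphism `k ↦ π_i (h⁻¹ k h)`. -/
noncomputable def Datum.tfmF (K : Subgroup T) (h : T) (i : D.ι) :
    D.tfmC K h →* ProjGenLinGroup (Fin 2) (D.F i) where
  toFun k := D.π i ⟨h⁻¹ * k.1 * h, D.B_le i ((D.tfm_mem_cB K h k.1).1 k.2).2⟩
  map_one' := by
    have : (⟨h⁻¹ * ((1 : D.tfmC K h) : T) * h,
        D.B_le i ((D.tfm_mem_cB K h _).1 (1 : D.tfmC K h).2).2⟩ : D.P i) = 1 := by
      apply Subtype.ext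
      simp
    rw [this, map_one]
  map_mul' a b := by
    rw [← map_mul]
    congr 1
    apply Subtype.ext
    simp only [Subgroup.coe_mul]
    group

theorem Datum.tfm_cf_val (K : Subgroup T) (h : T) (i : D.ι) (k : D.tfmC K h) :
    Val (D.π i) (h⁻¹ * k.1 * h) (D.tfmF K h i k) := ⟨_, rfl⟩

theorem tfm_isUp_one {F : Type*} [Field F] : IsUp (1 : ProjGenLinGroup (Fin 2) F) := by
  rw [isUp_iff]
  exact ⟨1, by rw [← uni_zero]; exact ratio_uni 0⟩

theorem Datum.tfm_card_ker (K : Subgroup T) (h : T) (i : D.ι) :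
    Nat.card (D.tfmF K h i).ker = Nat.card {k : T // k ∈ K ∧ Val (D.π i) (h⁻¹ * k * h) 1} := by
  apply Nat.card_congr
  refine ⟨fun k => ⟨k.1.1, ((D.tfm_mem_cB K h _).1 k.1.2).1, ?_⟩, fun k => ⟨⟨k.1, ?_⟩, ?_⟩, ?_, ?_⟩
  · have h1 := D.tfm_cf_val K h i k.1
    have h2 : D.tfmF K h i k.1 = 1 := k.2
    rw [h2] at h1
    exact h1
  · exact (D.tfm_mem_cB K h _).2 ⟨k.2.1, (D.val_mem_B k.2.2).1 tfm_isUp_one⟩
  · exact (D.tfm_cf_val K h i ⟨k.1, _⟩).unique k.2.2
  · intro k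
    rfl
  · intro k
    rfl

theorem Datum.tfm_card_cB [Finite T] (K : Subgroup T) (h : T) (i : D.ι) :
    Nat.card (D.tfmC K h) = Nat.card (D.tfmF K h i).ker * Nat.card (D.tfmF K h i).range := by
  rw [← Subgroup.index_ker, Subgroup.card_mul_index]

/-- The image of `B`. -/
def Datum.tfmI (i : D.ι) : Subgroup (ProjGenLinGroup (Fin 2) (D.F i)) :=
  (D.B.subgroupOf (D.P i)).map (D.π i)

theorem Datum.tfm_mem_iB (i : D.ι) (x : ProjGenLinGroup (Fin 2) (D.F i)) :
    x ∈ D.tfmI i ↔ ∃ b ∈ D.B, Val (D.π i) b x := by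
  rw [Datum.tfmI, Subgroup.mem_map]
  constructor
  · rintro ⟨y, hy, rfl⟩
    exact ⟨y.1, hy, y.2, rfl⟩
  · rintro ⟨b, hb, hP, rfl⟩
    exact ⟨⟨b, hP⟩, hb, rfl⟩

/-- A conjugate of `K` with `|K ∩ B|` maximal has all unipotent elements in the images of all
`K ∩ P i`. -/
theorem Datum.tf_max [Finite T] (K : Subgroup T) (h : D.TFull K) :
    ∃ g : T, ∀ (i : D.ι) (c : D.F i), ∃ k ∈ K, Val (D.π i) (g⁻¹ * k * g) (uni c) := by
  obtain ⟨g, hg⟩ := Finite.exists_max (fun g : T => Nat.card (D.tfmC K g))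
  refine ⟨g, fun i c => ?_⟩
  -- the rank one step for the conjugate group
  have hT : D.TFull (K.comap (MulAut.conj g).toMonoidHom) := by
    intro t b hb
    obtain ⟨k, hk, h1, h2⟩ := h (g * t) b hb
    refine ⟨g⁻¹ * k * g, ?_, ?_, ?_⟩
    · rw [Subgroup.mem_comap]
      simp only [MulEquiv.coe_toMonoidHom, MulAut.conj_apply]
      have : g * (g⁻¹ * k * g) * g⁻¹ = k := by group
      rw [this]
      exact hk
    · have : t⁻¹ * (g⁻¹ * k * g) * t = (g * t)⁻¹ * k * (g * t) := by group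
      rw [this]
      exact h1
    · have : t⁻¹ * (g⁻¹ * k * g) * t = (g * t)⁻¹ * k * (g * t) := by group
      rw [this]
      exact h2
  obtain ⟨x, hx, hxc⟩ := D.tf_rank1 _ hT i
  have hxc' : ∀ c : D.F i, ∃ k ∈ K, Val (D.π i) ((g * x)⁻¹ * k * (g * x)) (uni c) := by
    intro c
    obtain ⟨k, hk, hv⟩ := hxc c
    rw [Subgroup.mem_comap] at hk
    simp only [MulEquiv.coe_toMonoidHom, MulAut.conj_apply] at hk
    refine ⟨g * k * g⁻¹, hk, ?_⟩
    have : (g * x)⁻¹ * (g * k * g⁻¹) * (g * x) = x⁻¹ * k * x := by group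
    rw [this]
    exact hv
  -- the kernels
  obtain ⟨v, hv⟩ := exists_val (f := D.π i) hx
  have hker : Nat.card (D.tfmF K g i).ker = Nat.card (D.tfmF K (g * x) i).ker := by
    rw [D.tfm_card_ker, D.tfm_card_ker]
    apply Nat.card_congr
    apply Equiv.subtypeEquivRight
    intro k
    apply and_congr_right
    intro _
    constructor
    · intro h1
      have h2 := (hv.inv.mul h1).mul hv
      have e1 : x⁻¹ * (g⁻¹ * k * g) * x = (g * x)⁻¹ * k * (g * x) := by group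
      have e2 : v⁻¹ * 1 * v = 1 := by group
      rw [e1, e2] at h2
      exact h2
    · intro h1
      have h2 := (hv.mul h1).mul hv.inv
      have e1 : x * ((g * x)⁻¹ * k * (g * x)) * x⁻¹ = g⁻¹ * k * g := by group
      have e2 : v * 1 * v⁻¹ = 1 := by group
      rw [e1, e2] at h2
      exact h2
  -- the images
  have hr1 : (D.tfmF K g i).range ≤ D.tfmI i := by
    rintro y ⟨k, rfl⟩
    exact (D.tfm_mem_iB i _).2 ⟨_, ((D.tfm_mem_cB K g k.1).1 k.2).2, D.tfm_cf_val K g i k⟩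
  have hmem : ∀ k ∈ K, ∀ y, Val (D.π i) ((g * x)⁻¹ * k * (g * x)) y →
      (g * x)⁻¹ * k * (g * x) ∈ D.B → y ∈ (D.tfmF K (g * x) i).range := by
    intro k hk y hy hB
    exact ⟨⟨k, (D.tfm_mem_cB K _ _).2 ⟨hk, hB⟩⟩, (D.tfm_cf_val K (g * x) i _).unique hy⟩
  have hr2 : D.tfmI i ≤ (D.tfmF K (g * x) i).range := by
    intro y hy
    obtain ⟨b, hb, hby⟩ := (D.tfm_mem_iB i _).1 hy
    obtain ⟨k, hk, h1, h2⟩ := h (g * x) b hb
    obtain ⟨c1, hc1⟩ := D.uni_of i _ h2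
    have h3 := hby.mul hc1
    have e1 : b * (b⁻¹ * ((g * x)⁻¹ * k * (g * x))) = (g * x)⁻¹ * k * (g * x) := by group
    rw [e1] at h3
    have h4 := hmem k hk _ h3 h1
    obtain ⟨k', hk', hv'⟩ := hxc' c1
    have h5 : uni c1 ∈ (D.tfmF K (g * x) i).range := by
      apply hmem k' hk' _ hv'
      apply (D.val_mem_B hv').1
      rw [isUp_iff]
      exact ⟨1, ratio_uni c1⟩
    have h6 := (D.tfmF K (g * x) i).range.mul_mem h4 ((D.tfmF K (g * x) i).range.inv_mem h5)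
    have e2 : y * uni c1 * (uni c1)⁻¹ = y := by group
    rw [e2] at h6
    exact h6
  have hfin : Finite (ProjGenLinGroup (Fin 2) (D.F i)) := by
    have : Function.Surjective
        (ProjGenLinGroup.mk : GeneralLinearGroup (Fin 2) (D.F i) → _) := by
      intro y
      obtain ⟨z, hz⟩ := QuotientGroup.mk'_surjective _ y
      exact ⟨z, hz⟩
    exact Finite.of_surjective _ this
  have hle : Nat.card (D.tfmI i) ≤ Nat.card (D.tfmF K g i).range := by
    have h1 := hg (g * x)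
    rw [D.tfm_card_cB K g i, D.tfm_card_cB K (g * x) i, hker] at h1
    have h2 : Nat.card (D.tfmF K (g * x) i).range ≤ Nat.card (D.tfmF K g i).range :=
      Nat.le_of_mul_le_mul_left h1 Nat.card_pos
    exact (Subgroup.card_le_of_le hr2).trans h2
  have heq : (D.tfmF K g i).range = D.tfmI i := Subgroup.eq_of_le_of_card_ge hr1 hle
  have hu : uni c ∈ D.tfmI i := by
    obtain ⟨u, hu, hv⟩ := D.uni_sur i c
    exact (D.tfm_mem_iB i _).2 ⟨u, D.U_le hu, hv⟩
  rw [← heq] at hu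
  obtain ⟨k, hk⟩ := hu
  refine ⟨k.1, ((D.tfm_mem_cB K g _).1 k.2).1, ?_⟩
  rw [← hk]
  exact D.tfm_cf_val K g i k

end BN43
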