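import Pool.Agent.Lib.MP_43150e_al.BN.PglA2
import Pool.Agent.Lib.MP_43150e_al.BN.BasicP

/-! # Part B2, the rank one step -/

set_option autoImplicit false

namespace BN43

variable {T : Type} [Group T] (D : Datum T)

/-- The rank one step: for every `i` some `x ∈ P i` such that all unipotent elements are in the
image of `x⁻¹ K x ∩ P i`. -/
theorem Datum.tf_rank1 [Finite T] (K : Subgroup T) (h : D.TFull K) (i : D.ι) :
    ∃ x ∈ D.P i, ∀ c : D.F i, ∃ k ∈ K, Val (D.π i) (x⁻¹ * k * x) (uni c) := by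
  obtain ⟨s, hs⟩ := pgl_a2 (D.big i) (D.img K i) (by
    intro s t ht
    obtain ⟨x, hx⟩ := D.sl_sur i s
    obtain ⟨σ, hσ⟩ := exists_sl_ratio t ht
    obtain ⟨b, hb⟩ := D.sl_sur i σ
    have hbB : b ∈ D.B := (D.val_mem_B hb).1 ((isUp_iff _).2 ⟨_, hσ⟩)
    obtain ⟨k, hk, -, hkU⟩ := h x b hbB
    obtain ⟨c, hc⟩ := D.uni_of i _ hkU
    have h1 : Val (D.π i) k (s.toPGL * (σ.toPGL * uni c) * (s.toPGL)⁻¹) := by
      have h2 := (hx.mul (hb.mul hc)).mul hx.inv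
      have h3 : x * (b * (b⁻¹ * (x⁻¹ * k * x))) * x⁻¹ = k := by group
      rwa [h3] at h2
    refine ⟨_, (D.mem_img K i _).2 ⟨k, hk, h1⟩, ?_⟩
    have h4 : (s.toPGL)⁻¹ * (s.toPGL * (σ.toPGL * uni c) * (s.toPGL)⁻¹) * s.toPGL =
        σ.toPGL * uni c := by group
    rw [h4]
    have h5 := hσ.mul (ratio_uni c)
    rwa [mul_one] at h5)
  obtain ⟨x, hx⟩ := D.sl_sur i s
  refine ⟨x, hx.mem, fun c => ?_⟩
  obtain ⟨k, hk, hkv⟩ := (D.mem_img K i _).1 (hs c)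
  refine ⟨k, hk, ?_⟩
  have h1 := (hx.inv.mul hkv).mul hx
  have h2 : (s.toPGL)⁻¹ * (s.toPGL * uni c * (s.toPGL)⁻¹) * s.toPGL = uni c := by group
  rwa [h2] at h1

end BN43
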